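import Pool.Agent.P.MP_3ae97d_gt.HM.Iface

section partINT

/-! Step INT. -/

set_option autoImplicit false
set_option linter.unusedSectionVars false

namespace Pool.Agent.P.MP_3ae97d_gt.HM

open Set Filter Topology Metric Function unitInterval

namespace INTx

/-- The affine parametrisation of a subinterval. -/
noncomputable def seg (p q : I) : C(I, I) :=
  ⟨fun u => ⟨(1 - u) * p + u * q, by
      have := u.2.1; have := u.2.2; have := p.2.1; have := p.2.2; have := q.2.1; have := q.2.2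
      constructor <;> nlinarith⟩, by fun_prop⟩

theorem seg_val (p q u : I) : (seg p q u : ℝ) = (1 - u) * p + u * q := rfl

theorem seg_mem {p q : I} (h : p < q) (u : I) : p ≤ seg p q u ∧ seg p q u ≤ q := by
  have := u.2.1; have := u.2.2
  have h' : (p : ℝ) < q := h
  constructor <;> rw [← Subtype.coe_le_coe, seg_val] <;> nlinarith

theorem seg_inj {p q : I} (h : p < q) : Injective (seg p q) := fun u v e => by
  have h' : (p : ℝ) < q := h
  have e' := congrArg Subtype.val e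
  rw [seg_val, seg_val] at e'
  exact Subtype.ext (mul_right_cancel₀ (sub_pos.2 h').ne' (by linarith))

theorem seg_range {p q s : I} (h : p < s) (h' : s < q) : s ∈ range (seg p q) := by
  have h1 : (p : ℝ) < s := h
  have h2 : (s : ℝ) < q := h'
  have h3 : (0 : ℝ) < q - p := by linarith
  refine ⟨⟨(s - p) / (q - p), div_nonneg (by linarith) h3.le, (div_le_one h3).2 (by linarith)⟩,
    Subtype.ext ?_⟩
  rw [seg_val]
  field_simp
  ring

end INTx

open INTx in
theorem p_INT :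
    S_INT := by
  obtain ⟨D, hD, hd⟩ := TopologicalSpace.exists_countable_dense I
  refine ⟨(fun x : (I × I) × I × I => (seg x.1.1 x.1.2, seg x.2.1 x.2.2)) ''
    {x ∈ (D ×ˢ D) ×ˢ D ×ˢ D | 0 < x.1.1 ∧ x.1.1 < x.1.2 ∧ x.1.2 < 1 ∧ 0 < x.2.1 ∧
      x.2.1 < x.2.2 ∧ x.2.2 < 1 ∧ (x.1.2 < x.2.1 ∨ x.2.2 < x.1.1)},
    (((hD.prod hD).prod (hD.prod hD)).mono (sep_subset _ _)).image _, ?_, ?_⟩
  · rintro _ ⟨⟨⟨p, q⟩, p', q'⟩, ⟨-, h1, h2, h3, h4, h5, h6, h7⟩, rfl⟩
    refine ⟨seg_inj h2, seg_inj h5, fun s t => ?_, fun s =>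
      ⟨⟨(h1.trans_le (seg_mem h2 s).1).ne', ((seg_mem h2 s).2.trans_lt h3).ne⟩,
        (h4.trans_le (seg_mem h5 s).1).ne', ((seg_mem h5 s).2.trans_lt h6).ne⟩⟩
    rcases h7 with h | h
    · exact (((seg_mem h2 s).2.trans_lt h).trans_le (seg_mem h5 t).1).ne
    · exact (((seg_mem h5 t).2.trans_lt h).trans_le (seg_mem h2 s).1).ne'
  · have key : ∀ s t : I, In s → In t → s < t → ∃ p ∈ D, ∃ q ∈ D, ∃ p' ∈ D, ∃ q' ∈ D,
        0 < p ∧ p < s ∧ s < q ∧ q < p' ∧ p' < t ∧ t < q' ∧ q' < 1 := fun s t hs ht h => by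
      obtain ⟨p, a1, a2, a3⟩ := hd.exists_between (unitInterval.pos_iff_ne_zero.2 hs.1)
      obtain ⟨q, b1, b2, b3⟩ := hd.exists_between h
      obtain ⟨p', c1, c2, c3⟩ := hd.exists_between b3
      obtain ⟨q', d1, d2, d3⟩ := hd.exists_between (unitInterval.lt_one_iff_ne_one.2 ht.2)
      exact ⟨p, a1, q, b1, p', c1, q', d1, a2, a3, b2, c2, c3, d2, d3⟩
    intro s t hs ht hne
    rcases hne.lt_or_gt with h | h
    · obtain ⟨p, a, q, b, p', c, q', d, h1, h2, h3, h4, h5, h6, h7⟩ := key s t hs ht h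
      exact ⟨_, ⟨((p, q), p', q'), ⟨⟨⟨a, b⟩, c, d⟩, h1, h2.trans h3,
        ((h4.trans h5).trans h6).trans h7, ((h1.trans h2).trans h3).trans h4, h5.trans h6, h7,
        Or.inl h4⟩, rfl⟩, seg_range h2 h3, seg_range h5 h6⟩
    · obtain ⟨p, a, q, b, p', c, q', d, h1, h2, h3, h4, h5, h6, h7⟩ := key t s ht hs h
      exact ⟨_, ⟨((p', q'), p, q), ⟨⟨⟨c, d⟩, a, b⟩, ((h1.trans h2).trans h3).trans h4,
        h5.trans h6, h7, h1, h2.trans h3, ((h4.trans h5).trans h6).trans h7,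
        Or.inr h4⟩, rfl⟩, seg_range h5 h6, seg_range h2 h3⟩

end Pool.Agent.P.MP_3ae97d_gt.HM

end partINT

section partGEN1

/-! Step GEN1. -/

set_option autoImplicit false
set_option linter.unusedSectionVars false

namespace Pool.Agent.P.MP_3ae97d_gt.HM

open Set Filter Topology Metric Function unitInterval

namespace GEN1x

/-- Two paths and two points as one map. -/
def e {M : Type} [TopologicalSpace M] (u v : M) (p : C(I, M) × C(I, M)) :
    C((I ⊕ I) ⊕ Bool, M) :=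
  ⟨Sum.elim (Sum.elim p.1 p.2) fun b => cond b u v,
    (p.1.continuous.sumElim p.2.continuous).sumElim continuous_of_discreteTopology⟩

theorem cont {M : Type} [MetricSpace M] (u v : M) : Continuous (e u v) := by
  refine (LipschitzWith.of_dist_le_mul (K := 1) fun p q => ?_).continuous
  rw [NNReal.coe_one, one_mul, ContinuousMap.dist_le dist_nonneg, Prod.dist_eq]
  rintro ((t | t) | b)
  · exact (ContinuousMap.dist_apply_le_dist t).trans (le_max_left _ _)
  · exact (ContinuousMap.dist_apply_le_dist t).trans (le_max_right _ _)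
  · exact (dist_self _).le.trans (le_max_of_le_left dist_nonneg)

theorem inj {j : C(I, I) × C(I, I)} (h : Iv j) : Injective (e 1 0 j) := by
  obtain ⟨h1, h2, h3, h4⟩ := h
  rintro ((s | s) | (_ | _)) ((t | t) | (_ | _)) hh
  all_goals first
    | rfl
    | exact congrArg _ (congrArg _ (h1 hh))
    | exact congrArg _ (congrArg _ (h2 hh))
    | exact (h3 _ _ hh).elim
    | exact (h3 _ _ hh.symm).elim
    | exact ((h4 _).1.1 hh).elim
    | exact ((h4 _).1.2 hh).elim
    | exact ((h4 _).2.1 hh).elim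
    | exact ((h4 _).2.2 hh).elim
    | exact ((h4 _).1.1 hh.symm).elim
    | exact ((h4 _).1.2 hh.symm).elim
    | exact ((h4 _).2.1 hh.symm).elim
    | exact ((h4 _).2.2 hh.symm).elim
    | exact (zero_ne_one (α := I) hh).elim
    | exact (zero_ne_one (α := I) hh.symm).elim

end GEN1x

open GEN1x in
theorem p_GEN1 (hSEP : S_SEP) :
    S_GEN1 := by
  intro M _ O γ j G hM hO hγ hj hG
  have hW := (hSEP M I _ (e 1 0 j) hM (inj hj) O hO).preimage (cont (γ 1) (γ 0))
  obtain ⟨p, ⟨c, hc, he⟩, hp⟩ := hG.inter_open_nonempty _ hW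
    ⟨(γ.comp j.1, γ.comp j.2), γ, hγ, by
      ext x
      rcases x with ((t | t) | (_ | _)) <;> rfl⟩
  refine ⟨c, hc, DFunLike.congr_fun he (.inr false), DFunLike.congr_fun he (.inr true), ?_⟩
  have h1 : c.comp j.1 = p.1 := ContinuousMap.ext fun t => DFunLike.congr_fun he (.inl (.inl t))
  have h2 : c.comp j.2 = p.2 := ContinuousMap.ext fun t => DFunLike.congr_fun he (.inl (.inr t))
  rw [h1, h2]
  exact hp

end Pool.Agent.P.MP_3ae97d_gt.HM

end partGEN1

section partGEN0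

/-! Step GEN0. -/

set_option autoImplicit false
set_option linter.unusedSectionVars false

namespace Pool.Agent.P.MP_3ae97d_gt.HM

open Set Filter Topology Metric Function unitInterval

theorem p_GEN0 (hGEN1 : S_GEN1) :
    S_GEN0 := by
  intro M _ 𝒪 γ 𝒥 𝒢 hM hO hγ hJ hI hG hD
  have hP : IsClosed {c : C(I, M) | c 0 = γ 0 ∧ c 1 = γ 1} :=
    (isClosed_eq (continuous_eval_const 0) continuous_const).inter
      (isClosed_eq (continuous_eval_const 1) continuous_const)
  have := hM.baire_closed hP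
  have h := dense_biInter_of_isOpen (S := 𝒥 ×ˢ 𝒢)
    (f := fun q => {c : {c : C(I, M) | c 0 = γ 0 ∧ c 1 = γ 1} |
      (c.1.comp q.1.1, c.1.comp q.1.2) ∈ q.2})
    (fun q hq => (hD _ hq.2).1.preimage
      (((ContinuousMap.continuous_precomp _).comp continuous_subtype_val).prodMk
        ((ContinuousMap.continuous_precomp _).comp continuous_subtype_val))) (hJ.prod hG)
    fun q hq => dense_iff_inter_open.2 fun U hU ⟨c, hc⟩ => by
      obtain ⟨V, hV, rfl⟩ := isOpen_induced_iff.1 hU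
      obtain ⟨d, h1, h2, h3, h4⟩ := hGEN1 M V c.1 q.1 q.2 hM hV hc (hI _ hq.1) (hD _ hq.2).2
      exact ⟨⟨d, h2.trans c.2.1, h3.trans c.2.2⟩, h1, h4⟩
  obtain ⟨c, h1, h2⟩ := h.inter_open_nonempty _ (hO.preimage continuous_subtype_val)
    ⟨⟨γ, rfl, rfl⟩, hγ⟩
  exact ⟨c, h1, c.2.1, c.2.2, fun j hj G hG => mem_iInter₂.1 h2 (j, G) ⟨hj, hG⟩⟩

end Pool.Agent.P.MP_3ae97d_gt.HM

end partGEN0

section partGEN

/-! Step GEN. -/

set_option autoImplicit false
set_option linter.unusedSectionVars false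

namespace Pool.Agent.P.MP_3ae97d_gt.HM

open Set Filter Topology Metric Function unitInterval

namespace GENx

theorem other (t : I) : ∃ s : I, In s ∧ t ≠ s := by
  have k : ∀ (r : ℝ) (h : r ∈ I), r ≠ 0 → r ≠ 1 → In ⟨r, h⟩ := fun r h a b =>
    ⟨fun e => a (congrArg Subtype.val e), fun e => b (congrArg Subtype.val e)⟩
  by_cases h : (t : ℝ) = 1 / 2
  · refine ⟨⟨1 / 3, by norm_num, by norm_num⟩, k _ _ (by norm_num) (by norm_num), fun e => ?_⟩
    rw [e] at h
    norm_num at h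
  · exact ⟨⟨1 / 2, by norm_num, by norm_num⟩, k _ _ (by norm_num) (by norm_num),
      fun e => h (congrArg Subtype.val e)⟩

end GENx

theorem p_GEN (hINT : S_INT) (hGEN0 : S_GEN0) (hZI : S_ZI) (hZPT : S_ZPT) (hZUN : S_ZUN) :
    S_GEN := by
  intro M _ 𝒪 γ 𝒮 Φ hE hD hO hγ hS hSz hΦ
  obtain ⟨𝒥, hJc, hJ, hJ2⟩ := hINT
  obtain ⟨z1, z2, z3⟩ := hZI M
  have := hE.second
  let G1 : Set M → Set (C(I, M) × C(I, M)) := fun S =>
    {b : C(I, M) | Disjoint (range b) S} ×ˢ univ
  let G2 : (M ≃ₜ M) → Set (C(I, M) × C(I, M)) := fun φ => {b | ∀ s t, b.1 s ≠ φ (b.2 t)}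
  let G3 : Set C(Sq, M) → Set (C(I, M) × C(I, M)) := fun N =>
    {b : C(I, M) | ∃ a ∈ N, Disjoint (range a) (range b)} ×ˢ univ
  have hB := TopologicalSpace.isBasis_countableBasis C(Sq, M)
  obtain ⟨c, hc, h0, h1, hG⟩ := hGEN0 M 𝒪 γ 𝒥
    (G1 '' 𝒮 ∪ G2 '' Φ ∪ G3 '' TopologicalSpace.countableBasis C(Sq, M)) hE hO hγ hJc hJ
    (((hS.image _).union (hΦ.image _)).union
      ((TopologicalSpace.countable_countableBasis _).image _)) (by
      rintro _ ((⟨S, h, rfl⟩ | ⟨φ, -, rfl⟩) | ⟨N, h, rfl⟩)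
      · exact ⟨(isOpen_miss (hSz S h).1).prod isOpen_univ, (z1 S (hSz S h).2).prod dense_univ⟩
      · exact z2 hD φ
      · have k := z3 hD N (hB.isOpen h) (TopologicalSpace.nonempty_of_mem_countableBasis h)
        exact ⟨k.1.prod isOpen_univ, k.2.prod dense_univ⟩)
  have hin : ∀ t, In t → ∃ j ∈ 𝒥, t ∈ range j.1 := fun t ht => by
    obtain ⟨s, hs, e⟩ := GENx.other t
    obtain ⟨j, hj, a, -⟩ := hJ2 t s ht hs e
    exact ⟨j, hj, a⟩
  refine ⟨c, hc, h0, h1, fun S h t ht => ?_, fun φ h s t hs ht e => ?_, ?_⟩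
  · obtain ⟨j, hj, u, rfl⟩ := hin t ht
    exact disjoint_left.1 (hG j hj (G1 S) (.inl (.inl ⟨S, h, rfl⟩))).1 ⟨u, rfl⟩
  · obtain ⟨j, hj, ⟨u, rfl⟩, v, rfl⟩ := hJ2 s t hs ht e
    exact hG j hj (G2 φ) (.inl (.inr ⟨φ, h, rfl⟩)) u v
  · refine (hZUN M ({{c 0}, {c 1}} ∪ (fun j : C(I, I) × C(I, I) => range (c.comp j.1)) '' 𝒥) hE
      ((toFinite _).countable.union (hJc.image _)) ?_).mono ?_
    · rintro _ ((rfl | rfl) | ⟨j, hj, rfl⟩)
      · exact ⟨isClosed_singleton, (hZPT M hD).1 _⟩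
      · exact ⟨isClosed_singleton, (hZPT M hD).1 _⟩
      · refine ⟨(isCompact_range (c.comp j.1).continuous).isClosed, hB.dense_iff.2 fun N h _ => ?_⟩
        obtain ⟨a, ha, k⟩ := (hG j hj (G3 N) (.inr ⟨N, h, rfl⟩)).1
        exact ⟨a, ha, k⟩
    · rintro _ ⟨t, rfl⟩
      by_cases a : t = 0
      · exact ⟨{c 0}, .inl (.inl rfl), by rw [a]; rfl⟩
      by_cases b : t = 1
      · exact ⟨{c 1}, .inl (.inr rfl), by rw [b]; rfl⟩
      obtain ⟨j, hj, u, rfl⟩ := hin t ⟨a, b⟩
      exact ⟨_, .inr ⟨j, hj, rfl⟩, u, rfl⟩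

end Pool.Agent.P.MP_3ae97d_gt.HM

end partGEN

section partARC

/-! Step ARC. -/

set_option autoImplicit false
set_option linter.unusedSectionVars false

namespace Pool.Agent.P.MP_3ae97d_gt.HM

open Set Filter Topology Metric Function unitInterval

theorem p_ARC (hGEN : S_GEN) (hZPT : S_ZPT) :
    S_ARC := by
  intro M _ W B Q 𝒮 a b hE hD hW hWc hB hBW hQ h𝒮 hS ha hb hab
  obtain ⟨m, hmB, hmW⟩ := hBW
  obtain ⟨p1, hp1⟩ := hE.joined hW hWc ha hmW
  obtain ⟨p2, hp2⟩ := hE.joined hW hWc hmW hb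
  set γ : C(I, M) := (p1.trans p2).toContinuousMap with hγ
  have hr : range γ = range p1 ∪ range p2 := Path.trans_range p1 p2
  have hγW : ∀ t, γ t ∈ W := fun t => by
    have : γ t ∈ range p1 ∪ range p2 := hr ▸ mem_range_self t
    rcases this with ⟨s, hs⟩ | ⟨s, hs⟩
    · exact hs ▸ hp1 s
    · exact hs ▸ hp2 s
  obtain ⟨t₀, ht₀⟩ : m ∈ range γ := hr ▸ Or.inl ⟨1, p1.target⟩
  have hO : IsOpen ({c : C(I, M) | ∀ t, c t ∈ W} ∩ {c : C(I, M) | c t₀ ∈ B}) :=
    (isOpen_into hW).inter (hB.preimage (continuous_eval_const t₀))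
  have hQ' : (Q ∪ {a, b}).Countable := hQ.union (Set.toFinite _).countable
  obtain ⟨c, ⟨hcW, hcB⟩, h0, h1, hm, hi, hz⟩ := hGEN M _ γ
    (𝒮 ∪ (fun x => ({x} : Set M)) '' (Q ∪ {a, b})) {Homeomorph.refl M} hE hD hO
    ⟨hγW, by show γ t₀ ∈ B; rw [ht₀]; exact hmB⟩ (h𝒮.union (hQ'.image _))
    (by
      rintro S (h | ⟨x, -, rfl⟩)
      · exact hS S h
      · exact ⟨isClosed_singleton, (hZPT M hD).1 x⟩)
    (countable_singleton _)
  have c0 : c 0 = a := h0.trans (p1.trans p2).source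
  have c1 : c 1 = b := h1.trans (p1.trans p2).target
  have hpt : ∀ t, In t → ∀ x ∈ Q ∪ {a, b}, c t ≠ x := fun t ht x hx e =>
    hm {x} (Or.inr ⟨x, hx, rfl⟩) t ht e
  have hend : ∀ t, ¬ In t → t = 0 ∨ t = 1 := fun t ht => by
    by_contra h
    push Not at h
    exact ht h
  have hval : ∀ t, ¬ In t → c t ∈ Q ∪ {a, b} := fun t ht => by
    rcases hend t ht with rfl | rfl
    · exact Or.inr (Or.inl c0)
    · exact Or.inr (Or.inr c1)
  refine ⟨c, fun s t e => ?_, c0, c1, range_subset_iff.2 hcW, ⟨t₀, hcB⟩,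
    fun t ht => ⟨fun h => hpt t ht _ (Or.inl h) rfl, fun S h => hm S (Or.inl h) t ht⟩, hz⟩
  by_cases hs : In s <;> by_cases ht : In t
  · by_contra h
    exact hi _ rfl s t hs ht h e
  · exact absurd e (hpt s hs _ (hval t ht))
  · exact absurd e.symm (hpt t ht _ (hval s hs))
  · rcases hend s hs with rfl | rfl <;> rcases hend t ht with rfl | rfl
    · rfl
    · exact absurd (c0.symm.trans (e.trans c1)) hab
    · exact absurd (c0.symm.trans (e.symm.trans c1)) hab
    · rfl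

end Pool.Agent.P.MP_3ae97d_gt.HM

end partARC

section partBES

/-! Step BES. -/

set_option autoImplicit false
set_option linter.unusedSectionVars false

namespace Pool.Agent.P.MP_3ae97d_gt.HM

open Set Filter Topology Metric Function unitInterval

theorem p_BES :
    S_BES := by
  intro E _ _ _
  obtain ⟨N, τ, hτ, hN⟩ := HasBesicovitchCovering.no_satelliteConfig (α := E)
  refine ⟨N, fun ι x r hr => ?_⟩
  let q : Besicovitch.BallPackage ι E :=
    { c := x
      r := r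
      rpos := fun i => (hr i).1
      r_bound := 1
      r_le := fun i => (hr i).2 }
  obtain ⟨s, hs, hs'⟩ := Besicovitch.exist_disjoint_covering_families hτ hN q
  refine ⟨s, hs, fun i => ?_⟩
  have hi : x i ∈ range q.c := ⟨i, rfl⟩
  have h2 := hs' hi
  simp only [mem_iUnion] at h2
  obtain ⟨l, k, hk, hik⟩ := h2
  exact ⟨l, k, hk, hik⟩

end Pool.Agent.P.MP_3ae97d_gt.HM

end partBES

section partCOLD

/-! Step COLD. -/

set_option autoImplicit false
set_option linter.unusedSectionVars false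

namespace Pool.Agent.P.MP_3ae97d_gt.HM

open Set Filter Topology Metric Function unitInterval

theorem p_COLD (hBES : S_BES) :
    S_COLD := by
  classical
  obtain ⟨N, hN⟩ := hBES (ℝ × ℝ)
  refine ⟨N, fun ρ h0 h1 => ?_⟩
  let x : Sq → ℝ × ℝ := fun t => (t.1, t.2)
  have hx : ∀ a b : Sq, dist (x a) (x b) = dist a b := fun _ _ => rfl
  obtain ⟨s, hs, hc⟩ := hN Sq x (fun _ => ρ) fun _ => ⟨h0, h1⟩
  obtain ⟨T, hT⟩ := (isCompact_univ (X := Sq)).elim_finite_subcover
    (fun k : {k : Sq // ∃ l, k ∈ s l} => ball k.1 ρ) (fun _ => isOpen_ball) fun t _ => by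
      obtain ⟨l, k, hk, ht⟩ := hc t
      exact mem_iUnion.2 ⟨⟨k, l, hk⟩, (hx t k).symm.trans_lt ht⟩
  refine ⟨fun l => (T.image Subtype.val).filter (· ∈ s l), fun l a ha b hb hab => ?_, fun t => ?_⟩
  · have := hs l (Finset.mem_filter.1 ha).2 (Finset.mem_filter.1 hb).2 hab
    exact disjoint_left.2 fun t h h' => disjoint_left.1 this ((hx t a).trans_le h)
      ((hx t b).trans_le h')
  · obtain ⟨k, hk, ht⟩ := mem_iUnion₂.1 (hT (mem_univ t))
    obtain ⟨l, hl⟩ := k.2
    exact ⟨l, k.1, Finset.mem_filter.2 ⟨Finset.mem_image_of_mem _ hk, hl⟩, ball_subset_closedBall ht⟩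

end Pool.Agent.P.MP_3ae97d_gt.HM

end partCOLD

section partLIFT1

/-! Step LIFT1. -/

set_option autoImplicit false
set_option linter.unusedSectionVars false

namespace Pool.Agent.P.MP_3ae97d_gt.HM

open Set Filter Topology Metric Function unitInterval

theorem p_LIFT1 :
    S_LIFT1 := by
  classical
  intro U Y _ _ f α hUV ε hε
  choose V V1 V2 V3 using fun y : Y => hUV y (ball y (ε / 4)) isOpen_ball
    (mem_ball_self (by positivity))
  obtain ⟨d, hd, hL⟩ := lebesgue_number_lemma_of_metric (c := fun y => V y ∩ ball y (ε / 4))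
    (isCompact_range α.continuous) (fun y => (V1 y).inter isOpen_ball)
    fun y _ => mem_iUnion.2 ⟨y, V2 y, mem_ball_self (by positivity)⟩
  have hE : ∀ x, Ext (f ⁻¹' ball (α x) d) (f ⁻¹' ball (α x) (ε / 2)) := fun x => by
    obtain ⟨y, hy⟩ := hL _ (mem_range_self x)
    refine (V3 y).mono (preimage_mono fun z hz => (hy hz).1) (preimage_mono (ball_subset ?_))
    have := mem_ball'.1 (hy (mem_ball_self hd)).2
    linarith
  obtain ⟨r, hr, hu⟩ := Metric.uniformContinuous_iff_le.1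
    (CompactSpace.uniformContinuous_of_continuous α.continuous) (min (d / 2) (ε / 4))
    (by positivity)
  refine ⟨min (d / 2) ε, by positivity, r, hr, fun T s ρ hρ hT hs ⟨a, a1, a2⟩ => ?_⟩
  suffices h : ∃ b : Sq → U, ContinuousOn b (T ∪ ⋃ x ∈ s, closedBall x ρ) ∧ EqOn b a T ∧
      ∀ t ∈ T ∪ ⋃ x ∈ s, closedBall x ρ, dist (f (b t)) (α t) < ε from h.imp fun _ h => ⟨h.1, h.2.2⟩
  induction s using Finset.induction_on with
  | empty => exact ⟨a, by simpa using a1, fun _ _ => rfl, by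
      simpa using fun p q h => (a2 (p, q) h).trans_le (min_le_right _ _)⟩
  | insert x s hx ih =>
    rw [Finset.coe_insert] at hs
    obtain ⟨b, b1, b2, b3⟩ := ih (hs.subset (subset_insert _ _))
    have hd' : ∀ t ∈ closedBall x ρ, dist (α t) (α x) ≤ min (d / 2) (ε / 4) :=
      fun t ht => hu ((mem_closedBall.1 ht).trans hρ)
    obtain ⟨c, c1, c2⟩ := hE x (T ∩ closedBall x ρ) a (hT.inter isClosed_closedBall)
      (a1.mono inter_subset_left) fun t ht => by
        have h1 := (a2 t ht.1).trans_le (min_le_left _ _)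
        have h2 := (hd' t ht.2).trans (min_le_left _ _)
        have h3 := dist_triangle (f (a t)) (α t) (α x)
        exact mem_ball.2 (by linarith)
    have e : EqOn ((closedBall x ρ).piecewise c b) b (T ∪ ⋃ y ∈ s, closedBall y ρ) := fun t ht => by
      by_cases h : t ∈ closedBall x ρ
      · rw [piecewise_eq_of_mem _ _ _ h]
        rcases ht with ht | ht
        · rw [c1 ⟨ht, h⟩, b2 ht]
        · obtain ⟨y, hy, h'⟩ := mem_iUnion₂.1 ht
          exact absurd h' (disjoint_left.1 (hs (mem_insert _ _) (mem_insert_of_mem _ hy)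
            fun e => hx (e ▸ hy)) h)
      · exact piecewise_eq_of_notMem _ _ _ h
    rw [Finset.set_biUnion_insert, union_left_comm]
    refine ⟨(closedBall x ρ).piecewise c b, ContinuousOn.union_of_isClosed
      (c.continuous.continuousOn.congr (piecewise_eqOn _ _ _)) (b1.congr e) isClosed_closedBall
      (hT.union (isClosed_biUnion_finset fun _ _ => isClosed_closedBall)),
      fun t ht => (e (Or.inl ht)).trans (b2 ht), fun t ht => ht.elim (fun h => ?_) fun h => ?_⟩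
    · rw [piecewise_eq_of_mem _ _ _ h]
      have h1 := mem_ball.1 (c2 t)
      have h2 := (hd' t h).trans (min_le_right _ _)
      have h3 := dist_triangle_right (f (c t)) (α t) (α x)
      linarith
    · rw [e h]
      exact b3 t h

end Pool.Agent.P.MP_3ae97d_gt.HM

end partLIFT1

section partLIFT

/-! Step LIFT. -/

set_option autoImplicit false
set_option linter.unusedSectionVars false

namespace Pool.Agent.P.MP_3ae97d_gt.HM

open Set Filter Topology Metric Function unitInterval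

namespace LIFTx

theorem key (hL : S_LIFT1) {U Y : Type} [TopologicalSpace U] [MetricSpace Y] (f : C(U, Y))
    (α : C(Sq, Y)) (u : U) (hf : UV f) (n : ℕ) : ∀ ε > 0, ∃ ρ₀ > 0, ∀ ρ ≤ ρ₀,
      ∀ s : Fin n → Finset Sq, (∀ l, (s l : Set Sq).PairwiseDisjoint fun x => closedBall x ρ) →
      LF f α (⋃ l, ⋃ x ∈ s l, closedBall x ρ) ε := by
  induction n with
  | zero => exact fun ε _ => ⟨1, one_pos, fun ρ _ s _ => ⟨fun _ => u, continuousOn_const, by simp⟩⟩
  | succ n ih =>
    intro ε hε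
    obtain ⟨δ, hδ, ρ₁, h1, H⟩ := hL U Y f α hf ε hε
    obtain ⟨ρ₂, h2, H'⟩ := ih δ hδ
    refine ⟨min ρ₁ ρ₂, lt_min h1 h2, fun ρ hρ s hs => ?_⟩
    rw [iUnion_fin_add_one_eq_iUnion_succ, union_comm]
    exact H _ (s 0) ρ (hρ.trans (min_le_left _ _))
      (isClosed_iUnion_of_finite fun l => isClosed_biUnion_finset fun _ _ => isClosed_closedBall)
      (hs 0) (H' ρ (hρ.trans (min_le_right _ _)) (fun l => s l.succ) fun l => hs _)

end LIFTx

theorem p_LIFT (hCOLD : S_COLD) (hLIFT1 : S_LIFT1) :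
    S_LIFT := by
  intro U Y _ _ f hs hf
  rw [Metric.denseRange_iff]
  intro α ε hε
  obtain ⟨u, -⟩ := hs (α (0, 0))
  obtain ⟨N, hN⟩ := hCOLD
  obtain ⟨ρ₀, h0, H⟩ := LIFTx.key hLIFT1 f α u hf N ε hε
  obtain ⟨s, h1, h2⟩ := hN (min ρ₀ 1) (lt_min h0 one_pos) (min_le_right _ _)
  obtain ⟨a, ha, h3⟩ := H _ (min_le_left _ _) s h1
  have e : (⋃ l, ⋃ x ∈ s l, closedBall x (min ρ₀ 1)) = univ :=
    eq_univ_of_forall fun t => by simpa only [mem_iUnion, exists_prop] using h2 t
  rw [e] at ha h3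
  refine ⟨⟨a, continuousOn_univ.1 ha⟩, (ContinuousMap.dist_lt_iff hε).2 fun t => ?_⟩
  rw [dist_comm]
  exact h3 t trivial

end Pool.Agent.P.MP_3ae97d_gt.HM

end partLIFT

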