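import Pool.Agent.P.MP_3ae97d_gt.HM.Iface

section partQUO

/-! Step QUO. -/

set_option autoImplicit false
set_option linter.unusedSectionVars false

namespace Pool.Agent.P.MP_3ae97d_gt.HM

open Set Filter Topology Metric Function unitInterval

namespace QUOx

/-- The equivalence relation that collapses the sets. -/
def st {U ι : Type} (A : ι → Set U) (hd : Pairwise (Disjoint on A)) : Setoid U where
  r x y := x = y ∨ ∃ i, x ∈ A i ∧ y ∈ A i
  iseqv :=
    { refl := fun _ => Or.inl rfl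
      symm := fun h => h.elim (fun e => Or.inl e.symm) fun ⟨i, a, b⟩ => Or.inr ⟨i, b, a⟩
      trans := by
        rintro x y z (rfl | ⟨i, a, b⟩) (rfl | ⟨j, c, d⟩)
        · exact Or.inl rfl
        · exact Or.inr ⟨j, c, d⟩
        · exact Or.inr ⟨i, a, b⟩
        · by_cases e : i = j
          · subst e
            exact Or.inr ⟨i, a, d⟩
          · exact absurd c (disjoint_left.1 (hd e) b) }

theorem sat_closed {U ι : Type} [MetricSpace U] (A : ι → Set U) (hc : ∀ i, IsCompact (A i))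
    (hn : Null A) (C : Set U) (hC : IsClosed C) :
    IsClosed {x | ∃ c ∈ C, c = x ∨ ∃ i, c ∈ A i ∧ x ∈ A i} := by
  rw [← isOpen_compl_iff, isOpen_iff_mem_nhds]
  intro x hx
  have hxC : x ∉ C := fun h => hx ⟨x, h, Or.inl rfl⟩
  obtain ⟨d, hd, hb⟩ := Metric.isOpen_iff.1 hC.isOpen_compl x hxC
  have hf := hn (d / 2) (by positivity)
  have h1 : ∀ᶠ y in 𝓝 x, ∀ i ∈ {i | ∃ x ∈ A i, ∃ y ∈ A i, d / 2 ≤ dist x y},
      (∃ c ∈ C, c ∈ A i) → y ∉ A i := by
    rw [eventually_all_finite hf]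
    intro i _
    by_cases h : ∃ c ∈ C, c ∈ A i
    · obtain ⟨c, hc1, hc2⟩ := h
      have : x ∉ A i := fun a => hx ⟨c, hc1, Or.inr ⟨i, hc2, a⟩⟩
      filter_upwards [(hc i).isClosed.isOpen_compl.mem_nhds this] with y hy _ using hy
    · exact Eventually.of_forall fun y a => absurd a h
  filter_upwards [h1, ball_mem_nhds x (by positivity : 0 < d / 2)] with y hy hyb
  rintro ⟨c, hc1, rfl | ⟨i, a, b⟩⟩
  · exact hb (ball_subset_ball (by linarith) hyb) hc1
  · refine hy i ⟨c, a, y, b, ?_⟩ ⟨c, hc1, a⟩ b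
    have e1 : d ≤ dist c x := not_lt.1 fun h => hb h hc1
    have e2 : dist y x < d / 2 := hyb
    have e3 := dist_triangle c y x
    linarith

end QUOx

theorem p_QUO :
    S_QUO := by
  intro U ι _ A hc hd hn
  let s := QUOx.st A hd
  have key : ∀ x y : U, (Quotient.mk s x = Quotient.mk s y) ↔ x = y ∨ ∃ i, x ∈ A i ∧ y ∈ A i :=
    fun x y => Quotient.eq
  refine ⟨Quotient s, inferInstance, Quotient.mk s, ?_, Quotient.mk_surjective, key⟩
  rw [isProperMap_iff_isClosedMap_and_compact_fibers]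
  refine ⟨continuous_quotient_mk', fun C hC => ?_, fun y => ?_⟩
  · rw [← (isQuotientMap_quotient_mk' (s := s)).isClosed_preimage]
    have e : (Quotient.mk' : U → Quotient s) ⁻¹' (Quotient.mk s '' C) =
        {x | ∃ c ∈ C, c = x ∨ ∃ i, c ∈ A i ∧ x ∈ A i} := by
      ext x
      exact exists_congr fun c => and_congr_right fun _ => key c x
    rw [e]
    exact QUOx.sat_closed A hc hn C hC
  · obtain ⟨x, rfl⟩ := Quotient.mk_surjective y
    by_cases h : ∃ i, x ∈ A i
    · obtain ⟨i, hi⟩ := h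
      have e : Quotient.mk s ⁻¹' {Quotient.mk s x} = A i := by
        ext z
        refine (key z x).trans ⟨?_, fun a => Or.inr ⟨i, a, hi⟩⟩
        rintro (rfl | ⟨j, a, b⟩)
        · exact hi
        · by_cases e : j = i
          · exact e ▸ a
          · exact absurd hi (disjoint_left.1 (hd e) b)
      rw [e]
      exact hc i
    · have e : Quotient.mk s ⁻¹' {Quotient.mk s x} = {x} := by
        ext z
        exact (key z x).trans ⟨fun a => a.elim id fun ⟨j, _, b⟩ => absurd ⟨j, b⟩ h, Or.inl⟩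
      rw [e]
      exact isCompact_singleton

end Pool.Agent.P.MP_3ae97d_gt.HM

end partQUO

section partPERF

/-! Step PERF. -/

set_option autoImplicit false
set_option linter.unusedSectionVars false

namespace Pool.Agent.P.MP_3ae97d_gt.HM

open Set Filter Topology Metric Function unitInterval

namespace PERFx

variable {U Y : Type} [TopologicalSpace U] [TopologicalSpace Y] {f : U → Y}

theorem mem_kern {W : Set U} {y : Y} : y ∈ kernImage f W ↔ f ⁻¹' {y} ⊆ W := by
  constructor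
  · intro h x hx
    exact h hx
  · intro h x hx
    exact h hx

theorem open_kern (hf : IsProperMap f) {W : Set U} (hW : IsOpen W) : IsOpen (kernImage f W) :=
  isClosedMap_iff_kernImage.1 hf.isClosedMap hW

theorem t1 [T1Space U] (hf : IsProperMap f) (hs : Surjective f) : T1Space Y := by
  refine ⟨fun y => ?_⟩
  obtain ⟨x, rfl⟩ := hs y
  rw [← image_singleton]
  exact hf.isClosedMap _ isClosed_singleton

theorem normal [NormalSpace U] (hf : IsProperMap f) (hs : Surjective f) : NormalSpace Y := by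
  refine ⟨fun s t hsc htc hd => ?_⟩
  obtain ⟨A, B, hA, hB, hsA, htB, hAB⟩ := normal_separation (hsc.preimage hf.continuous)
    (htc.preimage hf.continuous) (hd.preimage f)
  refine ⟨kernImage f A, kernImage f B, open_kern hf hA, open_kern hf hB, ?_, ?_, ?_⟩
  · intro y hy
    refine mem_kern.2 fun x hx => hsA ?_
    have hx' : f x = y := hx
    show f x ∈ s
    rw [hx']; exact hy
  · intro y hy
    refine mem_kern.2 fun x hx => htB ?_
    have hx' : f x = y := hx
    show f x ∈ t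
    rw [hx']; exact hy
  · rw [Set.disjoint_left]
    intro y hyA hyB
    obtain ⟨x, rfl⟩ := hs y
    exact Set.disjoint_left.1 hAB (mem_kern.1 hyA rfl) (mem_kern.1 hyB rfl)

theorem second [SecondCountableTopology U] (hf : IsProperMap f) (hs : Surjective f) :
    SecondCountableTopology Y := by
  obtain ⟨b, hbc, -, hb⟩ := TopologicalSpace.exists_countable_basis U
  have hbasis : TopologicalSpace.IsTopologicalBasis
      ((fun t : Set (Set U) => kernImage f (⋃₀ t)) '' {t | t.Finite ∧ t ⊆ b}) := by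
    refine TopologicalSpace.isTopologicalBasis_of_isOpen_of_nhds ?_ ?_
    · rintro _ ⟨t, ⟨-, htb⟩, rfl⟩
      exact open_kern hf (isOpen_sUnion fun u hu => hb.isOpen (htb hu))
    · intro y O hyO hO
      have hK : IsCompact (f ⁻¹' {y}) := hf.isCompact_preimage isCompact_singleton
      have hcov : f ⁻¹' {y} ⊆ ⋃ u ∈ {u | u ∈ b ∧ u ⊆ f ⁻¹' O}, id u := by
        intro x hx
        have hx' : f x = y := hx
        have hxO : x ∈ f ⁻¹' O := by
          show f x ∈ O
          rw [hx']; exact hyO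
        obtain ⟨u, hub, hxu, huO⟩ := hb.exists_subset_of_mem_open hxO (hO.preimage hf.continuous)
        exact mem_biUnion (show u ∈ {u | u ∈ b ∧ u ⊆ f ⁻¹' O} from ⟨hub, huO⟩) hxu
      obtain ⟨t, htb, htf, hKt⟩ := hK.elim_finite_subcover_image
        (fun u hu => hb.isOpen hu.1) hcov
      refine ⟨kernImage f (⋃₀ t), ⟨t, ⟨htf, fun u hu => (htb hu).1⟩, rfl⟩, ?_, ?_⟩
      · refine mem_kern.2 fun x hx => ?_
        obtain ⟨u, hu, hxu⟩ := mem_iUnion₂.1 (hKt hx)
        exact ⟨u, hu, hxu⟩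
      · intro z hz
        obtain ⟨x, rfl⟩ := hs z
        obtain ⟨u, hu, hxu⟩ := mem_kern.1 hz (show x ∈ f ⁻¹' {f x} from rfl)
        exact (htb hu).2 hxu
  exact hbasis.secondCountableTopology ((countable_ofPred_finite_subset hbc).image _)

theorem weak [WeaklyLocallyCompactSpace U] (hf : IsProperMap f) (hs : Surjective f) :
    WeaklyLocallyCompactSpace Y := by
  refine ⟨fun y => ?_⟩
  have hK : IsCompact (f ⁻¹' {y}) := hf.isCompact_preimage isCompact_singleton
  obtain ⟨K, hKc, hsub⟩ := exists_compact_superset hK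
  refine ⟨f '' K, hKc.image hf.continuous, ?_⟩
  refine mem_of_superset ((open_kern hf isOpen_interior).mem_nhds (mem_kern.2 hsub)) ?_
  intro z hz
  obtain ⟨x, rfl⟩ := hs z
  exact ⟨x, interior_subset (mem_kern.1 hz (show x ∈ f ⁻¹' {f x} from rfl)), rfl⟩

end PERFx

theorem p_PERF :
    S_PERF := by
  intro U Y _ _ _ _ f hf hs
  have : T1Space Y := PERFx.t1 hf hs
  have : NormalSpace Y := PERFx.normal hf hs
  have : T4Space Y := {}
  have : SecondCountableTopology Y := PERFx.second hf hs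
  have : WeaklyLocallyCompactSpace Y := PERFx.weak hf hs
  exact ⟨inferInstance, inferInstance, inferInstance⟩

end Pool.Agent.P.MP_3ae97d_gt.HM

end partPERF

section partFD0

/-! Step FD0. -/

set_option autoImplicit false
set_option linter.unusedSectionVars false

namespace Pool.Agent.P.MP_3ae97d_gt.HM

open Set Filter Topology Metric Function unitInterval

theorem p_FD0 :
    S_FD0 := by
  classical
  intro Y _ P 𝒰 hP hU hc
  rcases P.eq_empty_or_nonempty with rfl | hne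
  · exact ⟨∅, fun _ h => h.elim, empty_subset _, pairwiseDisjoint_empty⟩
  obtain ⟨y, rfl⟩ := hP.exists_eq_range hne
  have key : ∀ n, ∃ r > 0, (∃ U ∈ 𝒰, ball (y n) r ⊆ U) ∧ ∀ m, dist (y m) (y n) ≠ r := by
    intro n
    obtain ⟨U, h1, h2⟩ := mem_sUnion.1 (hc.ge (mem_univ (y n)))
    obtain ⟨ε, hε, h3⟩ := Metric.isOpen_iff.1 (hU U h1) _ h2
    obtain ⟨r, h4, h5⟩ := ((countable_range fun m => dist (y m) (y n)).dense_compl ℝ).inter_open_nonempty
      (Ioo 0 ε) isOpen_Ioo (nonempty_Ioo.2 hε)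
    exact ⟨r, h4.1, ⟨U, h1, (ball_subset_ball h4.2.le).trans h3⟩, fun m e => h5 ⟨m, e⟩⟩
  choose r r0 hr hd using key
  let O : ℕ → Set Y := fun n => ball (y n) (r n) \ ⋃ j ∈ Iio n, closedBall (y j) (r j)
  have hO : ∀ i j, i < j → Disjoint (O i) (O j) := fun i j h => disjoint_left.2 fun x a b =>
    b.2 (mem_biUnion h (ball_subset_closedBall a.1))
  refine ⟨range O, ?_, ?_, ?_⟩
  · rintro _ ⟨n, rfl⟩
    exact ⟨isOpen_ball.sdiff ((finite_Iio n).isClosed_biUnion fun _ _ => isClosed_closedBall),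
      (hr n).imp fun U h => ⟨h.1, diff_subset.trans h.2⟩⟩
  · rintro _ ⟨m, rfl⟩
    have h : ∃ n, y m ∈ ball (y n) (r n) := ⟨m, mem_ball_self (r0 m)⟩
    refine ⟨_, ⟨Nat.find h, rfl⟩, Nat.find_spec h, fun a => ?_⟩
    obtain ⟨j, h1, h2⟩ := mem_iUnion₂.1 a
    exact Nat.find_min h h1 (lt_of_le_of_ne h2 (hd j m))
  · rintro _ ⟨i, rfl⟩ _ ⟨j, rfl⟩ h
    rcases lt_trichotomy i j with e | rfl | e
    exacts [hO i j e, absurd rfl h, (hO j i e).symm]

end Pool.Agent.P.MP_3ae97d_gt.HM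

end partFD0

section partFD

/-! Step FD. -/

set_option autoImplicit false
set_option linter.unusedSectionVars false

namespace Pool.Agent.P.MP_3ae97d_gt.HM

open Set Filter Topology Metric Function unitInterval

theorem fd_count {α : Type} (N : ℕ) (A : Option (Fin N) → Set α) (h : ∀ l, (A l).Subsingleton)
    (S : Set α) (hS : S ⊆ ⋃ l, A l) : S.encard ≤ ((N + 1 : ℕ) : ℕ∞) := by
  classical
  choose g hg using fun x : S => mem_iUnion.1 (hS x.2)
  have hi : Injective g := fun x y e => Subtype.ext (h (g x) (hg x) (e ▸ hg y))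
  calc S.encard ≤ (range g).encard := hi.encard_range
    _ ≤ (univ : Set (Option (Fin N))).encard := encard_le_encard (subset_univ _)
    _ = _ := by simp

theorem p_FD (hBES : S_BES) (hFD0 : S_FD0) :
    S_FD := by
  intro U Y _ _ f P hU hf hcl hs hP h1
  rcases isEmpty_or_nonempty U with hE | ⟨⟨x₀⟩⟩
  · have : IsEmpty Y := ⟨fun y => (hs y).elim fun x _ => hE.elim x⟩
    exact ⟨0, fun _ _ _ => ⟨∅, by simp, Subsingleton.elim _ _, fun y => this.elim y⟩⟩
  obtain ⟨m, Nn, i, r, -, hi, -, -, -⟩ := hU.fn x₀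
  obtain ⟨N, hN⟩ := hBES (EuclideanSpace ℝ (Fin m))
  refine ⟨N + 1, fun 𝒰 hU1 hU2 => ?_⟩
  obtain ⟨𝒱, v1, v2, v3⟩ := hFD0 Y P 𝒰 hP hU1 hU2
  have key : ∀ x : U, ∃ ρ : ℝ, (0 < ρ ∧ ρ ≤ 1) ∧ ∃ W ∈ 𝒰, i ⁻¹' ball (i x) ρ ⊆ f ⁻¹' W := by
    intro x
    obtain ⟨W, hW, hx⟩ := mem_sUnion.1 (hU2 ▸ mem_univ (f x))
    have : f ⁻¹' W ∈ 𝓝 x := ((hU1 W hW).preimage hf).mem_nhds hx
    rw [hi.isInducing.nhds_eq_comap] at this
    obtain ⟨t, ht, hsub⟩ := this
    obtain ⟨ρ, hρ, hb⟩ := Metric.mem_nhds_iff.1 ht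
    exact ⟨min ρ 1, ⟨lt_min hρ one_pos, min_le_right _ _⟩, W, hW, fun z hz =>
      hsub (hb (ball_subset_ball (min_le_left _ _) hz))⟩
  choose ρ hρ W hW hsub using key
  obtain ⟨s, s1, s2⟩ := hN U i ρ hρ
  let V : U → Set Y := fun x => (f '' (i ⁻¹' ball (i x) (ρ x))ᶜ)ᶜ
  have hV : ∀ x y, y ∈ V x ↔ ∀ z, f z = y → i z ∈ ball (i x) (ρ x) := fun x y =>
    ⟨fun h z e => by_contra fun c => h ⟨z, c, e⟩, fun h ⟨z, c, e⟩ => c (h z e)⟩
  refine ⟨𝒱 ∪ ⋃ l, V '' s l, ?_, ?_, fun y => ?_⟩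
  · rintro A (hA | hA)
    · exact v1 A hA
    · obtain ⟨l, x, -, rfl⟩ := mem_iUnion.1 hA
      refine ⟨(hcl _ (isOpen_ball.preimage hi.continuous).isClosed_compl).isOpen_compl, W x, hW x,
        fun y hy => ?_⟩
      obtain ⟨z, rfl⟩ := hs y
      exact hsub x ((hV _ _).1 hy z rfl)
  · refine eq_univ_of_forall fun y => ?_
    by_cases hy : y ∈ P
    · obtain ⟨A, hA, h⟩ := v2 hy
      exact ⟨A, Or.inl hA, h⟩
    · obtain ⟨x, hx⟩ := h1 y hy
      obtain ⟨l, k, hk, hb⟩ := s2 x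
      refine ⟨V k, Or.inr (mem_iUnion.2 ⟨l, k, hk, rfl⟩), (hV _ _).2 fun z e => ?_⟩
      have : z ∈ f ⁻¹' {y} := e
      rw [hx] at this
      rwa [this]
  · refine fd_count N (fun o => o.elim {A ∈ 𝒱 | y ∈ A} fun l => {A ∈ V '' s l | y ∈ A}) ?_ _ ?_
    · rintro (_ | l)
      · intro A hA B hB
        by_contra c
        exact disjoint_left.1 (v3 hA.1 hB.1 c) hA.2 hB.2
      · rintro _ ⟨⟨a, ha, rfl⟩, h2⟩ _ ⟨⟨b, hb, rfl⟩, h3⟩
        obtain ⟨z, e⟩ := hs y
        by_cases c : a = b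
        · rw [c]
        · exact (disjoint_left.1 (s1 l ha hb c) (ball_subset_closedBall ((hV _ _).1 h2 z e))
            (ball_subset_closedBall ((hV _ _).1 h3 z e))).elim
    · rintro A ⟨hA | hA, h⟩
      · exact mem_iUnion.2 ⟨none, hA, h⟩
      · obtain ⟨l, hl⟩ := mem_iUnion.1 hA
        exact mem_iUnion.2 ⟨some l, hl, h⟩

end Pool.Agent.P.MP_3ae97d_gt.HM

end partFD

section partDDPY

/-! Step DDPY. -/

set_option autoImplicit false
set_option linter.unusedSectionVars false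

namespace Pool.Agent.P.MP_3ae97d_gt.HM

open Set Filter Topology Metric Function unitInterval

theorem p_DDPY :
    S_DDPY := by
  intro U Y _ _ f Z hD hZ hR hf
  have h1 : Dense ({p : C(Sq, U) × C(Sq, U) | Disjoint (range p.1) (range p.2)} ∩
      ({a : C(Sq, U) | Disjoint (range a) Z} ×ˢ (univ : Set C(Sq, U)))) :=
    Dense.inter_of_isOpen_left hD (Dense.prod hZ dense_univ) isOpen_disj
  have hc : Continuous fun a : C(Sq, U) => f.comp a := ContinuousMap.continuous_postcomp f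
  have h2 := (hR.prodMap hR).dense_image (hc.prodMap hc) h1
  refine h2.mono ?_
  rintro _ ⟨⟨a, b⟩, ⟨hp, ha, -⟩, rfl⟩
  refine Set.disjoint_left.2 ?_
  rintro _ ⟨s, rfl⟩ ⟨t, ht⟩
  rcases hf (a s) (b t) ht.symm with h | h
  · exact Set.disjoint_left.1 hp ⟨s, rfl⟩ ⟨t, h.symm⟩
  · exact Set.disjoint_left.1 ha ⟨s, rfl⟩ h

end Pool.Agent.P.MP_3ae97d_gt.HM

end partDDPY

section partAPP

/-! Step APP. -/

set_option autoImplicit false
set_option linter.unusedSectionVars false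

namespace Pool.Agent.P.MP_3ae97d_gt.HM

open Set Filter Topology Metric Function unitInterval

namespace APPx

theorem fib {U Y ι : Type} [TopologicalSpace U] (c : ι → C(I, U)) (f : U → Y)
    (hd : Pairwise (Disjoint on fun i => range (c i)))
    (hf : ∀ x y, f x = f y ↔ x = y ∨ ∃ i, x ∈ range (c i) ∧ y ∈ range (c i)) (x : U) :
    (∃ i, x ∈ range (c i) ∧ f ⁻¹' {f x} = range (c i)) ∨ f ⁻¹' {f x} = {x} := by
  by_cases h : ∃ i, x ∈ range (c i)
  · obtain ⟨i, hi⟩ := h
    refine Or.inl ⟨i, hi, Set.ext fun z => ?_⟩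
    rw [mem_preimage, mem_singleton_iff, hf]
    refine ⟨?_, fun hz => Or.inr ⟨i, hz, hi⟩⟩
    rintro (rfl | ⟨j, hz, hx⟩)
    · exact hi
    · by_cases e : j = i
      · exact e ▸ hz
      · exact (disjoint_left.1 (hd e) hx hi).elim
  · refine Or.inr (Set.ext fun z => ?_)
    rw [mem_preimage, mem_singleton_iff, hf, mem_singleton_iff]
    exact ⟨fun a => a.elim id fun ⟨j, _, hx⟩ => (h ⟨j, hx⟩).elim, Or.inl⟩

end APPx

theorem p_APP (hQUO : S_QUO) (hPERF : S_PERF) (hFD : S_FD) (hDDPY : S_DDPY) (hLIFT : S_LIFT) (hEXT : S_EXT) (hZUN : S_ZUN) :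
    S_APP := by
  intro U ι _ _ c hG hc hd hN
  obtain ⟨hE, hD, hA⟩ := hG
  obtain ⟨Y, tY, f, hp, hs, hf⟩ := hQUO U ι (fun i => range (c i))
    (fun i => isCompact_range (c i).continuous) hd hN
  have := hE.second
  have := hE.locCompact
  obtain ⟨hm, h2, hl⟩ := hPERF U Y f hp hs
  let mY : MetricSpace Y := TopologicalSpace.metrizableSpaceMetric Y
  have hfib := APPx.fib c f hd hf
  have hcl : IsClosedMap f := hp.isClosedMap
  have harc : ArcMap f := by
    refine ⟨hp, fun y => ?_⟩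
    obtain ⟨x, rfl⟩ := hs y
    rcases hfib x with ⟨i, -, e⟩ | e
    · exact Or.inr ⟨c i, (hc i).1, e⟩
    · exact Or.inl ⟨x, e⟩
  have hfd : FinDim Y := by
    refine hFD U Y f (range fun i => f (c i 0)) hE hp.continuous hcl hs (countable_range _) ?_
    intro y hy
    obtain ⟨x, rfl⟩ := hs y
    rcases hfib x with ⟨i, hx, -⟩ | e
    · exact (hy ⟨i, (hf _ _).2 (Or.inr ⟨i, mem_range_self _, hx⟩)⟩).elim
    · exact ⟨x, e⟩
  have huv : UV f := by
    intro y W hW hy
    obtain ⟨x, rfl⟩ := hs y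
    obtain ⟨γ, hγ, e⟩ : ∃ γ : C(I, U), (Injective γ ∨ ∀ t, γ t = γ 0) ∧
        f ⁻¹' {f x} = range γ := by
      rcases hfib x with ⟨i, -, e⟩ | e
      · exact ⟨c i, Or.inl (hc i).1, e⟩
      · exact ⟨ContinuousMap.const I x, Or.inr fun _ => rfl, by rw [e]; exact range_const.symm⟩
    obtain ⟨V, hV, hr, hx⟩ := hEXT U γ (f ⁻¹' W) hE hγ (hW.preimage hp.continuous)
      (e ▸ preimage_mono (singleton_subset_iff.2 hy))
    refine ⟨(f '' Vᶜ)ᶜ, (hcl _ hV.isClosed_compl).isOpen_compl, ?_, hx.mono ?_ Subset.rfl⟩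
    · rintro ⟨z, hz, ez⟩
      exact hz (hr (e ▸ ez))
    · intro z hz
      by_contra hn
      exact hz ⟨z, hn, rfl⟩
  have hz : Zs (⋃₀ range fun i => range (c i)) := by
    refine hZUN U _ hE (countable_range _) ?_
    rintro S ⟨i, rfl⟩
    exact ⟨(isCompact_range (c i).continuous).isClosed, (hc i).2⟩
  have hdy : DDP Y := by
    refine hDDPY U Y ⟨f, hp.continuous⟩ _ hD hz (hLIFT U Y ⟨f, hp.continuous⟩ hs huv) ?_
    intro x y e
    rcases (hf x y).1 e with h | ⟨i, hx, -⟩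
    · exact Or.inl h
    · exact Or.inr ⟨_, ⟨i, rfl⟩, hx⟩
  exact ⟨Y, mY, f, hp.continuous, hcl, hs,
    hA U Y id f hE hD (Homeomorph.refl U).isLocalHomeomorph hfd hdy harc, hf⟩

end Pool.Agent.P.MP_3ae97d_gt.HM

end partAPP

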