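import Pool.Agent.P.MP_3ae97d_gt.HM.Iface

section partEXI

/-! Step EXI. -/

set_option autoImplicit false
set_option linter.unusedSectionVars false

namespace Pool.Agent.P.MP_3ae97d_gt.HM

open Set Filter Topology Metric Function unitInterval

namespace EXIx

variable {M : Type} [TopologicalSpace M] {U : Set M}

open Classical in
/-- Extension by the identity. -/
noncomputable def ext (k : U → U) (x : M) : M := if h : x ∈ U then (k ⟨x, h⟩ : M) else x

theorem ext_in (k : U → U) (x : U) : ext k x = k x := dif_pos x.2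

theorem ext_out (k : U → U) {x : M} (h : x ∉ U) : ext k x = x := dif_neg h

theorem ext_inv {k l : U → U} (h : ∀ x, l (k x) = x) (x : M) : ext l (ext k x) = x := by
  by_cases hx : x ∈ U
  · rw [ext_in k ⟨x, hx⟩, ext_in, h]
  · rw [ext_out k hx, ext_out l hx]

theorem ext_cont {k : U → U} (hk : Continuous k) (hU : IsOpen U)
    (h : ∀ p, p ∉ U → Tendsto (fun x : U => (k x : M)) (comap (↑) (𝓝 p)) (𝓝 p)) :
    Continuous (ext k) := by
  refine continuous_iff_continuousAt.2 fun p => ?_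
  by_cases hp : p ∈ U
  · have e : ext k ∘ ((↑) : U → M) = fun x => (k x : M) := funext (ext_in k)
    refine (hU.isOpenEmbedding_subtypeVal.continuousAt_iff (x := ⟨p, hp⟩)).1 ?_
    rw [e]
    exact (continuous_subtype_val.comp hk).continuousAt
  · intro W hW
    rw [ext_out k hp] at hW
    obtain ⟨T, hT, hs⟩ := mem_comap.1 (h p hp hW)
    refine mem_map.2 (mem_of_superset (inter_mem hT hW) fun x hx => ?_)
    by_cases hx' : x ∈ U
    · show ext k x ∈ W
      rw [ext_in k ⟨x, hx'⟩]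
      exact hs (show (⟨x, hx'⟩ : U) ∈ (↑) ⁻¹' T from hx.1)
    · show ext k x ∈ W
      rw [ext_out k hx']
      exact hx.2

end EXIx

theorem p_EXI :
    S_EXI := by
  intro M _ U k hU h1 h2
  exact ⟨⟨⟨EXIx.ext k, EXIx.ext k.symm, EXIx.ext_inv k.symm_apply_apply,
    EXIx.ext_inv k.apply_symm_apply⟩, EXIx.ext_cont k.continuous hU h1,
    EXIx.ext_cont k.symm.continuous hU h2⟩, fun _ hz => EXIx.ext_out k hz, EXIx.ext_in k⟩

end Pool.Agent.P.MP_3ae97d_gt.HM

end partEXI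

section partTAP0

/-! Step TAP0. -/

set_option autoImplicit false
set_option linter.unusedSectionVars false

namespace Pool.Agent.P.MP_3ae97d_gt.HM

open Set Filter Topology Metric Function unitInterval

theorem p_TAP0 :
    S_TAP0 := by
  intro M Y _ _ U S f hU hS hSU hf hs hfib
  obtain ⟨O₀, h1, h2, h3⟩ := normal_exists_closure_subset hS hU hSU
  have mem : ∀ (O : Set M) (u : U), f u ∈ (f '' (Subtype.val ⁻¹' O)ᶜ)ᶜ → (u : M) ∈ O :=
    fun O u hu => by_contra fun hc => hu ⟨u, hc, rfl⟩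
  refine ⟨{V | ∃ O : Set M, (O = O₀ ∨ ∃ x ρ, 0 < ρ ∧ ball x ρ ⊆ U ∧ O = ball x (ρ / 4)) ∧
    V = (f '' (Subtype.val ⁻¹' O)ᶜ)ᶜ}, ?_, ?_, fun p hp => ?_⟩
  · rintro V ⟨O, hO, rfl⟩
    have : IsOpen O := by
      rcases hO with rfl | ⟨x, ρ, -, -, rfl⟩
      · exact h1
      · exact isOpen_ball
    exact (hf _ (this.preimage continuous_subtype_val).isClosed_compl).isOpen_compl
  · refine eq_univ_of_forall fun y => ?_
    obtain ⟨x, rfl⟩ := hs y
    by_cases hx : (x : M) ∈ S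
    · refine ⟨_, ⟨O₀, Or.inl rfl, rfl⟩, ?_⟩
      rintro ⟨z, hz, e⟩
      rcases hfib z x e with rfl | h
      · exact hz (h2 hx)
      · exact hz (h2 h.1)
    · obtain ⟨ρ, hρ, hb⟩ := Metric.isOpen_iff.1 hU x x.2
      refine ⟨_, ⟨_, Or.inr ⟨x, ρ, hρ, hb, rfl⟩, rfl⟩, ?_⟩
      rintro ⟨z, hz, e⟩
      rcases hfib z x e with rfl | h
      · exact hz (mem_ball_self (by positivity))
      · exact hx h.2
  · obtain ⟨κ, hκ, hb⟩ := Metric.isOpen_iff.1 (isClosed_closure (s := O₀)).isOpen_compl p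
      fun h => hp (h3 h)
    refine ⟨κ, hκ, ?_⟩
    rintro V ⟨O, hO, rfl⟩ u v hu hv hd
    have a := mem O u hu
    have b := mem O v hv
    rcases hO with rfl | ⟨x, ρ, hρ, hx, rfl⟩
    · exact (hb (mem_ball.2 hd) (subset_closure a)).elim
    · have c : ρ ≤ dist p x := not_lt.1 fun h => hp (hx h)
      rw [mem_ball] at a b
      have t1 := dist_triangle_left p x (u : M)
      have t2 := dist_triangle (v : M) x p
      rw [dist_comm x p] at t2
      linarith

end Pool.Agent.P.MP_3ae97d_gt.HM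

end partTAP0

section partTAP

/-! Step TAP. -/

set_option autoImplicit false
set_option linter.unusedSectionVars false

namespace Pool.Agent.P.MP_3ae97d_gt.HM

open Set Filter Topology Metric Function unitInterval

namespace TAPx

theorem tend {M Y : Type} [MetricSpace M] [TopologicalSpace Y] {U : Set M} {f : U → Y}
    {𝒰 : Set (Set Y)} (hs : Surjective f) {p : M} {κ : ℝ} (hκ : 0 < κ)
    (H : ∀ V ∈ 𝒰, ∀ u v : U, f u ∈ V → f v ∈ V → dist (u : M) p < κ →
      dist (v : M) p ≤ 2 * dist (u : M) p) {h h' : U ≃ₜ Y}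
    (h1 : ∀ x, ∃ V ∈ 𝒰, h x ∈ V ∧ f x ∈ V) (h2 : ∀ x, ∃ V ∈ 𝒰, h' x ∈ V ∧ f x ∈ V) :
    Tendsto (fun x : U => (h'.symm (h x) : M)) (comap (↑) (𝓝 p)) (𝓝 p) := by
  have h0 : Tendsto (fun x : U => dist (x : M) p) (comap (↑) (𝓝 p)) (𝓝 0) :=
    tendsto_iff_dist_tendsto_zero.1 tendsto_comap
  refine tendsto_iff_dist_tendsto_zero.2 (squeeze_zero' (.of_forall fun _ => dist_nonneg) ?_
    (by simpa using h0.const_mul 4))
  filter_upwards [h0.eventually_lt_const (half_pos hκ)] with x hx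
  obtain ⟨V, hV, a1, a2⟩ := h1 x
  obtain ⟨W, hW, b1, b2⟩ := h2 (h'.symm (h x))
  obtain ⟨w, hw⟩ := hs (h x)
  rw [h'.apply_symm_apply] at b1
  have c1 := H V hV x w a2 (hw ▸ a1) (by linarith)
  have c2 := H W hW w _ (hw ▸ b1) b2 (by linarith)
  linarith

end TAPx

theorem p_TAP (hEXI : S_EXI) (hTAP0 : S_TAP0) :
    S_TAP := by
  classical
  intro M Y _ _ U S f hU hS hSU hc hcl hs ha hf
  obtain ⟨𝒰, h1, h2, h3⟩ := hTAP0 M Y U S f hU hS hSU hcl hs hf
  have h4 : ∀ n : ℕ, ∃ h : U ≃ₜ Y, ∀ x, (∃ V ∈ 𝒰, h x ∈ V ∧ f x ∈ V) ∧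
      dist (h x) (f x) ≤ 2 * (1 / ((n : ℝ) + 1)) := fun n => by
    obtain ⟨h, hh⟩ := ha {W | ∃ V ∈ 𝒰, ∃ y, W = V ∩ ball y (1 / ((n : ℝ) + 1))}
      (by rintro _ ⟨V, hV, y, rfl⟩; exact (h1 V hV).inter isOpen_ball)
      (eq_univ_of_forall fun y => by
        obtain ⟨V, hV, hy⟩ := (h2 ▸ mem_univ y : y ∈ ⋃₀ 𝒰)
        exact ⟨_, ⟨V, hV, y, rfl⟩, hy, mem_ball_self (by positivity)⟩)
    refine ⟨h, fun x => ?_⟩
    obtain ⟨_, ⟨V, hV, y, rfl⟩, a, b⟩ := hh x
    exact ⟨⟨V, hV, a.1, b.1⟩, by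
      linarith [dist_triangle_right (h x) (f x) y, mem_ball.1 a.2, mem_ball.1 b.2]⟩
  choose h hh using h4
  have h5 : ∀ n m p, p ∉ U →
      Tendsto (fun x : U => ((h m).symm (h n x) : M)) (comap (↑) (𝓝 p)) (𝓝 p) := fun n m p hp => by
    obtain ⟨κ, hκ, H⟩ := h3 p hp
    exact TAPx.tend hs hκ H (fun x => (hh n x).1) fun x => (hh m x).1
  choose g hg hg' using fun n => hEXI M U ((h n).trans (h 0).symm) hU (h5 n 0) (h5 0 n)
  let F : M → M := fun x => if hx : x ∈ U then (h 0).symm (f ⟨x, hx⟩) else x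
  have hF : ∀ x : U, F x = (h 0).symm (f x) := fun x => dif_pos x.2
  refine ⟨F, g, ?_, fun x hx => ?_, fun x y => ?_, hg, fun x hx => ?_⟩
  · rw [continuousOn_iff_continuous_domRestrict]
    exact (continuous_subtype_val.comp ((h 0).symm.continuous.comp hc)).congr fun x => (hF x).symm
  · rw [hF ⟨x, hx⟩]; exact Subtype.prop _
  · rw [hF, hF, Subtype.val_inj, (h 0).symm.injective.eq_iff]
  · rw [hF ⟨x, hx⟩]
    have h6 : Tendsto (fun n => h n ⟨x, hx⟩) atTop (𝓝 (f ⟨x, hx⟩)) :=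
      tendsto_iff_dist_tendsto_zero.2 (squeeze_zero (fun _ => dist_nonneg) (fun n => (hh n _).2)
        (by simpa using (tendsto_one_div_add_atTop_nhds_zero_nat (𝕜 := ℝ)).const_mul 2))
    exact (((continuous_subtype_val.comp (h 0).symm.continuous).tendsto _).comp h6).congr
      fun n => (hg' n ⟨x, hx⟩).symm

end Pool.Agent.P.MP_3ae97d_gt.HM

end partTAP

section partCOL

/-! Step COL. -/

set_option autoImplicit false
set_option linter.unusedSectionVars false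

namespace Pool.Agent.P.MP_3ae97d_gt.HM

open Set Filter Topology Metric Function unitInterval

theorem p_COL (hOPEN : S_OPEN) (hGOOD : S_GOOD) (hAPP : S_APP) (hTAP : S_TAP) :
    S_COL := by
  intro M ι _ _ U S c hM hU hS hSU hc hd hn
  obtain ⟨h1, h2⟩ := hGOOD U M ⟨Subtype.val, continuous_subtype_val⟩
    hU.isOpenEmbedding_subtypeVal.isLocalHomeomorph
  have hG : Good U := h1 (hOPEN M U hM.1 hU) hM
  have hm : ∀ i t, c i t ∈ U := fun i t => hSU ((hc i).2.2 (mem_range_self t))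
  let c' : ι → C(I, U) := fun i => ⟨fun t => ⟨c i t, hm i t⟩, by fun_prop⟩
  have hr : ∀ i (x : U), x ∈ range (c' i) ↔ (x : M) ∈ range (c i) := fun i x =>
    ⟨fun ⟨t, ht⟩ => ⟨t, congrArg Subtype.val ht⟩, fun ⟨t, ht⟩ => ⟨t, Subtype.ext ht⟩⟩
  obtain ⟨Y, _, f, hf, hcl, hs, ha, he⟩ := hAPP U ι c' hG
    (fun i => ⟨fun s t h => (hc i).1 (congrArg Subtype.val h),
      (h2 _ (hc i).2.1).mono fun x hx => (hr i x).1 hx⟩)
    (fun i j hij => disjoint_left.2 fun x hx hy =>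
      disjoint_left.1 (hd hij) ((hr i x).1 hx) ((hr j x).1 hy))
    (fun δ hδ => (hn δ hδ).subset fun i ⟨x, hx, y, hy, e⟩ =>
      ⟨x, (hr i x).1 hx, y, (hr i y).1 hy, e⟩)
  obtain ⟨F, g, hF, hm', hi, hg, hl⟩ := hTAP M Y U S f hU hS hSU hf hcl hs ha fun x y h =>
    ((he x y).1 h).imp id fun ⟨i, hx, hy⟩ =>
      ⟨(hc i).2.2 ((hr i x).1 hx), (hc i).2.2 ((hr i y).1 hy)⟩
  refine ⟨F, g, hF, hm', fun x hx y hy => ?_, hg, hl⟩
  rw [hi ⟨x, hx⟩ ⟨y, hy⟩, he]
  simp only [hr, Subtype.mk.injEq]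

end Pool.Agent.P.MP_3ae97d_gt.HM

end partCOL

section partMERGE

/-! Step MERGE. -/

set_option autoImplicit false
set_option linter.unusedSectionVars false

namespace Pool.Agent.P.MP_3ae97d_gt.HM

open Set Filter Topology Metric Function unitInterval

theorem p_MERGE (hCOL : S_COL) :
    S_MERGE := by
  intro M _ U c hM hU hi hz hs
  obtain ⟨F, g, -, -, h3, h4, h5⟩ := hCOL M Unit U (range c) (fun _ => c) hM hU
    (isCompact_range c.continuous).isClosed hs (fun _ => ⟨hi, hz, Subset.rfl⟩)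
    Subsingleton.pairwise (fun _ _ => toFinite _)
  have h0 := hs (mem_range_self 0)
  have h1 := hs (mem_range_self 1)
  refine ⟨F (c 0), g, h4, h5 _ h0, ?_⟩
  rw [(h3 _ h0 _ h1).2 (Or.inr ⟨(), mem_range_self 0, mem_range_self 1⟩)]
  exact h5 _ h1

end Pool.Agent.P.MP_3ae97d_gt.HM

end partMERGE

section partD1

/-! Step D1. -/

set_option autoImplicit false
set_option linter.unusedSectionVars false

namespace Pool.Agent.P.MP_3ae97d_gt.HM

open Set Filter Topology Metric Function unitInterval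

namespace D1x

theorem stay {M : Type} [TopologicalSpace M] {O E K U L1 L2 : Set M} (hE : CI O E) (hK : K ⊆ E)
    (hc : IsPreconnected K) (hU : IsOpen U) (hUO : U ⊆ O) (h1 : IsClosed L1) (h2 : IsClosed L2)
    (hd : ∀ x, x ∈ L1 → x ∈ L2 → False) (hcov : ∀ x ∈ E, x ∈ U → x ∈ L1 ∨ x ∈ L2)
    {k : M} (hk : k ∈ K) (hkU : k ∉ U) {g : M ≃ₜ M} (hg : Sup U g) {e : M} (he : e ∈ K)
    (heU : e ∈ U) (heL : e ∈ L1) : g e ∈ L1 := by
  have hgE : ∀ x ∈ K, x ∈ U → g x ∈ L1 ∨ g x ∈ L2 := fun x hx hxU =>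
    hcov _ (hE.inv g (hg.mono hUO) x (hK hx)) (hg.mem.2 hxU)
  refine (hgE e he heU).elim id fun hg2 => False.elim ?_
  obtain ⟨x, -, ⟨hx1, hx2⟩, hx3⟩ := isPreconnected_closed_iff.1 hc (L1 ∩ g ⁻¹' L2)
    (Uᶜ ∪ L2 ∪ g ⁻¹' L1) (h1.inter (h2.preimage g.continuous))
    ((hU.isClosed_compl.union h2).union (h1.preimage g.continuous))
    (fun x hx => by
      by_cases hxU : x ∈ U
      · rcases hcov x (hK hx) hxU with a | a
        · rcases hgE x hx hxU with b | b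
          · exact Or.inr (Or.inr b)
          · exact Or.inl ⟨a, b⟩
        · exact Or.inr (Or.inl (Or.inr a))
      · exact Or.inr (Or.inl (Or.inl hxU)))
    ⟨e, he, heL, hg2⟩ ⟨k, hk, Or.inl (Or.inl hkU)⟩
  rcases hx3 with (a | a) | a
  · exact hd x hx1 (by have : g x ∈ L2 := hx2; rwa [hg x a] at this)
  · exact hd x hx1 a
  · exact hd _ a hx2

end D1x

theorem p_D1 (hARC : S_ARC) (hMERGE : S_MERGE) :
    S_D1 := by
  intro M _ O E K hG hO hOc hE ⟨m, hmO, hmE⟩ hK hc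
  by_contra hns
  have hnt : K.Nontrivial := not_subsingleton_iff.1 hns
  have hinf := hc.infinite_of_nontrivial hnt
  obtain ⟨e1, he1, e2, he2, hne⟩ := hnt
  obtain ⟨k, hk, hk'⟩ := hinf.exists_notMem_finite (toFinite {e1, e2})
  simp only [mem_insert_iff, mem_singleton_iff, not_or] at hk'
  have hB : IsOpen (O \ closure E) := hO.sdiff isClosed_closure
  obtain ⟨c, hci, hc0, hc1, hcO, ⟨t0, ht0⟩, hq, hZ⟩ := hARC M O (O \ closure E) {k} ∅ e1 e2 hG.1
    hG.2.1 hO hOc hB ⟨m, ⟨hmO, fun h => hmE (hE.cl m hmO h)⟩, hmO⟩ (countable_singleton k)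
    countable_empty (by simp) (hE.sub (hK he1)) (hE.sub (hK he2)) hne
  have hcl : IsClosed {t : I | c t ∉ O \ closure E} := hB.isClosed_compl.preimage c.continuous
  have k1 : IsClosed (c '' (Iic t0 ∩ {t : I | c t ∉ O \ closure E})) :=
    ((isClosed_Iic.inter hcl).isCompact.image c.continuous).isClosed
  have k2 : IsClosed (c '' (Ici t0 ∩ {t : I | c t ∉ O \ closure E})) :=
    ((isClosed_Ici.inter hcl).isCompact.image c.continuous).isClosed
  obtain ⟨u, u0, u1, -⟩ := exists_continuous_zero_one_of_isClosed k1 k2 (by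
    rw [disjoint_left]
    rintro _ ⟨s, ⟨hs, hs'⟩, rfl⟩ ⟨t, ⟨ht, -⟩, e⟩
    obtain rfl := hci e
    exact hs' (le_antisymm (α := I) hs ht ▸ ht0))
  set U : Set M := (O ∩ ({x | u x < 1 / 3} ∪ {x | 2 / 3 < u x} ∪ (O \ closure E))) \ {k} with hU
  have hUo : IsOpen U := (hO.inter (((isOpen_lt u.continuous continuous_const).union
    (isOpen_lt continuous_const u.continuous)).union hB)).sdiff isClosed_singleton
  have hcU : range c ⊆ U := by
    rintro _ ⟨t, rfl⟩
    refine ⟨⟨hcO ⟨t, rfl⟩, ?_⟩, ?_⟩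
    · by_cases hb : c t ∈ O \ closure E
      · exact Or.inr hb
      · rcases le_total t t0 with a | a
        · have : u (c t) = 0 := u0 ⟨t, ⟨a, hb⟩, rfl⟩
          exact Or.inl (Or.inl (by simp [this]))
        · have : u (c t) = 1 := u1 ⟨t, ⟨a, hb⟩, rfl⟩
          exact Or.inl (Or.inr (by simp only [mem_ofPred_eq, this]; norm_num))
    · by_cases a : t = 0
      · rw [a, hc0]; exact fun e => hk'.1 (mem_singleton_iff.1 e).symm
      by_cases b : t = 1
      · rw [b, hc1]; exact fun e => hk'.2 (mem_singleton_iff.1 e).symm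
      exact (hq t ⟨a, b⟩).1
  obtain ⟨z, g, hg, z0, z1⟩ := hMERGE M U c hG hUo hci hZ hcU
  have l1 : IsClosed {x | u x ≤ 1 / 3} := isClosed_le u.continuous continuous_const
  have l2 : IsClosed {x | 2 / 3 ≤ u x} := isClosed_le continuous_const u.continuous
  have hd : ∀ x, x ∈ {x | u x ≤ 1 / 3} → x ∈ {x | 2 / 3 ≤ u x} → False := fun x a b => by
    simp only [mem_ofPred_eq] at a b; linarith
  have hcov : ∀ x ∈ E, x ∈ U → x ∈ {x | u x ≤ 1 / 3} ∨ x ∈ {x | 2 / 3 ≤ u x} := by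
    rintro x hx ⟨⟨-, (a | a) | a⟩, -⟩
    · exact Or.inl (show u x ≤ 1 / 3 from le_of_lt a)
    · exact Or.inr (show 2 / 3 ≤ u x from le_of_lt a)
    · exact (a.2 (subset_closure hx)).elim
  have hUO : U ⊆ O := fun x hx => hx.1.1
  have hkU : k ∉ U := fun h => h.2 rfl
  have n0 : c 0 ∉ O \ closure E := fun h => h.2 (subset_closure (hc0 ▸ hK he1))
  have n1 : c 1 ∉ O \ closure E := fun h => h.2 (subset_closure (hc1 ▸ hK he2))
  have v0 : u (c 0) = 0 := u0 ⟨0, ⟨bot_le (a := t0), n0⟩, rfl⟩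
  have v1 : u (c 1) = 1 := u1 ⟨1, ⟨le_top (a := t0), n1⟩, rfl⟩
  refine hd z (l1.mem_of_tendsto z0 (Eventually.of_forall fun n => ?_))
    (l2.mem_of_tendsto z1 (Eventually.of_forall fun n => ?_))
  · exact D1x.stay hE hK hc hUo hUO l1 l2 hd hcov hk hkU (hg n) (hc0 ▸ he1) (hcU ⟨0, rfl⟩)
      (by simp [v0])
  · exact D1x.stay hE hK hc hUo hUO l2 l1 (fun x a b => hd x b a)
      (fun x a b => (hcov x a b).symm) hk hkU (hg n) (hc1 ▸ he2) (hcU ⟨1, rfl⟩)
      (by simp only [mem_ofPred_eq, v1]; norm_num)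

end Pool.Agent.P.MP_3ae97d_gt.HM

end partD1

section partREC

/-! Step REC. -/

set_option autoImplicit false
set_option linter.unusedSectionVars false

namespace Pool.Agent.P.MP_3ae97d_gt.HM

open Set Filter Topology Metric Function unitInterval

theorem p_REC :
    S_REC := by
  intro ι α _ P r hs h
  obtain ⟨e, he⟩ := exists_injective_nat ι
  have hfin : ∀ i, Finite {j // e j < e i} := by
    intro i
    have h1 : {j | e j < e i}.Finite :=
      Set.Finite.preimage (s := Set.Iio (e i)) he.injOn (Set.finite_Iio _)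
    exact h1.to_subtype
  have wf : WellFounded (fun j i => e j < e i) := (measure e).wf
  have key : ∀ (i : ι) (g : ∀ j, e j < e i → {y // P j y}),
      ∃ y : {y // P i y}, ∀ j (hj : e j < e i), r (g j hj).1 y.1 := by
    intro i g
    have := hfin i
    obtain ⟨y, hy, hy2⟩ := h i (range fun j : {j // e j < e i} => (g j.1 j.2).1)
      (finite_range _) (by rintro x ⟨j, rfl⟩; exact ⟨j.1, (g j.1 j.2).2⟩)
    exact ⟨⟨y, hy⟩, fun j hj => hy2 _ ⟨⟨j, hj⟩, rfl⟩⟩
  choose F hF using key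
  let f : ∀ i, {y // P i y} := wf.fix F
  have hf : ∀ i, f i = F i (fun j _ => f j) := fun i => wf.fix_eq F i
  have hr : ∀ i j, e j < e i → r (f j).1 (f i).1 := by
    intro i j hj
    have := hF i (fun j _ => f j) j hj
    rwa [← hf i] at this
  refine ⟨fun i => (f i).1, fun i => (f i).2, fun i j hij => ?_⟩
  rcases lt_trichotomy (e i) (e j) with hlt | heq | hlt
  · exact hr j i hlt
  · exact absurd (he heq) hij
  · exact hs _ _ (hr i j hlt)

end Pool.Agent.P.MP_3ae97d_gt.HM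

end partREC

section partD2P

/-! Step D2P. -/

set_option autoImplicit false
set_option linter.unusedSectionVars false

namespace Pool.Agent.P.MP_3ae97d_gt.HM

open Set Filter Topology Metric Function unitInterval

namespace D2Px

variable {M : Type} [MetricSpace M]

/-- A proper separation of `K`. -/
def Spl (K C : Set M) : Prop :=
  IsClosed C ∧ C ⊆ K ∧ IsClosed (K \ C) ∧ C.Nonempty ∧ (K \ C).Nonempty

/-- A small connected open set meets both parts. -/
def Adm (W K : Set M) (d : ℝ) (C : Set M) : Prop :=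
  ∃ V, IsOpen V ∧ IsPreconnected V ∧ V ⊆ W ∧ (V ∩ C).Nonempty ∧ (V ∩ (K \ C)).Nonempty ∧
    ∀ x ∈ V, ∀ y ∈ V, dist x y < d

theorem fin [LocallyPathConnectedSpace M] {W K : Set M} (hW : IsOpen W) (hK : IsCompact K)
    (hKW : K ⊆ W) {d : ℝ} (hd : 0 < d) : {C | C ⊆ K ∧ ¬Adm W K d C}.Finite := by
  let U : M → Set M := fun x => connectedComponentIn (ball x (d / 2) ∩ W) x
  have hU : ∀ x, IsOpen (U x) := fun x => (isOpen_ball.inter hW).connectedComponentIn
  obtain ⟨t, -, ht⟩ := hK.elim_nhds_subcover U fun x hx =>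
    (hU x).mem_nhds (mem_connectedComponentIn ⟨mem_ball_self (half_pos hd), hKW hx⟩)
  have key : ∀ C C', C ⊆ K → C' ⊆ K → ¬Adm W K d C' →
      {x | x ∈ (t : Set M) ∧ (U x ∩ C).Nonempty} = {x | x ∈ (t : Set M) ∧ (U x ∩ C').Nonempty} →
      C ⊆ C' := by
    intro C C' hC _ hA e z hz
    obtain ⟨x, hx, hzx⟩ := mem_iUnion₂.1 (ht (hC hz))
    have h1 : x ∈ {x | x ∈ (t : Set M) ∧ (U x ∩ C').Nonempty} := e ▸ ⟨hx, z, hzx, hz⟩
    by_contra hn
    refine hA ⟨U x, hU x, isPreconnected_connectedComponentIn,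
      fun a ha => (connectedComponentIn_subset _ _ ha).2, h1.2, ⟨z, hzx, hC hz, hn⟩,
      fun a ha b hb => ?_⟩
    have h2 := mem_ball.1 (connectedComponentIn_subset _ _ ha).1
    have h3 := mem_ball.1 (connectedComponentIn_subset _ _ hb).1
    linarith [dist_triangle_right a b x]
  refine Finite.of_finite_image (f := fun C => {x | x ∈ (t : Set M) ∧ (U x ∩ C).Nonempty})
    (t.finite_toSet.finite_subsets.subset ?_) fun C hC C' hC' e =>
      (key C C' hC.1 hC'.1 hC'.2 e).antisymm (key C' C hC'.1 hC.1 hC.2 e.symm)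
  rintro _ ⟨C, -, rfl⟩ x hx
  exact hx.1

theorem ex {W K C : Set M} (hK : IsCompact K) (h : Spl K C) :
    ∃ n : ℕ, ¬Adm W K (1 / ((n : ℝ) + 1)) C := by
  obtain ⟨δ, hδ, hd⟩ := (disjoint_sdiff_right : Disjoint C (K \ C)).exists_thickenings
    (hK.of_isClosed_subset h.1 h.2.1) h.2.2.1
  obtain ⟨n, hn⟩ := exists_nat_one_div_lt hδ
  refine ⟨n, fun ⟨V, _, _, _, ⟨x, hx, hx'⟩, ⟨y, hy, hy'⟩, h6⟩ => ?_⟩
  exact disjoint_left.1 hd (self_subset_thickening hδ _ hx')
    (mem_thickening_iff.2 ⟨y, hy', (h6 x hx y hy).trans hn⟩)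

end D2Px

open D2Px in
theorem p_D2P :
    S_D2P := by
  classical
  intro M _ _ W K hW hWc hK hKW
  have hF : ∀ n : ℕ, {C | C ⊆ K ∧ ¬Adm W K (1 / ((n : ℝ) + 1)) C}.Finite := fun n =>
    fin hW hK hKW Nat.one_div_pos_of_nat
  have hc : {C | Spl K C}.Countable :=
    (countable_iUnion fun n => (hF n).countable).mono fun C hC =>
      mem_iUnion.2 ((ex (W := W) hK hC).imp fun _ hn => mem_ofPred.2 ⟨hC.2.1, hn⟩)
  have key : ∀ C : {C | Spl K C}, ∃ V, IsOpen V ∧ IsPreconnected V ∧ V ⊆ W ∧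
      (V ∩ C.1).Nonempty ∧ (V ∩ (K \ C.1)).Nonempty ∧ ∀ m : ℕ, ∀ x ∈ V, ∀ y ∈ V,
        1 / ((m : ℝ) + 1) ≤ dist x y → ∃ n ≤ m, ¬Adm W K (1 / ((n : ℝ) + 1)) C.1 := by
    intro C
    have e := ex (W := W) hK C.2
    rcases hn : Nat.find e with _ | n
    · obtain ⟨a, ha⟩ := C.2.2.2.2.1
      obtain ⟨b, hb⟩ := C.2.2.2.2.2
      exact ⟨W, hW, hWc, Subset.rfl, ⟨a, hKW (C.2.2.1 ha), ha⟩, ⟨b, hKW hb.1, hb⟩,
        fun m _ _ _ _ _ => ⟨_, hn ▸ Nat.zero_le m, Nat.find_spec e⟩⟩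
    · obtain ⟨V, h1, h2, h3, h4, h5, h6⟩ := not_not.1 (Nat.find_min e (m := n) (by omega))
      refine ⟨V, h1, h2, h3, h4, h5, fun m x hx y hy hm => ⟨_, ?_, Nat.find_spec e⟩⟩
      have h7 := hm.trans_lt (h6 x hx y hy)
      rw [one_div_lt_one_div (by positivity) (by positivity)] at h7
      have h8 : n < m := by exact_mod_cast (by linarith : (n : ℝ) < m)
      omega
  choose V hV using key
  refine ⟨{C | Spl K C}, hc.to_subtype, fun C => C.1, V, fun C => ⟨C.2.1, C.2.2.1, C.2.2.2.1,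
    (hV C).1, (hV C).2.1, (hV C).2.2.1, (hV C).2.2.2.1, (hV C).2.2.2.2.1⟩, fun δ hδ => ?_,
    fun C' h1 h2 h3 h4 h5 => ⟨⟨C', h1, h2, h3, h4, h5⟩, rfl⟩⟩
  obtain ⟨m, hm⟩ := exists_nat_one_div_lt hδ
  refine (((finite_Iic m).biUnion fun n _ => hF n).preimage
    Subtype.val_injective.injOn).subset fun C ⟨x, hx, y, hy, e⟩ => ?_
  obtain ⟨n, h1, h2⟩ := (hV C).2.2.2.2.2 m x hx y hy (hm.le.trans e)
  exact mem_iUnion₂.2 ⟨n, h1, C.2.2.1, h2⟩

end Pool.Agent.P.MP_3ae97d_gt.HM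

end partD2P

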