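import Pool.Agent.P.MP_3ae97d_gt.HM.Iface

section partD2R

/-! Step D2R. -/

set_option autoImplicit false
set_option linter.unusedSectionVars false

namespace Pool.Agent.P.MP_3ae97d_gt.HM

open Set Filter Topology Metric Function unitInterval

theorem p_D2R (hARC : S_ARC) (hREC : S_REC) :
    S_D2R := by
  intro M ι _ _ Q Q₀ V P₀ P₁ hE hD hQ hQ₀ h
  have key := hREC ι C(I, M) (fun i c => Injective c ∧ Zs (range c) ∧ range c ⊆ V i ∧
      c 0 ∈ P₀ i \ Q₀ ∧ c 1 ∈ P₁ i \ Q₀ ∧ ∀ t, In t → c t ∉ Q)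
    (fun c d => Disjoint (range c) (range d)) (fun _ _ hh => hh.symm) ?_
  · obtain ⟨f, hf, hp⟩ := key
    exact ⟨f, hf, hp⟩
  intro i s hs hP
  obtain ⟨hV, hc, h0, h1, i0, i1, hd⟩ := h i
  have hu : (Q₀ ∪ ((fun c : C(I, M) => c 0) '' s ∪ (fun c : C(I, M) => c 1) '' s)).Finite :=
    hQ₀.union ((hs.image _).union (hs.image _))
  obtain ⟨a, ha, ha'⟩ := i0.exists_notMem_finite hu
  obtain ⟨b, hb, hb'⟩ := i1.exists_notMem_finite hu
  have hab : a ≠ b := fun e => disjoint_left.1 hd ha (e ▸ hb)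
  obtain ⟨c, c1, c2, c3, c4, -, c6, c7⟩ := hARC M (V i) (V i) Q
    ((fun c : C(I, M) => range c) '' s) a b hE hD hV hc hV ⟨a, (h0 ha).2, (h0 ha).2⟩ hQ
    (hs.image _).countable (by
      rintro S ⟨d, hds, rfl⟩
      obtain ⟨j, hj⟩ := hP d hds
      exact ⟨(isCompact_range d.continuous).isClosed, hj.2.1⟩) (h0 ha).2 (h1 hb).2 hab
  have hend : ∀ d ∈ s, ∀ x ∈ Q,
      x ∉ Q₀ ∪ ((fun c : C(I, M) => c 0) '' s ∪ (fun c : C(I, M) => c 1) '' s) →
      x ∉ range d := by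
    rintro d hds x hx hn ⟨t, rfl⟩
    obtain ⟨j, hj⟩ := hP d hds
    by_cases e0 : t = 0
    · exact hn (Or.inr (Or.inl ⟨d, hds, by rw [e0]⟩))
    by_cases e1 : t = 1
    · exact hn (Or.inr (Or.inr ⟨d, hds, by rw [e1]⟩))
    exact hj.2.2.2.2.2 t ⟨e0, e1⟩ hx
  refine ⟨c, ⟨c1, c7, c4, ?_, ?_, fun t ht => (c6 t ht).1⟩, fun d hds => ?_⟩
  · rw [c2]; exact ⟨ha, fun e => ha' (Or.inl e)⟩
  · rw [c3]; exact ⟨hb, fun e => hb' (Or.inl e)⟩
  · rw [disjoint_right]
    rintro x ⟨t, rfl⟩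
    by_cases e0 : t = 0
    · rw [e0, c2]; exact hend d hds a (h0 ha).1 ha'
    by_cases e1 : t = 1
    · rw [e1, c3]; exact hend d hds b (h1 hb).1 hb'
    exact (c6 t ⟨e0, e1⟩).2 _ ⟨d, hds, rfl⟩

end Pool.Agent.P.MP_3ae97d_gt.HM

end partD2R

section partD2A

/-! Step D2A. -/

set_option autoImplicit false
set_option linter.unusedSectionVars false

namespace Pool.Agent.P.MP_3ae97d_gt.HM

open Set Filter Topology Metric Function unitInterval

theorem p_D2A (hD2P : S_D2P) (hD2R : S_D2R) :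
    S_D2A := by
  intro M _ W K hE hD hW hWc hK hKW hP hne
  have := hE.lpc
  obtain ⟨ι, _, C, V, h1, h2, h3⟩ := hD2P M W K hW hWc hK hKW
  obtain ⟨Q, q1, q2, q3⟩ := hK.isSeparable.exists_countable_dense_subset
  have key : ∀ G, IsOpen G → (G ∩ K).Nonempty → (Q ∩ G).Infinite := by
    rintro G hG ⟨x, hx⟩ hf
    obtain ⟨y, ⟨y1, y2⟩, y3⟩ := (Set.Infinite.of_accPt (hP.open_inter hG x hx)).exists_notMem_finite hf
    obtain ⟨z, z1, z2⟩ := mem_closure_iff.1 (q3 y2) _ (hG.sdiff hf.isClosed) ⟨y1, y3⟩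
    exact z1.2 ⟨z2, z1.1⟩
  obtain ⟨a, ha, b, hb, hab⟩ := (key univ isOpen_univ (by simpa using hne)).nontrivial
  obtain ⟨c, c1, c2⟩ := hD2R M ι Q {a, b} V (fun i => Q ∩ (V i \ (K \ C i)))
    (fun i => Q ∩ (V i \ C i)) hE hD q2 (toFinite _) fun i => by
      obtain ⟨a1, a2, a3, a4, a5, -, ⟨x, hx⟩, y, hy⟩ := h1 i
      exact ⟨a4, a5, inter_subset_inter_right _ sdiff_subset, inter_subset_inter_right _ sdiff_subset,
        key _ (a4.sdiff a3) ⟨x, ⟨hx.1, fun h => h.2 hx.2⟩, a2 hx.2⟩,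
        key _ (a4.sdiff a1) ⟨y, ⟨hy.1, hy.2.2⟩, hy.2.1⟩,
        disjoint_left.2 fun z h h' => h.2.2 ⟨q1 h.1, h'.2.2⟩⟩
  refine ⟨ι, ‹_›, c, a, b, fun i => ⟨(c1 i).1, (c1 i).2.1, (c1 i).2.2.1.trans (h1 i).2.2.2.2.2.1⟩,
    c2, h2.mono fun i => (c1 i).2.2.1, q1 ha.1, q1 hb.1, hab, ?_, fun C' a1 a2 a3 a4 a5 => ?_⟩
  · rintro i ⟨t, ht⟩
    obtain ⟨-, -, -, e0, e1, e2⟩ := c1 i
    refine e2 t ⟨?_, ?_⟩ (ht ▸ ha.1)
    · rintro rfl; exact e0.2 (Or.inl ht)
    · rintro rfl; exact e1.2 (Or.inl ht)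
  · obtain ⟨i, rfl⟩ := h3 C' a1 a2 a3 a4 a5
    obtain ⟨-, -, -, e0, e1, -⟩ := c1 i
    exact ⟨i, by_contra fun h => e0.1.2.2 ⟨q1 e0.1.1, h⟩, q1 e1.1.1, e1.1.2.2⟩

end Pool.Agent.P.MP_3ae97d_gt.HM

end partD2A

section partD2

/-! Step D2. -/

set_option autoImplicit false
set_option linter.unusedSectionVars false

namespace Pool.Agent.P.MP_3ae97d_gt.HM

open Set Filter Topology Metric Function unitInterval

theorem p_D2 (hNBH : S_NBH) (hD2A : S_D2A) (hCOL : S_COL) (hD1 : S_D1) :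
    S_D2 := by
  intro M _ O E D hG hO hc hE hm hD hp
  have := hG.1.locCompact
  have := hG.1.lpc
  refine eq_empty_of_forall_notMem fun d hd => ?_
  obtain ⟨W, w1, w2, w3, -, w5⟩ := hNBH M O {d} hO isCompact_singleton isPreconnected_singleton
    (singleton_subset_iff.2 (hE.sub (hD hd)))
  obtain ⟨V, v1, -, v3, v4, v5⟩ := hNBH M W {d} w1 isCompact_singleton isPreconnected_singleton w3
  have k1 : closure (V ∩ D) ⊆ closure V := closure_mono inter_subset_left
  have kO : closure (V ∩ D) ⊆ O := k1.trans (v5.trans (subset_closure.trans w5))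
  have kE : closure (V ∩ D) ⊆ E := fun x hx =>
    hE.cl x (kO hx) (closure_mono (inter_subset_right.trans hD) hx)
  obtain ⟨ι, _, c, a, b, c1, c2, c3, ha, hb, hab, c4, c5⟩ := hD2A M W (closure (V ∩ D)) hG.1 hG.2.1
    w1 w2 (v4.of_isClosed_subset isClosed_closure k1) (k1.trans v5)
    (hp.open_inter v1).perfect_closure.acc ⟨d, subset_closure ⟨v3 rfl, hd⟩⟩
  have kc : IsClosed (closure (V ∩ D)) := isClosed_closure
  generalize closure (V ∩ D) = K at *
  obtain ⟨F, g, f1, f2, f3, f4, f5⟩ := hCOL M ι O (closure W) c hG hO isClosed_closure w5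
    (fun i => ⟨(c1 i).1, (c1 i).2.1, (c1 i).2.2.trans subset_closure⟩) c2 c3
  have h1 : F '' K ⊆ E := by
    rintro _ ⟨x, hx, rfl⟩
    exact hE.cl _ (f2 (kO hx)) (mem_closure_of_tendsto (f5 x (kO hx))
      (Eventually.of_forall fun n => hE.inv _ (f4 n) x (kE hx)))
  have h2 : IsPreconnected (F '' K) := by
    refine isPreconnected_closed_iff.2 fun t t' t1 t2 t3 ⟨_, ⟨x, hx, rfl⟩, t4⟩
      ⟨_, ⟨y, hy, rfl⟩, t5⟩ => by_contra fun t6 => ?_
    have e : K \ (K ∩ F ⁻¹' t) = K ∩ F ⁻¹' t' := by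
      ext z
      exact ⟨fun h => ⟨h.1, (t3 (mem_image_of_mem F h.1)).resolve_left fun a => h.2 ⟨h.1, a⟩⟩,
        fun h => ⟨h.1, fun a => t6 ⟨_, mem_image_of_mem F h.1, a.2, h.2⟩⟩⟩
    obtain ⟨i, i1, i2⟩ := c5 (K ∩ F ⁻¹' t) ((f1.mono kO).preimage_isClosed_of_isClosed kc t1)
      inter_subset_left (e ▸ (f1.mono kO).preimage_isClosed_of_isClosed kc t2) ⟨x, hx, t4⟩
      (e ▸ ⟨y, hy, t5⟩)
    rw [e] at i2
    have := (f3 _ (kO i1.1) _ (kO i2.1)).2 (Or.inr ⟨i, mem_range_self _, mem_range_self _⟩)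
    exact t6 ⟨_, mem_image_of_mem F i1.1, i1.2, this ▸ i2.2⟩
  rcases (f3 a (kO ha) b (kO hb)).1 (hD1 M O E _ hG hO hc hE hm h1 h2 (mem_image_of_mem F ha)
    (mem_image_of_mem F hb)) with h | ⟨i, h, -⟩
  exacts [hab h, c4 i h]

end Pool.Agent.P.MP_3ae97d_gt.HM

end partD2

section partDI

/-! Step DI. -/

set_option autoImplicit false
set_option linter.unusedSectionVars false

namespace Pool.Agent.P.MP_3ae97d_gt.HM

open Set Filter Topology Metric Function unitInterval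

theorem p_DI (hNBH : S_NBH) (hARC : S_ARC) (hMERGE : S_MERGE) (hD2 : S_D2) :
    S_DI := by
  intro M _ O E hG hO hOc hE hm x hx y hy
  by_contra hxy
  have := hG.1.locCompact
  have := hG.1.lpc
  have := hG.1.second
  obtain ⟨B1, B2, hB1, hB2, hx1, hy2, hB⟩ := t2_separation hxy
  have iso : ∀ (B : Set M) (x : M), IsOpen B → x ∈ B → x ∈ E →
      ∃ e ∈ E ∩ B, ∃ G, IsOpen G ∧ e ∈ G ∧ ∀ z ∈ G, z ∈ E → z = e := by
    intro B x hB hxB hxE
    by_contra hn
    have hp : Preperfect (E ∩ B) := by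
      intro e he
      rw [accPt_iff_nhds]
      intro U hU
      obtain ⟨G, hGU, hG, heG⟩ := _root_.mem_nhds_iff.1 (inter_mem hU (hB.mem_nhds he.2))
      by_contra h2
      refine hn ⟨e, he, G, hG, heG, fun z hz hzE => ?_⟩
      by_contra h3
      exact h2 ⟨z, ⟨(hGU hz).1, hzE, (hGU hz).2⟩, h3⟩
    exact (hD2 M O E _ hG hO hOc hE hm inter_subset_left hp).subset (⟨hxE, hxB⟩ : x ∈ E ∩ B)
  obtain ⟨e1, he1, G1, hG1, h1, u1⟩ := iso B1 x hB1 hx1 hx
  obtain ⟨e2, he2, G2, hG2, h2, u2⟩ := iso B2 y hB2 hy2 hy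
  have hne : e1 ≠ e2 := fun h => disjoint_left.1 hB he1.2 (h ▸ he2.2)
  obtain ⟨γ, hγ⟩ := hG.1.joined hO hOc (hE.sub he1.1) (hE.sub he2.1)
  obtain ⟨W, hW, hWc, hKW, -, hWO⟩ := hNBH M O (range γ) hO (isCompact_range γ.continuous)
    (isPreconnected_range γ.continuous) (range_subset_iff.2 hγ)
  have hcl : IsClosed (E ∩ closure W) := by
    refine isClosed_of_closure_subset fun z hz => ?_
    have hz2 : z ∈ closure W := isClosed_closure.closure_subset (closure_mono inter_subset_right hz)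
    exact ⟨hE.cl z (hWO hz2) (closure_mono inter_subset_left hz), hz2⟩
  obtain ⟨V, D, hV, hD, hVD⟩ := exists_countable_union_perfect_of_isClosed hcl
  have hD0 : D = ∅ := hD2 M O E D hG hO hOc hE hm
    (fun z hz => (hVD.symm.subset (Or.inr hz)).1) hD.acc
  have hQ : (E ∩ closure W).Countable := by rw [hVD, hD0, union_empty]; exact hV
  have a1 : e1 ∈ W := hKW ⟨0, γ.source⟩
  have a2 : e2 ∈ W := hKW ⟨1, γ.target⟩
  obtain ⟨c, ci, c0, c1, cW, -, cQ, cZ⟩ := hARC M W W (E ∩ closure W) ∅ e1 e2 hG.1 hG.2.1 hW hWc hW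
    ⟨e1, a1, a1⟩ hQ countable_empty (by simp) a1 a2 hne
  have hcU : range c ⊆ W ∩ (G1 ∪ G2 ∪ (E ∩ closure W)ᶜ) := by
    rintro _ ⟨t, rfl⟩
    refine ⟨cW ⟨t, rfl⟩, ?_⟩
    by_cases t0 : t = 0
    · exact Or.inl (Or.inl (by rw [t0, c0]; exact h1))
    by_cases t1 : t = 1
    · exact Or.inl (Or.inr (by rw [t1, c1]; exact h2))
    exact Or.inr (cQ t ⟨t0, t1⟩).1
  obtain ⟨z, g, hg, l0, l1⟩ := hMERGE M _ c hG
    (hW.inter ((hG1.union hG2).union hcl.isOpen_compl)) ci cZ hcU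
  have two : ∀ n t, c t ∈ E → g n (c t) = e1 ∨ g n (c t) = e2 := by
    intro n t ht
    have hz := (hg n).mem.2 (hcU ⟨t, rfl⟩)
    have hzE := hE.inv _ ((hg n).mono fun w hw => hWO (subset_closure hw.1)) _ ht
    rcases hz.2 with (h | h) | h
    · exact Or.inl (u1 _ h hzE)
    · exact Or.inr (u2 _ h hzE)
    · exact absurd ⟨hzE, subset_closure hz.1⟩ h
  have key : ∀ n, dist (g n (c 0)) (g n (c 1)) = dist e1 e2 := by
    intro n
    have hn : g n (c 0) ≠ g n (c 1) := fun h => hne (by rw [← c0, ← c1]; exact (g n).injective h)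
    rcases two n 0 (c0 ▸ he1.1) with a | a <;> rcases two n 1 (c1 ▸ he2.1) with b | b
    · exact absurd (a.trans b.symm) hn
    · rw [a, b]
    · rw [a, b, dist_comm]
    · exact absurd (a.trans b.symm) hn
  have lim := l0.dist l1
  simp only [key, dist_self, tendsto_const_nhds_iff] at lim
  exact hne (dist_eq_zero.1 lim)

end Pool.Agent.P.MP_3ae97d_gt.HM

end partDI

section partORB

/-! Step ORB. -/

set_option autoImplicit false
set_option linter.unusedSectionVars false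

namespace Pool.Agent.P.MP_3ae97d_gt.HM

open Set Filter Topology Metric Function unitInterval

theorem p_ORB (hDI : S_DI) (hZPT : S_ZPT) :
    S_ORB := by
  intro M _ O hM hO hc
  refine ⟨fun x hx => ?_, fun x hx y hy h1 h2 => ?_⟩
  · have hE : CI O (O ∩ closure {z | ∃ h, Sup O h ∧ h x = z}) :=
      ⟨inter_subset_left, fun z hz h => ⟨hz, closure_minimal inter_subset_right isClosed_closure h⟩,
        fun h hh z hz => ⟨hh.mem.2 hz.1, map_mem_closure h.continuous hz.2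
          fun _ ⟨g, hg, e⟩ => ⟨g.trans h, hg.trans hh, by rw [Homeomorph.trans_apply, e]⟩⟩⟩
    by_cases h : ∃ m ∈ O, m ∉ O ∩ closure {z | ∃ h, Sup O h ∧ h x = z}
    · exact Or.inl fun g hg => hDI M O _ hM hO hc hE h
        ⟨hg.mem.2 hx, subset_closure ⟨g, hg, rfl⟩⟩ ⟨hx, subset_closure ⟨_, Sup.refl O, rfl⟩⟩
    · refine Or.inr fun V hV ⟨m, hm, hm'⟩ => ?_
      obtain ⟨_, h1, g, hg, rfl⟩ :=
        mem_closure_iff.1 (by_contra fun h' => h ⟨m, hm', h'⟩ : m ∈ O ∩ _).2 V hV hm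
      exact ⟨g, hg, h1⟩
  · have hf : ({x, y} : Set M).Finite := toFinite _
    obtain ⟨m, hm, hm'⟩ := ((hZPT M hM.2.1).2 O hO ⟨x, hx⟩).exists_notMem_finite hf
    refine hDI M O {x, y} hM hO hc ⟨?_, fun z _ hz => hf.isClosed.closure_subset hz, ?_⟩
      ⟨m, hm, hm'⟩ (by simp) (by simp)
    · rintro _ (rfl | rfl) <;> assumption
    · rintro h hh _ (rfl | rfl)
      · exact Or.inl (h1 h hh)
      · exact Or.inr (h2 h hh)

end Pool.Agent.P.MP_3ae97d_gt.HM

end partORB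

section partCOV1

/-! Step COV1. -/

set_option autoImplicit false
set_option linter.unusedSectionVars false

namespace Pool.Agent.P.MP_3ae97d_gt.HM

open Set Filter Topology Metric Function unitInterval

namespace COV1x

theorem ext {X T : Type} [MetricSpace X] [TopologicalSpace T] [CompactSpace T] (j : C(T, X))
    (ψ : C(T, ℂ)) (h : ∀ s t, j s = j t → ψ s = ψ t) : ∃ φ : C(X, ℂ), ∀ t, φ (j t) = ψ t := by
  let q : C(T, range j) := ⟨rangeFactorization j, j.continuous.rangeFactorization⟩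
  have hq : IsQuotientMap q :=
    q.continuous.isClosedMap.isQuotientMap q.continuous (rangeFactorization_surjective)
  have hf : FactorsThrough ψ q := fun s t e => h s t (congrArg Subtype.val e)
  obtain ⟨φ, e⟩ := ContinuousMap.exists_restrict_eq (isCompact_range j.continuous).isClosed
    (hq.lift ψ hf)
  refine ⟨φ, fun t => ?_⟩
  have a := DFunLike.congr_fun e (q t)
  have b := DFunLike.congr_fun (hq.lift_comp ψ hf) t
  exact a.trans b

end COV1x

theorem p_COV1 (hARC : S_ARC) (hZPT : S_ZPT) :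
    S_COV1 := by
  intro X _ V e hE hD hV hc he
  obtain ⟨m, hm, hme⟩ := ((hZPT X hD).2 V hV ⟨e, he⟩).exists_notMem_finite (finite_singleton e)
  have hne : e ≠ m := fun a => hme (a ▸ rfl)
  obtain ⟨c₁, i1, a1, b1, r1, -, -, z1⟩ := hARC X V V ∅ ∅ e m hE hD hV hc hV ⟨e, he, he⟩
    countable_empty countable_empty (fun _ h => h.elim) he hm hne
  obtain ⟨c₂, i2, a2, b2, r2, -, d2, -⟩ := hARC X V V ∅ {range c₁} e m hE hD hV hc hV ⟨e, he, he⟩
    countable_empty (countable_singleton _)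
    (fun _ h => h ▸ ⟨(isCompact_range c₁.continuous).isClosed, z1⟩) he hm hne
  let f₁ : I → ℂ := fun s => (1 - (s : ℝ) + (s : ℝ) * Complex.I) ^ 2
  let f₂ : I → ℂ := fun s => (-(1 - (s : ℝ)) + (s : ℝ) * Complex.I) ^ 2
  have key : ∀ s t, c₁ s = c₂ t → f₁ s = f₂ t := by
    intro s t h
    by_cases t0 : t = 0
    · subst t0
      obtain rfl : s = 0 := i1 (h.trans (a2.trans a1.symm))
      simp [f₁, f₂]
    by_cases t1 : t = 1
    · subst t1
      obtain rfl : s = 1 := i1 (h.trans (b2.trans b1.symm))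
      simp [f₁, f₂]
    exact ((d2 t ⟨t0, t1⟩).2 _ rfl ⟨s, h⟩).elim
  obtain ⟨φ, hφ⟩ := COV1x.ext (T := I ⊕ I) ⟨Sum.elim c₁ c₂, by fun_prop⟩
    ⟨Sum.elim f₁ f₂, by fun_prop⟩ (by
      rintro (s | s) (t | t) h
      · exact congrArg f₁ (i1 h)
      · exact key s t h
      · exact (key t s h.symm).symm
      · exact congrArg f₂ (i2 h))
  exact ⟨φ, c₁, c₂, a1, a2, b1.trans b2.symm, fun s =>
    ⟨r1 ⟨s, rfl⟩, r2 ⟨s, rfl⟩, hφ (.inl s), hφ (.inr s)⟩⟩

end Pool.Agent.P.MP_3ae97d_gt.HM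

end partCOV1

section partCOV2

/-! Step COV2. -/

set_option autoImplicit false
set_option linter.unusedSectionVars false

namespace Pool.Agent.P.MP_3ae97d_gt.HM

open Set Filter Topology Metric Function unitInterval

theorem p_COV2 :
    S_COV2 := by
  intro X _ V φ ⟨m, N, i, r, hN, hr⟩ hV
  let A : Set (N × ℂ) := {p | r p.1 ∈ V ∧ p.2 ≠ 0}
  have hA : IsOpen A := (hV.preimage (by fun_prop)).inter (isOpen_ne_fun (by fun_prop) (by fun_prop))
  let g : N × ℂ → ℂ := fun p => φ (r p.1) / p.2 ^ 2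
  have hg : ContinuousOn g A :=
    ContinuousOn.div (by fun_prop) (by fun_prop) fun p hp => pow_ne_zero _ hp.2
  let j : N × ℂ → EuclideanSpace ℝ (Fin m) × ℂ := Prod.map Subtype.val id
  have hj : IsOpenEmbedding j := hN.isOpenEmbedding_subtypeVal.prodMap IsOpenEmbedding.id
  have hB := hg.isOpen_inter_preimage hA Complex.isOpen_slitPlane
  let B := A ∩ g ⁻¹' Complex.slitPlane
  let e : j '' B ≃ₜ B := (hj.isEmbedding.homeomorphImage B).symm
  have h1 : ∀ u : Cov V φ, g (i u.1.1, u.1.2) = 1 := fun u => by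
    simp only [g, hr, ← u.2.2.2]
    exact div_self (pow_ne_zero _ u.2.2.1)
  have h2 : ∀ u : Cov V φ, (i u.1.1, u.1.2) ∈ B := fun u =>
    ⟨⟨by rw [hr]; exact u.2.1, u.2.2.1⟩, by rw [mem_preimage, h1]; exact Complex.one_mem_slitPlane⟩
  let ρ : B → Cov V φ := fun p => ⟨(r p.1.1, p.1.2 * g p ^ (2⁻¹ : ℂ)), p.2.1.1,
    mul_ne_zero p.2.1.2 (by
      rw [Ne, Complex.cpow_eq_zero_iff]
      exact fun h => Complex.slitPlane_ne_zero p.2.2 h.1), by
      rw [mul_pow, Complex.cpow_ofNat_inv_pow]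
      exact mul_div_cancel₀ _ (pow_ne_zero _ p.2.1.2)⟩
  have hρ : Continuous ρ := by
    refine Continuous.subtype_mk (Continuous.prodMk (by fun_prop) (Continuous.mul (by fun_prop)
      (Continuous.cpow ?_ continuous_const fun p => p.2.2))) _
    exact (hg.mono inter_subset_left).domRestrict
  refine ENR.of (hj.isOpenMap _ hB) (fun u => j (i u.1.1, u.1.2)) (ρ ∘ e) (by fun_prop)
    (hρ.comp e.continuous) (fun u => mem_image_of_mem _ (h2 u)) fun u => ?_
  have h3 : e ⟨_, mem_image_of_mem _ (h2 u)⟩ = ⟨_, h2 u⟩ := by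
    rw [Homeomorph.symm_apply_eq]; rfl
  rw [comp_apply, h3]
  refine Subtype.ext (Prod.ext (hr _) ?_)
  simp only [ρ, h1, Complex.one_cpow, mul_one]

end Pool.Agent.P.MP_3ae97d_gt.HM

end partCOV2

section partCOV3

/-! Step COV3. -/

set_option autoImplicit false
set_option linter.unusedSectionVars false

namespace Pool.Agent.P.MP_3ae97d_gt.HM

open Set Filter Topology Metric Function unitInterval

namespace COV3x

theorem sq_mem {w : ℂ} (h : 0 < w.re) : w ^ 2 ∈ Complex.slitPlane := by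
  rw [Complex.mem_slitPlane_iff]
  by_cases h0 : w.im = 0
  · left
    rw [pow_two, Complex.mul_re, h0]
    nlinarith
  · right
    rw [pow_two, Complex.mul_im]
    have : w.re * w.im + w.im * w.re = 2 * (w.re * w.im) := by ring
    rw [this]
    exact mul_ne_zero two_ne_zero (mul_ne_zero h.ne' h0)

theorem re_pos {w : ℂ} (h : w ∈ Complex.slitPlane) : 0 < (w ^ (2⁻¹ : ℂ)).re := by
  rw [Complex.cpow_inv_two_re]
  refine Real.sqrt_pos.2 (half_pos ?_)
  rcases Complex.mem_slitPlane_iff.1 h with h1 | h1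
  · have := norm_nonneg w
    linarith
  · have h2 := Complex.abs_re_lt_norm.2 h1
    have := neg_abs_le w.re
    linarith

end COV3x

theorem p_COV3 :
    S_COV3 := by
  classical
  intro X _ V φ hV u0
  have hz : u0.1.2 ≠ 0 := u0.2.2.1
  let T : Set X := {x | x ∈ V ∧ φ x / u0.1.2 ^ 2 ∈ Complex.slitPlane}
  let s : X → ℂ := fun x => u0.1.2 * (φ x / u0.1.2 ^ 2) ^ (2⁻¹ : ℂ)
  have hd : ∀ x, s x / u0.1.2 = (φ x / u0.1.2 ^ 2) ^ (2⁻¹ : ℂ) := fun x =>
    mul_div_cancel_left₀ _ hz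
  have hs : ∀ x ∈ T, x ∈ V ∧ s x ≠ 0 ∧ s x ^ 2 = φ x := by
    intro x hx
    refine ⟨hx.1, mul_ne_zero hz fun h => ?_, ?_⟩
    · have := COV3x.re_pos hx.2
      rw [h] at this
      exact lt_irrefl _ this
    · show (u0.1.2 * (φ x / u0.1.2 ^ 2) ^ (2⁻¹ : ℂ)) ^ 2 = φ x
      rw [mul_pow, Complex.cpow_ofNat_inv_pow, mul_div_cancel₀ _ (pow_ne_zero 2 hz)]
  have hq : ∀ u : Cov V φ, φ u.1.1 / u0.1.2 ^ 2 = (u.1.2 / u0.1.2) ^ 2 := fun u => by
    rw [div_pow, u.2.2.2]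
  have hT : ∀ u : Cov V φ, 0 < (u.1.2 / u0.1.2).re → u.1.1 ∈ T := fun u hu =>
    ⟨u.2.1, by rw [hq]; exact COV3x.sq_mem hu⟩
  have hc : Continuous fun x => φ x / u0.1.2 ^ 2 := φ.continuous.div_const _
  have hsc : ContinuousOn s T :=
    continuousOn_const.mul (hc.continuousOn.cpow continuousOn_const fun x hx => hx.2)
  let g : X → Cov V φ := fun x => if h : x ∈ T then ⟨(x, s x), hs x h⟩ else u0
  have hg : ∀ x ∈ T, (g x).1 = (x, s x) := fun x hx => by simp only [g, dif_pos hx]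
  refine ⟨{ toFun := fun u => u.1.1
            invFun := g
            source := {u | 0 < (u.1.2 / u0.1.2).re}
            target := T
            map_source' := hT
            map_target' := fun x hx => ?_
            left_inv' := fun u hu => ?_
            right_inv' := fun x hx => ?_
            open_source := ?_
            open_target := hV.inter (Complex.isOpen_slitPlane.preimage hc)
            continuousOn_toFun := (continuous_fst.comp continuous_subtype_val).continuousOn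
            continuousOn_invFun := ?_ }, ?_, rfl⟩
  · show 0 < ((g x).1.2 / u0.1.2).re
    rw [hg x hx]
    show 0 < (s x / u0.1.2).re
    rw [hd]
    exact COV3x.re_pos hx.2
  · refine Subtype.ext ?_
    rw [hg _ (hT u hu)]
    refine Prod.ext rfl ?_
    show u0.1.2 * (φ u.1.1 / u0.1.2 ^ 2) ^ (2⁻¹ : ℂ) = u.1.2
    rw [hq, Complex.sq_cpow_two_inv hu, mul_div_cancel₀ _ hz]
  · show (g x).1.1 = x
    rw [hg x hx]
  · refine IsInducing.subtypeVal.continuousOn_iff.2 ?_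
    exact (continuousOn_id.prodMk hsc).congr fun x hx => hg x hx
  · exact isOpen_lt continuous_const (Complex.continuous_re.comp
      ((continuous_snd.comp continuous_subtype_val).div_const _))
  · show 0 < (u0.1.2 / u0.1.2).re
    rw [div_self hz]
    exact one_pos

end Pool.Agent.P.MP_3ae97d_gt.HM

end partCOV3

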