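import Pool.Agent.P.MP_3ae97d_gt.HM.Iface

section partCOV

/-! Step COV. -/

set_option autoImplicit false
set_option linter.unusedSectionVars false

namespace Pool.Agent.P.MP_3ae97d_gt.HM

open Set Filter Topology Metric Function unitInterval

theorem p_COV (hCOV1 : S_COV1) (hCOV2 : S_COV2) (hCOV3 : S_COV3) :
    S_COV := by
  intro X _ V e h1 h2 hV hc he
  obtain ⟨φ, c₁, c₂, a1, a2, a3, a4⟩ := hCOV1 X V e h1 h2 hV hc he
  let t : Cov V φ → Cov V φ := fun v =>
    ⟨(v.1.1, -v.1.2), v.2.1, neg_ne_zero.2 v.2.2.1, (neg_sq _).trans v.2.2.2⟩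
  have t1 : ∀ v, t (t v) = v := fun v => Subtype.ext (Prod.ext rfl (neg_neg _))
  have t2 : Continuous t := by unfold t; fun_prop
  have n1 : ∀ (s r : ℝ), r = 1 - s ∨ r = -(1 - s) → (r + s * Complex.I : ℂ) ≠ 0 := by
    intro s r hr h
    have b1 := congrArg Complex.re h
    have b2 := congrArg Complex.im h
    simp at b1 b2
    rcases hr with hr | hr <;> linarith
  let p₁ : I → Cov V φ := fun s => ⟨(c₁ s, 1 - (s : ℝ) + (s : ℝ) * Complex.I), (a4 s).1,
    by simpa using n1 s _ (.inl rfl), (a4 s).2.2.1.symm⟩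
  let p₂ : I → Cov V φ := fun s => ⟨(c₂ s, -(1 - (s : ℝ)) + (s : ℝ) * Complex.I), (a4 s).2.1,
    by simpa using n1 s _ (.inr rfl), (a4 s).2.2.2.symm⟩
  have j1 : Joined (p₁ 0) (p₁ 1) := ⟨⟨⟨p₁, by unfold p₁; fun_prop⟩, rfl, rfl⟩⟩
  have j2 : Joined (p₂ 0) (p₂ 1) := ⟨⟨⟨p₂, by unfold p₂; fun_prop⟩, rfl, rfl⟩⟩
  have e1 : p₂ 1 = p₁ 1 := Subtype.ext (Prod.ext a3.symm (by simp [p₁, p₂]))
  have e2 : p₂ 0 = t (p₁ 0) := Subtype.ext (Prod.ext (a2.trans a1.symm) (by simp [p₁, p₂, t]))
  refine ⟨Cov V φ, inferInstance, ⟨fun v => v.1.1, by fun_prop⟩, ⟨⟨t, t, t1, t1⟩, t2, t2⟩, p₁ 0,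
    hCOV2 X V φ h1 hV, hCOV3 X V φ hV, fun v => v.2.1, a1, fun v => ⟨t1 v, fun h => ?_⟩,
    fun v w h => ?_, j1.trans (by rw [e1, e2] at j2; exact j2.symm)⟩
  · exact v.2.2.1 (neg_eq_self.1 (congrArg (fun u : Cov V φ => u.1.2) h))
  · have h' : v.1.1 = w.1.1 := h
    exact (sq_eq_sq_iff_eq_or_eq_neg.1 (w.2.2.2.trans (h' ▸ v.2.2.2.symm))).imp
      (fun b => Subtype.ext (Prod.ext h'.symm b)) fun b => Subtype.ext (Prod.ext h'.symm b)

end Pool.Agent.P.MP_3ae97d_gt.HM

end partCOV

section partTR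

/-! Step TR. -/

set_option autoImplicit false
set_option linter.unusedSectionVars false

namespace Pool.Agent.P.MP_3ae97d_gt.HM

open Set Filter Topology Metric Function unitInterval

namespace TRx

theorem bdry {M X : Type} [MetricSpace M] [MetricSpace X] (p : C(M, X)) (V : Set M)
    (g : M ≃ₜ M) (hc : IsCompact (closure V)) (hg : Sup V g) (k : p '' V → X)
    (hk : ∀ x : p '' V, ∃ v ∈ V, (x : X) = p v ∧ k x = p (g v)) (q : X) (hq : q ∉ p '' V) :
    Tendsto k (comap (↑) (𝓝 q)) (𝓝 q) := by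
  rw [_root_.tendsto_nhds]
  intro W hW hqW
  have hA : IsCompact (closure V ∩ (fun x => p (g x)) ⁻¹' Wᶜ) :=
    hc.inter_right (hW.isClosed_compl.preimage (p.continuous.comp g.continuous))
  have hcl : IsClosed (p '' (closure V ∩ (fun x => p (g x)) ⁻¹' Wᶜ)) :=
    (hA.image p.continuous).isClosed
  refine mem_comap.2 ⟨_, hcl.isOpen_compl.mem_nhds ?_, ?_⟩
  · rintro ⟨x, ⟨-, hx⟩, rfl⟩
    have h1 : x ∉ V := fun h => hq ⟨x, h, rfl⟩
    apply hx
    show p (g x) ∈ W
    rw [hg x h1]
    exact hqW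
  · intro x hx
    obtain ⟨v, hv, h1, h2⟩ := hk x
    show k x ∈ W
    rw [h2]
    by_contra h
    exact hx ⟨v, ⟨subset_closure hv, h⟩, h1.symm⟩

end TRx

theorem p_TR (hEXI : S_EXI) :
    S_TR := by
  intro M X _ _ p V g hp hV hc hi hg
  have he : IsOpenEmbedding (fun v : V => p v) :=
    IsOpenEmbedding.of_continuous_injective_isOpenMap (p.continuous.comp continuous_subtype_val)
      (fun a b h => Subtype.ext (hi (subset_closure a.2) (subset_closure b.2) h))
      (hp.isOpenMap.comp hV.isOpenMap_subtype_val)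
  have hr : range (fun v : V => p v) = p '' V := by
    ext x
    simp
  let e : V ≃ₜ p '' V := he.isEmbedding.toHomeomorph.trans (Homeomorph.setCongr hr)
  have hev : ∀ v : V, (e v : X) = p v := fun v => rfl
  let gV : V ≃ₜ V := g.subtype (fun x => hg.mem.symm)
  have hx : ∀ x : p '' V, (x : X) = p (e.symm x) := fun x => by
    rw [← hev, e.apply_symm_apply]
  obtain ⟨g', h1, h2⟩ := hEXI X (p '' V) (e.symm.trans (gV.trans e)) (hp.isOpenMap V hV)
    (fun q hq => TRx.bdry p V g hc hg _ (fun x => ⟨e.symm x, (e.symm x).2, hx x, rfl⟩) q hq)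
    (fun q hq => TRx.bdry p V g.symm hc hg.symm _
      (fun x => ⟨e.symm x, (e.symm x).2, hx x, rfl⟩) q hq)
  refine ⟨g', h1, fun x hxV => ?_⟩
  have h3 := h2 (e ⟨x, hxV⟩)
  rw [hev] at h3
  rw [h3]
  simp only [Homeomorph.trans_apply, Homeomorph.symm_apply_apply]
  rfl

end Pool.Agent.P.MP_3ae97d_gt.HM

end partTR

section partTHIN

/-! Step THIN. -/

set_option autoImplicit false
set_option linter.unusedSectionVars false

namespace Pool.Agent.P.MP_3ae97d_gt.HM

open Set Filter Topology Metric Function unitInterval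

namespace THINx

theorem sep {M : Type} [MetricSpace M] {K : Set M} (hK : IsCompact K) (ψ : M ≃ₜ M)
    (h : ∀ x ∈ K, ∀ y ∈ K, x ≠ ψ y) : ∃ N, IsOpen N ∧ K ⊆ N ∧ ∀ v ∈ N, ψ v ∉ N := by
  obtain ⟨G, G', hG, hG', h1, h2, h3⟩ := SeparatedNhds.of_isCompact_isCompact hK
    (hK.image ψ.continuous) (disjoint_left.2 fun x hx ⟨y, hy, e⟩ => h x hx y hy e.symm)
  exact ⟨G ∩ ψ ⁻¹' G', hG.inter (hG'.preimage ψ.continuous),
    fun x hx => ⟨h1 hx, h2 (mem_image_of_mem _ hx)⟩,
    fun v hv hw => disjoint_left.1 h3 hw.1 hv.2⟩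

end THINx

theorem p_THIN (hGEN : S_GEN) (hZPT : S_ZPT) (hNBH : S_NBH) :
    S_THIN := by
  intro M _ O a b ψ hE hD hO hc ha hb hψ
  obtain ⟨γ, hγ⟩ := hE.joined hO hc ha hb
  obtain ⟨c, -, c0, c1, h1, h2, -⟩ := hGEN M {c | ∀ t, c t ∈ O} γ.toContinuousMap
    (range fun p : Bool × Bool => {ψ p.1 (cond p.2 a b)}) (range ψ) hE hD (isOpen_into hO) hγ
    (countable_range _) (by
      rintro _ ⟨p, rfl⟩
      exact ⟨isClosed_singleton, (hZPT M hD).1 _⟩) (countable_range _)
  replace c0 : c 0 = a := c0.trans γ.source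
  replace c1 : c 1 = b := c1.trans γ.target
  have e1 : ∀ k s t, In s → ¬ In t → c s ≠ ψ k (c t) := by
    intro k s t hs ht e
    rcases not_and_or.1 ht with h | h <;> rw [not_not] at h <;> subst h
    · exact h1 _ ⟨(k, true), rfl⟩ s hs (by rw [e, c0]; rfl)
    · exact h1 _ ⟨(k, false), rfl⟩ s hs (by rw [e, c1]; rfl)
  have sy : ∀ k x y, x = ψ k y → y = ψ k x := fun k x y e => by rw [e, ((hψ k).1 y).1]
  have key : ∀ k s t, c s ≠ ψ k (c t) := by
    intro k s t e
    by_cases hst : s = t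
    · subst hst
      exact ((hψ k).1 _).2 e.symm
    by_cases hs : In s
    · by_cases ht : In t
      · exact h2 _ ⟨k, rfl⟩ s t hs ht hst e
      · exact e1 k s t hs ht e
    by_cases ht : In t
    · exact e1 k t s ht hs (sy k _ _ e)
    rcases not_and_or.1 ht with h | h <;> rw [not_not] at h <;> subst h <;>
      rcases not_and_or.1 hs with h | h <;> rw [not_not] at h <;> subst h
    · exact hst rfl
    · exact (hψ k).2 (by rw [← c0, ← c1]; exact sy k _ _ e)
    · exact (hψ k).2 (by rw [← c0, ← c1]; exact e)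
    · exact hst rfl
  have hK := isCompact_range c.continuous
  choose N hN hKN hψN using fun k => THINx.sep hK (ψ k) (by
    rintro _ ⟨s, rfl⟩ _ ⟨t, rfl⟩
    exact key k s t)
  have := hE.locCompact
  have := hE.lpc
  obtain ⟨W, w1, w2, w3, w4, w5⟩ := hNBH M (N true ∩ N false) (range c)
    ((hN true).inter (hN false)) hK (isPreconnected_range c.continuous)
    (subset_inter (hKN true) (hKN false))
  refine ⟨W, w1, w2, w3 ⟨0, c0⟩, w3 ⟨1, c1⟩, w4, fun k v hv hw => ?_⟩
  cases k
  · exact hψN false v (w5 hv).2 (w5 hw).2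
  · exact hψN true v (w5 hv).1 (w5 hw).1

end Pool.Agent.P.MP_3ae97d_gt.HM

end partTHIN

section partMOVE

/-! Step MOVE. -/

set_option autoImplicit false
set_option linter.unusedSectionVars false

namespace Pool.Agent.P.MP_3ae97d_gt.HM

open Set Filter Topology Metric Function unitInterval

theorem p_MOVE (hORB : S_ORB) (hZPT : S_ZPT) :
    S_MOVE := by
  intro M _ τ u hG hτ hj
  have := hG.1.lpc
  have hO : IsOpen (pathComponent u) := IsOpen.pathComponent u
  have u0 : u ∈ pathComponent u := mem_pathComponent_self u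
  have st : ∀ v ∈ pathComponent u, τ v ∈ pathComponent u := fun v hv =>
    hj.trans ⟨(Joined.somePath hv).map τ.continuous⟩
  obtain ⟨o1, o2⟩ := hORB M _ hG hO isPathConnected_pathComponent.isConnected.isPreconnected
  have mv := (o1 u u0).resolve_left fun hf => (hτ u).2 (o2 _ (st u u0) u u0 (fun h hh => by
    have e := hf ((τ.trans h).trans τ) fun z hz => by
      simp only [Homeomorph.trans_apply]
      rw [hh _ fun a => hz ((hτ z).1 ▸ st _ a), (hτ z).1]
    simp only [Homeomorph.trans_apply] at e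
    rw [← (hτ (h (τ u))).1, e]) hf)
  have av : ∀ F : Set M, F.Finite → ∃ h, Sup (pathComponent u) h ∧ h u ∉ F := fun F hF => by
    obtain ⟨x, h1, h2⟩ := (((hZPT M hG.2.1).2 _ hO ⟨u, u0⟩).sdiff hF).nonempty
    exact mv Fᶜ hF.isClosed.isOpen_compl ⟨x, h2, h1⟩
  obtain ⟨h1, s1, n1⟩ := av {u, τ u} (toFinite _)
  simp only [mem_insert_iff, mem_singleton_iff, not_or] at n1
  by_cases c1 : h1 (τ u) = u
  swap
  · exact ⟨h1, s1.mem.2 u0, n1.1, n1.2, c1⟩
  obtain ⟨h2, s2, n2⟩ := av {u, τ u, h1 u} (toFinite _)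
  simp only [mem_insert_iff, mem_singleton_iff, not_or] at n2
  by_cases c2 : h2 (τ u) = u
  swap
  · exact ⟨h2, s2.mem.2 u0, n2.1, n2.2.1, c2⟩
  refine ⟨h2.trans h1.symm, (s2.trans s1.symm).mem.2 u0, fun e => n2.2.2 ?_, fun e => n2.1 ?_,
    fun e => n1.1 ?_⟩ <;> rw [Homeomorph.trans_apply, Homeomorph.symm_apply_eq] at e
  · exact e
  · exact e.trans c1
  · exact e.symm.trans c2

end Pool.Agent.P.MP_3ae97d_gt.HM

end partMOVE

section partNOFIX

/-! Step NOFIX. -/

set_option autoImplicit false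
set_option linter.unusedSectionVars false

namespace Pool.Agent.P.MP_3ae97d_gt.HM

open Set Filter Topology Metric Function unitInterval

namespace NOFIXx

theorem fix (hTR : S_TR) {M X : Type} [MetricSpace M] [MetricSpace X] (p : C(M, X))
    (τ : M ≃ₜ M) (u : M) (V : Set X) (hp : IsLocalHomeomorph p) (hpV : ∀ v, p v ∈ V)
    (hpp : ∀ v w, p v = p w → w = v ∨ w = τ v) (hfix : ∀ h, Sup V h → h (p u) = p u)
    (W : Set M) (hW : IsOpen W) (hc : IsCompact (closure W)) (hu : u ∈ W)
    (ht : ∀ v ∈ closure W, τ v ∉ closure W) (g : M ≃ₜ M) (hg : Sup W g) : g u = u := by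
  have hinj : InjOn p (closure W) := by
    intro v hv w hw h
    rcases hpp v w h with h1 | h1
    · exact h1.symm
    · exact absurd (h1 ▸ hw) (ht v hv)
  obtain ⟨g', h1, h2⟩ := hTR M X p W g hp hW hc hinj hg
  have h3 : Sup V g' := h1.mono (by rintro _ ⟨x, -, rfl⟩; exact hpV x)
  have h4 := hfix g' h3
  rw [h2 u hu] at h4
  exact hinj (subset_closure (hg.mem.2 hu)) (subset_closure hu) h4

end NOFIXx

theorem p_NOFIX (hCOV : S_COV) (hGOOD : S_GOOD) (hMOVE : S_MOVE) (hTHIN : S_THIN) (hTR : S_TR) (hORB : S_ORB) :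
    S_NOFIX := by
  intro X _ V e hX hV hVc he hfix
  obtain ⟨M, _, p, τ, u, hM, hp, hpV, hpu, hτ, hpp, hj⟩ := hCOV X V e hX.1 hX.2.1 hV hVc he
  have hG : Good M := (hGOOD M X p hp).1 hM hX
  obtain ⟨h, hj2, h1, h2, h3⟩ := hMOVE M τ u hG hτ hj
  have := hM.lpc
  have hO : IsOpen (pathComponent u) := IsOpen.pathComponent u
  have hOc : IsPreconnected (pathComponent u) :=
    (isPathConnected_pathComponent (x := u)).isConnected.isPreconnected
  obtain ⟨W, hW, hWc, hu, hhu, hc, hψ⟩ := hTHIN M (pathComponent u) u (h u)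
    (fun b => if b then (h.symm.trans τ).trans h else τ) hM hG.2.1 hO hOc
    (mem_pathComponent_self u) (mem_pathComponent_iff.2 hj2) (by
      intro b
      cases b
      · refine ⟨by simpa using hτ, ?_⟩
        intro h4
        apply h2
        simp only [Bool.false_eq_true, if_false] at h4
        have h5 := congrArg τ h4
        rw [(hτ _).1] at h5
        exact h5.symm
      · refine ⟨fun v => ⟨by simp [(hτ _).1], ?_⟩, ?_⟩
        · intro h4
          simp only [if_true, Homeomorph.trans_apply] at h4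
          apply (hτ (h.symm v)).2
          apply h.injective
          rw [h4, h.apply_symm_apply]
        · intro h4
          simp only [if_true, Homeomorph.trans_apply, Homeomorph.symm_apply_apply] at h4
          exact h3 h4.symm)
  have hf : ∀ g, Sup V g → g (p u) = p u := by rw [hpu]; exact hfix
  have f1 : ∀ g, Sup W g → g u = u :=
    NOFIXx.fix hTR p τ u V hp hpV hpp hf W hW hc hu (by simpa using hψ false)
  have f2 : ∀ g, Sup (h ⁻¹' W) g → g u = u := by
    refine NOFIXx.fix hTR p τ u V hp hpV hpp hf (h ⁻¹' W) (hW.preimage h.continuous) ?_ hhu ?_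
    · rw [← h.preimage_closure]; exact h.isCompact_preimage.2 hc
    · intro v hv
      rw [← h.preimage_closure] at hv ⊢
      have h5 := hψ true (h v) hv
      simpa using h5
  have f3 : ∀ g, Sup W g → g (h u) = h u := by
    intro g hg
    have h5 := f2 ((h.trans g).trans h.symm) (by
      intro z hz
      simp only [Homeomorph.trans_apply]
      rw [hg (h z) hz, h.symm_apply_apply])
    simp only [Homeomorph.trans_apply] at h5
    exact h.symm_apply_eq.1 h5
  exact h1 ((hORB M W hG hW hWc).2 u hu (h u) hhu f1 f3).symm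

end Pool.Agent.P.MP_3ae97d_gt.HM

end partNOFIX

section partLIM0

/-! Step LIM0. -/

set_option autoImplicit false
set_option linter.unusedSectionVars false

namespace Pool.Agent.P.MP_3ae97d_gt.HM

open Set Filter Topology Metric Function unitInterval

theorem p_LIM0 :
    S_LIM0 := by
  classical
  intro M _ x z V' V G ε hG hA hε h1 h2 h3
  have st : ∀ k p, p ∉ V' k → ∀ l, k ≤ l → G l p = G k p := fun k p hp l hl => by
    induction l, hl using Nat.le_induction with
    | base => rfl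
    | succ l hl ih => rw [h3 l p fun h => hp (hA hl h), ih]
  have ex : ∀ p, p ≠ x → ∃ k, p ∉ V' k := fun p hp => by
    obtain ⟨k, hk⟩ := (hε.eventually (gt_mem_nhds (dist_pos.2 hp))).exists
    exact ⟨k, fun h => hk.not_gt ((h1 k).2.1 h)⟩
  let G' : M → M := fun p => if h : p = x then z else G (ex p h).choose p
  have e : ∀ k p, p ∉ V' k → G' p = G k p := fun k p hp => by
    have h : p ≠ x := fun e => hp (e ▸ (h1 k).1)
    simp only [G', dif_neg h]
    rw [← st _ p (ex p h).choose_spec _ (le_max_left _ k), st k p hp _ (le_max_right _ k)]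
  refine ⟨G', TendstoUniformly.continuous (F := G) (p := atTop) ?_ (.of_forall hG),
    dif_pos rfl, e⟩
  refine Metric.tendstoUniformly_iff.2 fun δ hδ => ?_
  filter_upwards [hε.eventually (gt_mem_nhds (half_pos hδ))] with k hk p
  by_cases hp : p ∈ V' k
  · have a1 : dist (G k p) z < ε k := (h1 k).2.2 (h2 k k le_rfl hp)
    have a2 : dist (G' p) z < ε k := by
      by_cases h : p = x
      · simp only [G', dif_pos h, dist_self]
        exact dist_nonneg.trans_lt a1
      · obtain ⟨l, hl⟩ := ex p h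
        rw [e l p hl, ← st l p hl _ (le_max_left l k)]
        exact (h1 k).2.2 (h2 k _ (le_max_right l k) hp)
    linarith [dist_triangle_right (G' p) (G k p) z]
  · rwa [e k p hp, dist_self]

end Pool.Agent.P.MP_3ae97d_gt.HM

end partLIM0

section partLIM

/-! Step LIM. -/

set_option autoImplicit false
set_option linter.unusedSectionVars false

namespace Pool.Agent.P.MP_3ae97d_gt.HM

open Set Filter Topology Metric Function unitInterval

theorem p_LIM (hLIM0 : S_LIM0) :
    S_LIM := by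
  intro M _ x z V G g ε hV hε H
  have hst : ∀ k p, G (k + 1) p = g k (G k p) := fun k p => by
    rw [(H k).2.2.2.2.2, Homeomorph.trans_apply]
  have hsup : ∀ k, Sup (V k) (g k) := fun k => (H k).2.2.2.2.1
  have hoff : ∀ k p, p ∉ G k ⁻¹' V k → G (k + 1) p = G k p := fun k p hp => by
    rw [hst, hsup k _ hp]
  have hanti : Antitone fun k => G k ⁻¹' V k := antitone_nat_of_succ_le fun k p hp => by
    have h1 : g k (G k p) ∈ V k := hV (Nat.le_succ k) (by rw [← hst]; exact hp)
    exact (hsup k).mem.1 h1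
  have hmap : ∀ k l, k ≤ l → MapsTo (G l) (G k ⁻¹' V k) (V k) := fun k l hkl p hp => by
    induction l, hkl using Nat.le_induction with
    | base => exact hp
    | succ l hkl ih =>
      by_cases h : G l p ∈ V l
      · rw [hst]; exact hV hkl ((hsup l).mem.2 h)
      · rw [hoff l p h]; exact ih
  have hstab : ∀ k l, k ≤ l → ∀ p, p ∉ G k ⁻¹' V k → G l p = G k p := fun k l hkl p hp => by
    induction l, hkl using Nat.le_induction with
    | base => rfl
    | succ l hkl ih => rw [hoff l p fun h => hp (hanti hkl h), ih]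
  have hb : ∀ k, G k ⁻¹' V k ⊆ ball x (ε k) := fun k p hp => (H k).2.2.2.1 p hp
  obtain ⟨F, hF, hFx, hFe⟩ := hLIM0 M x z (fun k => G k ⁻¹' V k) V (fun k => G k) ε
    (fun k => (G k).continuous) hanti hε (fun k => ⟨(H k).1, hb k, (H k).2.2.1⟩) hmap hoff
  obtain ⟨F', hF', hFz, hFe'⟩ := hLIM0 M z x V (fun k => G k ⁻¹' V k) (fun k => (G k).symm) ε
    (fun k => (G k).symm.continuous) hV hε (fun k => ⟨(H k).2.1, (H k).2.2.1, hb k⟩)
    (fun k l hkl q hq => by
      by_contra h
      have h1 := hstab k l hkl _ h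
      rw [Homeomorph.apply_symm_apply] at h1
      exact h (show G k _ ∈ V k from h1 ▸ hq))
    (fun k q hq => by
      refine (G (k + 1)).symm_apply_eq.2 ?_
      rw [hst, Homeomorph.apply_symm_apply, hsup k q hq])
  have hex : ∀ a p : M, p ≠ a → ∃ k, p ∉ ball a (ε k) := fun a p hp => by
    obtain ⟨k, hk⟩ := (hε.eventually (gt_mem_nhds (dist_pos.2 hp))).exists
    exact ⟨k, fun h => lt_asymm hk (mem_ball.1 h)⟩
  refine ⟨⟨⟨F, F', fun p => ?_, fun q => ?_⟩, hF, hF'⟩, hFx, fun p hp => hFe 0 p hp⟩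
  · by_cases hp : p = x
    · rw [hp, hFx, hFz]
    · obtain ⟨k, hk⟩ := hex x p hp
      have h1 : p ∉ G k ⁻¹' V k := fun h => hk (hb k h)
      rw [hFe k p h1, hFe' k _ h1, Homeomorph.symm_apply_apply]
  · by_cases hq : q = z
    · rw [hq, hFz, hFx]
    · obtain ⟨k, hk⟩ := hex z q hq
      have h1 : q ∉ V k := fun h => hk ((H k).2.2.1 h)
      rw [hFe' k q h1, hFe k _ (by simpa using h1), Homeomorph.apply_symm_apply]

end Pool.Agent.P.MP_3ae97d_gt.HM

end partLIM

section partBF1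

/-! Step BF1. -/

set_option autoImplicit false
set_option linter.unusedSectionVars false

namespace Pool.Agent.P.MP_3ae97d_gt.HM

open Set Filter Topology Metric Function unitInterval

theorem p_BF1 (hNBH : S_NBH) :
    S_BF1 := by
  intro M _ _ _ V G H x y ε hDO hV hc hx hy hε
  obtain ⟨V1, o1, c1, k1, -, s1⟩ := hNBH M (V ∩ H.symm ⁻¹' ball y ε) {H y}
    (hV.inter (isOpen_ball.preimage H.symm.continuous)) isCompact_singleton isPreconnected_singleton
    (singleton_subset_iff.2 ⟨hy, by simp [hε]⟩)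
  have m1 : H y ∈ V1 := k1 rfl
  have t1 := subset_closure.trans s1
  have u1 : V1 ⊆ V := fun z hz => (t1 hz).1
  obtain ⟨g, g1, g2⟩ := hDO V V1 (G x) hV hc hx o1 ⟨H y, m1, hy⟩
  obtain ⟨V', o2, c2, k2, cp, s2⟩ := hNBH M
    (V1 ∩ ball (g (G x)) (ε / 2) ∩ (fun q => G.symm (g.symm q)) ⁻¹' ball x ε) {g (G x)}
    ((o1.inter isOpen_ball).inter
      (isOpen_ball.preimage (G.symm.continuous.comp g.symm.continuous))) isCompact_singleton
    isPreconnected_singleton (singleton_subset_iff.2 ⟨⟨g2, by simp [hε]⟩, by simp [hε]⟩)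
  have m2 : g (G x) ∈ V' := k2 rfl
  have t2 := subset_closure.trans s2
  obtain ⟨h, h1, h2⟩ := hDO V1 V' (H y) o1 c1 m1 o2 ⟨_, m2, g2⟩
  refine ⟨V', g, h, o2, c2, cp, fun z hz => u1 (s2 hz).1.1, g1, h1.mono u1, m2, h2,
    fun u hu v hv => ?_, fun p hp => ?_, fun p hp => ?_⟩
  · have a := mem_ball.1 (t2 hu).1.2
    have b := mem_ball.1 (t2 hv).1.2
    linarith [dist_triangle_right u v (g (G x))]
  · simpa using (t2 hp).2
  · simpa using (t1 (h1.mem.1 (t2 hp).1.1)).2

end Pool.Agent.P.MP_3ae97d_gt.HM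

end partBF1

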