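import Pool.Agent.P.MP_3ae97d_gt.HM.Iface

section partBF

/-! Step BF. -/

set_option autoImplicit false
set_option linter.unusedSectionVars false

namespace Pool.Agent.P.MP_3ae97d_gt.HM

open Set Filter Topology Metric Function unitInterval

theorem p_BF (hBF1 : S_BF1) (hLIM : S_LIM) :
    S_BF := by
  intro M _ _ _ O x y hDO hO hOc hx hy
  let St := {s : Set M × (M ≃ₜ M) × (M ≃ₜ M) //
    IsOpen s.1 ∧ IsPreconnected s.1 ∧ s.2.1 x ∈ s.1 ∧ s.2.2 y ∈ s.1}
  have step : ∀ (k : ℕ) (s : St), ∃ (s' : St) (g h : M ≃ₜ M), IsCompact (closure s'.1.1) ∧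
      closure s'.1.1 ⊆ s.1.1 ∧ Sup s.1.1 g ∧ Sup s.1.1 h ∧ s'.1.2.1 = s.1.2.1.trans g ∧
      s'.1.2.2 = s.1.2.2.trans h ∧ (∀ u ∈ s'.1.1, ∀ v ∈ s'.1.1, dist u v < 1 / ((k : ℝ) + 1)) ∧
      (∀ p, s'.1.2.1 p ∈ s'.1.1 → dist p x < 1 / ((k : ℝ) + 1)) ∧
      ∀ p, s'.1.2.2 p ∈ s'.1.1 → dist p y < 1 / ((k : ℝ) + 1) := by
    intro k s
    obtain ⟨V', g, h, h1, h2, h3, h4, h5, h6, h7, h8, h9, h10, h11⟩ :=
      hBF1 M s.1.1 s.1.2.1 s.1.2.2 x y (1 / ((k : ℝ) + 1)) hDO s.2.1 s.2.2.1 s.2.2.2.1 s.2.2.2.2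
        Nat.one_div_pos_of_nat
    exact ⟨⟨(V', s.1.2.1.trans g, s.1.2.2.trans h), h1, h2, h7, h8⟩, g, h, h3, h4, h5, h6, rfl,
      rfl, h9, h10, h11⟩
  choose nx g h H using step
  let st : ℕ → St := fun k =>
    Nat.rec ⟨(O, Homeomorph.refl M, Homeomorph.refl M), hO, hOc, hx, hy⟩ (fun k s => nx k s) k
  have H' := fun k => H k (st k)
  let V : ℕ → Set M := fun k => (st k).1.1
  have hsub : ∀ k, closure (V (k + 1)) ⊆ V k := fun k => (H' k).2.1
  have hanti : Antitone V := antitone_nat_of_succ_le fun k => subset_closure.trans (hsub k)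
  obtain ⟨z, hz⟩ := IsCompact.nonempty_iInter_of_sequence_nonempty_isCompact_isClosed
    (fun k => closure (V (k + 1))) (fun k => (hsub (k + 1)).trans subset_closure)
    (fun k => ⟨_, subset_closure (st (k + 1)).2.2.2.1⟩) (H' 0).1 fun k => isClosed_closure
  have hzV : ∀ k, z ∈ V k := fun k => hsub k (mem_iInter.1 hz k)
  have hball : ∀ k, V (k + 1) ⊆ ball z (1 / ((k : ℝ) + 1)) := fun k u hu =>
    (H' k).2.2.2.2.2.2.1 u hu z (hzV (k + 1))
  have hA : Antitone fun k => V (k + 1) := fun a b e => hanti (Nat.succ_le_succ e)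
  obtain ⟨G', g1, g2⟩ := hLIM M x z (fun k => V (k + 1)) (fun k => (st (k + 1)).1.2.1)
    (fun k => g (k + 1) (st (k + 1))) (fun k => 1 / ((k : ℝ) + 1)) hA
    tendsto_one_div_add_atTop_nhds_zero_nat fun k => ⟨(st (k + 1)).2.2.2.1, hzV (k + 1), hball k,
      (H' k).2.2.2.2.2.2.2.1, (H' (k + 1)).2.2.1, (H' (k + 1)).2.2.2.2.1⟩
  obtain ⟨H₁, h1, h2⟩ := hLIM M y z (fun k => V (k + 1)) (fun k => (st (k + 1)).1.2.2)
    (fun k => h (k + 1) (st (k + 1))) (fun k => 1 / ((k : ℝ) + 1)) hA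
    tendsto_one_div_add_atTop_nhds_zero_nat fun k => ⟨(st (k + 1)).2.2.2.2, hzV (k + 1), hball k,
      (H' k).2.2.2.2.2.2.2.2, (H' (k + 1)).2.2.2.1, (H' (k + 1)).2.2.2.2.2.1⟩
  have h01 : V 1 ⊆ O := hanti (Nat.zero_le 1)
  have sG : Sup O G' := fun p hp => by
    have e : (st 1).1.2.1 p = p := by
      have := (H' 0).2.2.2.2.1
      exact (congrArg (fun u : M ≃ₜ M => u p) this).trans ((H' 0).2.2.1 p hp)
    exact (g2 p fun a => hp (h01 (e ▸ a))).trans e
  have sH : Sup O H₁ := fun p hp => by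
    have e : (st 1).1.2.2 p = p := by
      have := (H' 0).2.2.2.2.2.1
      exact (congrArg (fun u : M ≃ₜ M => u p) this).trans ((H' 0).2.2.2.1 p hp)
    exact (h2 p fun a => hp (h01 (e ▸ a))).trans e
  exact ⟨G'.trans H₁.symm, sG.trans sH.symm, by
    rw [Homeomorph.trans_apply, g1, ← h1, Homeomorph.symm_apply_apply]⟩

end Pool.Agent.P.MP_3ae97d_gt.HM

end partBF

section partMAIN

/-! Step MAIN. -/

set_option autoImplicit false
set_option linter.unusedSectionVars false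

namespace Pool.Agent.P.MP_3ae97d_gt.HM

open Set Filter Topology Metric Function unitInterval

theorem p_MAIN (hORB : S_ORB) (hNOFIX : S_NOFIX) (hBF : S_BF) :
    S_MAIN := by
  intro X _ O x y hX hO hc hx hy
  have := hX.1.metrizable
  let := TopologicalSpace.metrizableSpaceMetric X
  have := hX.1.locCompact
  have := hX.1.lpc
  refine hBF X O x y (fun O V x hO hc hx hV hne => ?_) hO hc hx hy
  exact ((hORB X O hX hO hc).1 x hx).elim (fun h => (hNOFIX X O x hX hO hc hx h).elim)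
    fun h => h V hV hne

end Pool.Agent.P.MP_3ae97d_gt.HM

end partMAIN

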