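import Pool.Agent.P.MP_3ae97d_gt.HM.B1
import Pool.Agent.P.MP_3ae97d_gt.HM.B2
import Pool.Agent.P.MP_3ae97d_gt.HM.B3
import Pool.Agent.P.MP_3ae97d_gt.HM.B4
import Pool.Agent.P.MP_3ae97d_gt.HM.B5
import Pool.Agent.P.MP_3ae97d_gt.HM.B6
import Pool.Agent.P.MP_3ae97d_gt.HM.B7

/-! All steps together. -/

set_option autoImplicit false

namespace Pool.Agent.P.MP_3ae97d_gt.HM

theorem q_NBH : S_NBH := p_NBH
theorem q_INT : S_INT := p_INT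
theorem q_SEP : S_SEP := p_SEP
theorem q_GEN1 : S_GEN1 := p_GEN1 q_SEP
theorem q_GEN0 : S_GEN0 := p_GEN0 q_GEN1
theorem q_ZI : S_ZI := p_ZI
theorem q_ZPT : S_ZPT := p_ZPT
theorem q_ZUN : S_ZUN := p_ZUN
theorem q_GEN : S_GEN := p_GEN q_INT q_GEN0 q_ZI q_ZPT q_ZUN
theorem q_ARC : S_ARC := p_ARC q_GEN q_ZPT
theorem q_OPEN : S_OPEN := p_OPEN
theorem q_LL : S_LL := p_LL
theorem q_GOOD : S_GOOD := p_GOOD q_LL
theorem q_QUO : S_QUO := p_QUO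
theorem q_PERF : S_PERF := p_PERF
theorem q_BES : S_BES := p_BES
theorem q_FD0 : S_FD0 := p_FD0
theorem q_FD : S_FD := p_FD q_BES q_FD0
theorem q_DDPY : S_DDPY := p_DDPY
theorem q_COLD : S_COLD := p_COLD q_BES
theorem q_LIFT1 : S_LIFT1 := p_LIFT1
theorem q_LIFT : S_LIFT := p_LIFT q_COLD q_LIFT1
theorem q_EXT : S_EXT := p_EXT
theorem q_APP : S_APP := p_APP q_QUO q_PERF q_FD q_DDPY q_LIFT q_EXT q_ZUN
theorem q_EXI : S_EXI := p_EXI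
theorem q_TAP0 : S_TAP0 := p_TAP0
theorem q_TAP : S_TAP := p_TAP q_EXI q_TAP0
theorem q_COL : S_COL := p_COL q_OPEN q_GOOD q_APP q_TAP
theorem q_MERGE : S_MERGE := p_MERGE q_COL
theorem q_D2P : S_D2P := p_D2P
theorem q_REC : S_REC := p_REC
theorem q_D2R : S_D2R := p_D2R q_ARC q_REC
theorem q_D2A : S_D2A := p_D2A q_D2P q_D2R
theorem q_D1 : S_D1 := p_D1 q_ARC q_MERGE
theorem q_D2 : S_D2 := p_D2 q_NBH q_D2A q_COL q_D1
theorem q_DI : S_DI := p_DI q_NBH q_ARC q_MERGE q_D2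
theorem q_ORB : S_ORB := p_ORB q_DI q_ZPT
theorem q_COV1 : S_COV1 := p_COV1 q_ARC q_ZPT
theorem q_COV2 : S_COV2 := p_COV2
theorem q_COV3 : S_COV3 := p_COV3
theorem q_COV : S_COV := p_COV q_COV1 q_COV2 q_COV3
theorem q_MOVE : S_MOVE := p_MOVE q_ORB q_ZPT
theorem q_THIN : S_THIN := p_THIN q_GEN q_ZPT q_NBH
theorem q_TR : S_TR := p_TR q_EXI
theorem q_NOFIX : S_NOFIX := p_NOFIX q_COV q_GOOD q_MOVE q_THIN q_TR q_ORB
theorem q_BF1 : S_BF1 := p_BF1 q_NBH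
theorem q_LIM0 : S_LIM0 := p_LIM0
theorem q_LIM : S_LIM := p_LIM q_LIM0
theorem q_BF : S_BF := p_BF q_BF1 q_LIM
theorem q_MAIN : S_MAIN := p_MAIN q_ORB q_NOFIX q_BF

end Pool.Agent.P.MP_3ae97d_gt.HM
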