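import Pool.Agent.P.MP_3ae97d_gt.HM.Iface

section partSEP

/-! Step SEP. -/

set_option autoImplicit false
set_option linter.unusedSectionVars false

namespace Pool.Agent.P.MP_3ae97d_gt.HM

open Set Filter Topology Metric Function unitInterval

theorem SEPx.uc {A B : Type} [PseudoMetricSpace A] [PseudoMetricSpace B] {K : Set A}
    (hK : IsCompact K) {f : A → B} (hf : ∀ a ∈ K, ContinuousAt f a) {ε : ℝ} (hε : 0 < ε) :
    ∃ δ > 0, ∀ x ∈ K, ∀ y, dist x y < δ → dist (f x) (f y) < ε := by
  obtain ⟨δ, h1, h2⟩ := mem_uniformity_dist.1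
    (hK.uniformContinuousAt_of_continuousAt f hf (dist_mem_uniformity hε))
  exact ⟨δ, h1, fun x hx y h => h2 h hx⟩

theorem p_SEP :
    S_SEP := by
  intro M T T₀ _ _ _ _ _ _ j hM hj
  rcases isEmpty_or_nonempty T with hT | ⟨⟨t₀⟩⟩
  · have := j.1.isEmpty
    exact fun _ _ => isOpen_discrete _
  refine isOpenMap_iff_nhds_le.2 fun a => (nhds_basis_ball.map _).ge_iff.2 fun ε hε => ?_
  obtain ⟨m, N, i, r, hN, hi, hr, h1, h2⟩ := hM.fn (a t₀)
  have hK := isCompact_range (hi.continuous.comp a.continuous)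
  obtain ⟨η₁, p1, e1⟩ := SEPx.uc hK (fun x hx => by
    obtain ⟨t, rfl⟩ := hx
    exact hr.continuousAt (hN.mem_nhds (h1 _))) hε
  obtain ⟨η₂, p2, e2⟩ := hK.exists_thickening_subset_open hN (range_subset_iff.2 fun t => h1 _)
  obtain ⟨δ, p3, e3⟩ := SEPx.uc (isCompact_range a.continuous)
    (fun x _ => hi.continuous.continuousAt) (lt_min p1 p2)
  refine mem_of_superset (ball_mem_nhds _ p3) fun b hb => ?_
  have := instTietzeExtensionBall.{0} (𝕜 := ℝ) (E := EuclideanSpace ℝ (Fin m)) (lt_min p1 p2)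
  have h0 : ∀ t, i (a (j t)) - i (b t) ∈ ball 0 (min η₁ η₂) := fun t => by
    rw [mem_ball_zero_iff, ← dist_eq_norm]
    exact e3 _ ⟨_, rfl⟩ _ ((ContinuousMap.dist_lt_iff p3).1 (mem_ball'.1 hb) t)
  obtain ⟨v, hv⟩ := ContinuousMap.exists_extension (j.continuous.isClosedEmbedding hj)
    (⟨fun t => ⟨_, h0 t⟩, Continuous.subtype_mk (by have := hi.continuous; fun_prop) h0⟩ :
      C(T₀, ball (0 : EuclideanSpace ℝ (Fin m)) (min η₁ η₂)))
  have h3 : ∀ t, dist (i (a t)) (i (a t) - v t) < min η₁ η₂ := fun t => by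
    rw [dist_eq_norm, sub_sub_cancel]
    exact mem_ball_zero_iff.1 (v t).2
  refine ⟨⟨fun t => r (i (a t) - v t), hr.comp_continuous (by have := hi.continuous; fun_prop)
    fun t => e2 (mem_thickening_iff.2 ⟨_, ⟨t, rfl⟩, dist_comm (i (a t)) _ ▸
      (h3 t).trans_le (min_le_right _ _)⟩)⟩,
    mem_ball'.2 ((ContinuousMap.dist_lt_iff hε).2 fun t => ?_), ContinuousMap.ext fun t => ?_⟩
  · simpa [h2] using e1 _ ⟨t, rfl⟩ _ ((h3 t).trans_le (min_le_left _ _))
  · have h4 : (v (j t)).1 = i (a (j t)) - i (b t) := congrArg (fun g => (g t).1) hv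
    simp [h4, h2]

end Pool.Agent.P.MP_3ae97d_gt.HM

end partSEP

section partLL

/-! Step LL. -/

set_option autoImplicit false
set_option linter.unusedSectionVars false

namespace Pool.Agent.P.MP_3ae97d_gt.HM

open Set Filter Topology Metric Function unitInterval

theorem p_LL :
    S_LL := by
  intro M' M T _ _ _ _ p hp
  rw [isOpenMap_iff_nhds_le]
  intro a s hs
  rw [mem_map] at hs
  obtain ⟨ε, hε, hsub⟩ := Metric.mem_nhds_iff.1 hs
  let P : M' × M' → M' × M := Prod.map id p
  have Pc : Continuous P := continuous_id.prodMap p.continuous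
  have Po : IsOpenMap P := IsOpenMap.id.prodMap hp.isOpenMap
  have Kc : IsCompact (range fun t => (a t, a t)) := isCompact_range (by fun_prop)
  obtain ⟨O, hO, hKO, hinj⟩ := Set.InjOn.exists_isOpen_superset (f := P)
    (s := range fun t => (a t, a t))
    (by
      rintro _ ⟨t, rfl⟩ _ ⟨t', rfl⟩ h
      have : a t = a t' := congrArg Prod.fst h
      simp [this]) Kc (fun x _ => Pc.continuousAt)
    (by
      intro x _
      obtain ⟨U, hU, hx, hi⟩ := hp.isLocallyInjective x.2
      refine ⟨univ ×ˢ U, prod_mem_nhds univ_mem (hU.mem_nhds hx), fun y hy z hz h => ?_⟩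
      have h1 : y.1 = z.1 := by
        have := congrArg Prod.fst h
        exact this
      have h2 : p y.2 = p z.2 := by
        have := congrArg Prod.snd h
        exact this
      exact Prod.ext h1 (hi hy.2 hz.2 h2))
  set Ω : Set (M' × M') := O ∩ {x | dist x.2 x.1 < ε} with hΩ
  have Ωo : IsOpen Ω := hO.inter (isOpen_lt (by fun_prop) continuous_const)
  have Ωi : InjOn P Ω := hinj.mono inter_subset_left
  have hK : range (fun t => (a t, p (a t))) ⊆ P '' Ω := by
    rintro _ ⟨t, rfl⟩
    exact ⟨(a t, a t), ⟨hKO ⟨t, rfl⟩, by simpa using hε⟩, rfl⟩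
  obtain ⟨δ, hδ, hth⟩ := (isCompact_range (f := fun t => (a t, p (a t)))
    (by fun_prop)).exists_thickening_subset_open (Po Ω Ωo) hK
  refine mem_of_superset (ball_mem_nhds _ hδ) fun b hb => ?_
  have hb' : ∀ t, (a t, b t) ∈ P '' Ω := fun t => hth <| mem_thickening_iff.2
    ⟨_, ⟨t, rfl⟩, by
      rw [Prod.dist_eq, dist_self]
      exact max_lt hδ ((ContinuousMap.dist_lt_iff hδ).1 hb t)⟩
  rcases isEmpty_or_nonempty T with hT | hT
  · have : b = p.comp a := ContinuousMap.ext fun t => hT.elim t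
    rw [this]
    exact hsub (mem_ball_self hε)
  have : Nonempty (M' × M') := ⟨(a hT.some, a hT.some)⟩
  have gc : ContinuousOn (invFunOn P Ω) (P '' Ω) :=
    (Po.domRestrict Ωo).continuousOn_image_of_leftInvOn Ωi.leftInvOn_invFunOn
  let a' : C(T, M') := ⟨fun t => (invFunOn P Ω (a t, b t)).2,
    continuous_snd.comp (gc.comp_continuous (by fun_prop) hb')⟩
  have h1 : ∀ t, P (invFunOn P Ω (a t, b t)) = (a t, b t) := fun t => invFunOn_eq (hb' t)
  have h2 : ∀ t, invFunOn P Ω (a t, b t) ∈ Ω := fun t => invFunOn_mem (hb' t)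
  have e : b = p.comp a' := ContinuousMap.ext fun t => (congrArg Prod.snd (h1 t)).symm
  rw [e]
  refine hsub ((ContinuousMap.dist_lt_iff hε).2 fun t => ?_)
  have h3 : (invFunOn P Ω (a t, b t)).1 = a t := congrArg Prod.fst (h1 t)
  have h4 := (h2 t).2
  change dist _ (invFunOn P Ω (a t, b t)).1 < ε at h4
  rw [h3] at h4
  exact h4

end Pool.Agent.P.MP_3ae97d_gt.HM

end partLL

section partGOOD

/-! Step GOOD. -/

set_option autoImplicit false
set_option linter.unusedSectionVars false

namespace Pool.Agent.P.MP_3ae97d_gt.HM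

open Set Filter Topology Metric Function unitInterval

theorem p_GOOD (hLL : S_LL) :
    S_GOOD := by
  intro M' M _ _ p hp
  have ho := hLL M' M Sq p hp
  refine ⟨fun hE hG => ⟨hE, ?_, ?_⟩, fun S hS => ?_⟩
  · have h1 := Dense.preimage hG.2.1 (ho.prodMap ho)
    refine Dense.mono (fun a ha => ?_) h1
    refine disjoint_left.2 ?_
    rintro z ⟨s, hs⟩ ⟨t, ht⟩
    have h2 : Disjoint (range (p.comp a.1)) (range (p.comp a.2)) := ha
    refine disjoint_left.1 h2 (mem_range_self s) ⟨t, ?_⟩
    simp only [ContinuousMap.comp_apply, hs, ht]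
  · intro X' Y _ _ _ _ _ q f h1 h2 h3 h4 h5 h6
    exact hG.2.2 X' Y (p ∘ q) f h1 h2 (hp.comp h3) h4 h5 h6
  · have h1 := Dense.preimage hS ho
    refine Dense.mono (fun a ha => ?_) h1
    refine disjoint_left.2 ?_
    rintro z ⟨s, hs⟩ hz
    have h2 : Disjoint (range (p.comp a)) S := ha
    refine disjoint_left.1 h2 (mem_range_self s) ?_
    simp only [ContinuousMap.comp_apply, hs]
    exact hz

end Pool.Agent.P.MP_3ae97d_gt.HM

end partGOOD

section partOPEN

/-! Step OPEN. -/

set_option autoImplicit false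
set_option linter.unusedSectionVars false

namespace Pool.Agent.P.MP_3ae97d_gt.HM

open Set Filter Topology Metric Function unitInterval

theorem p_OPEN :
    S_OPEN := by
  rintro M _ U ⟨m, N, i, r, hN, hr⟩ hU
  have key : ∀ v : (Subtype.val '' (r ⁻¹' U) : Set (EuclideanSpace ℝ (Fin m))),
      ∃ h : v.1 ∈ N, r ⟨v.1, h⟩ ∈ U := by
    rintro ⟨_, w, hw, rfl⟩
    exact ⟨w.2, hw⟩
  choose k1 k2 using key
  exact ENR.of (hN.isOpenMap_subtype_val _ (hU.preimage r.continuous)) (fun x => (i x.1).1)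
    (fun v => ⟨r ⟨v.1, k1 v⟩, k2 v⟩) (by fun_prop) (by fun_prop)
    (fun x => ⟨i x.1, by rw [mem_preimage, hr]; exact x.2, rfl⟩) fun x => Subtype.ext (hr x.1)

end Pool.Agent.P.MP_3ae97d_gt.HM

end partOPEN

section partEXT

/-! Step EXT. -/

set_option autoImplicit false
set_option linter.unusedSectionVars false

namespace Pool.Agent.P.MP_3ae97d_gt.HM

open Set Filter Topology Metric Function unitInterval

namespace EXTx

theorem seg_open {T E : Type} [TopologicalSpace T] [NormedAddCommGroup E] [NormedSpace ℝ E]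
    {p q : T → E} (hp : Continuous p) (hq : Continuous q) {W : Set E} (hW : IsOpen W) :
    IsOpen {t | ∀ u ∈ Icc (0 : ℝ) 1, (1 - u) • p t + u • q t ∈ W} := by
  refine isOpen_iff_mem_nhds.2 fun t ht => ?_
  refine isCompact_Icc.eventually_forall_of_forall_eventually
    (P := fun t u => (1 - u) • p t + u • q t ∈ W) fun u hu => ?_
  have hc : Continuous fun z : T × ℝ => (1 - z.2) • p z.1 + z.2 • q z.1 := by fun_prop
  exact hc.continuousAt.eventually_mem (hW.mem_nhds (ht u hu))

theorem ext_on {Y : Type} [TopologicalSpace Y] [TietzeExtension.{0} Y] {C : Set Sq}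
    (hC : IsClosed C) {f : Sq → Y} (hf : ContinuousOn f C) : ∃ g : C(Sq, Y), EqOn g f C := by
  obtain ⟨g, hg⟩ := ContinuousMap.exists_restrict_eq hC
    (⟨C.domRestrict f, hf.domRestrict⟩ : C(C, Y))
  exact ⟨g, fun t ht => DFunLike.congr_fun hg ⟨t, ht⟩⟩

theorem sigma {M : Type} [MetricSpace M] (c : C(I, M)) (hc : Injective c ∨ ∀ t, c t = c 0) :
    ∃ s : C(M, ℝ), ∀ t, c (projIcc 0 1 zero_le_one (s (c t))) = c t := by
  rcases hc with hc | hc
  · obtain ⟨s, hs⟩ := ContinuousMap.exists_extension'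
      (c.continuous.isClosedEmbedding hc) (⟨Subtype.val, continuous_subtype_val⟩ : C(I, ℝ))
    refine ⟨s, fun t => ?_⟩
    have e : s (c t) = t := congrFun hs t
    rw [e, projIcc_val]
  · exact ⟨0, fun t => (hc _).trans (hc t).symm⟩

end EXTx

open EXTx in
theorem p_EXT :
    S_EXT := by
  intro M _ c W hM hc hW hcW
  obtain ⟨m, N, i, r, hN, hi, hr, hiN, hri⟩ := hM.fn (c 0)
  have : TietzeExtension.{0} (EuclideanSpace ℝ (Fin m)) :=
    RCLike.instTietzeExtensionTVS (𝕜 := ℝ)
  obtain ⟨s, hs⟩ := sigma c hc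
  have hW' : IsOpen (N ∩ r ⁻¹' W) := hr.isOpen_inter_preimage hN hW
  set k : ℝ → EuclideanSpace ℝ (Fin m) := fun x => i (c (projIcc 0 1 zero_le_one x)) with hk
  have hkc : Continuous k := hi.continuous.comp (c.continuous.comp continuous_projIcc)
  have hkW : ∀ x, k x ∈ N ∩ r ⁻¹' W := fun x =>
    ⟨hiN _, by simpa [hk, hri] using hcW (mem_range_self _)⟩
  refine ⟨_, seg_open hi.continuous (hkc.comp s.continuous) hW', ?_, ?_⟩
  · rintro _ ⟨t, rfl⟩ u -
    have e : (1 - u) • i (c t) + u • (k ∘ s) (c t) = k (s (c t)) := by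
      simp only [comp, hk, hs, ← add_smul]
      simp
    rw [e]
    exact hkW _
  intro C a hC ha haV
  obtain ⟨A, hA⟩ := ext_on hC (hi.continuous.comp_continuousOn ha)
  obtain ⟨B, hB⟩ := ext_on hC (s.continuous.comp_continuousOn ha)
  have hO := seg_open A.continuous (hkc.comp B.continuous) hW'
  obtain ⟨u, hu0, hu1, hu⟩ := exists_continuous_zero_one_of_isClosed hC hO.isClosed_compl
    (disjoint_compl_right_iff_subset.2 fun t ht v hv => by
      simpa only [hA ht, comp, hB ht] using haV ht v hv)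
  have hmem : ∀ t, (1 - u t) • A t + u t • k (B t) ∈ N ∩ r ⁻¹' W := fun t => by
    by_cases ht : t ∈ {t | ∀ v ∈ Icc (0 : ℝ) 1, (1 - v) • A t + v • (k ∘ B) t ∈ N ∩ r ⁻¹' W}
    · exact ht _ (hu t)
    · have e : u t = 1 := hu1 ht
      simpa [e] using hkW (B t)
  refine ⟨⟨fun t => r ((1 - u t) • A t + u t • k (B t)),
    hr.comp_continuous (by fun_prop) fun t => (hmem t).1⟩, fun t ht => ?_, fun t => (hmem t).2⟩
  have e : u t = 0 := hu0 ht
  simp [e, hA ht, hri]

end Pool.Agent.P.MP_3ae97d_gt.HM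

end partEXT

section partNBH

/-! Step NBH. -/

set_option autoImplicit false
set_option linter.unusedSectionVars false

namespace Pool.Agent.P.MP_3ae97d_gt.HM

open Set Filter Topology Metric Function unitInterval

theorem p_NBH :
    S_NBH := by
  intro M _ _ _ O K hO hK hc hKO
  rcases K.eq_empty_or_nonempty with rfl | ⟨x, hx⟩
  · exact ⟨∅, isOpen_empty, isPreconnected_empty, Subset.rfl, by simp, by simp⟩
  obtain ⟨L, hL, h1, h2⟩ := exists_compact_between hK hO hKO
  have h3 : closure (connectedComponentIn (interior L) x) ⊆ L :=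
    closure_minimal ((connectedComponentIn_subset _ _).trans interior_subset) hL.isClosed
  exact ⟨_, isOpen_interior.connectedComponentIn, isPreconnected_connectedComponentIn,
    hc.subset_connectedComponentIn hx h1, hL.of_isClosed_subset isClosed_closure h3, h3.trans h2⟩

end Pool.Agent.P.MP_3ae97d_gt.HM

end partNBH

section partZPT

/-! Step ZPT. -/

set_option autoImplicit false
set_option linter.unusedSectionVars false

namespace Pool.Agent.P.MP_3ae97d_gt.HM

open Set Filter Topology Metric Function unitInterval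

namespace ZPTx

theorem zs {M : Type} [MetricSpace M] (h : DDP M) (x : M) : Zs ({x} : Set M) := by
  refine dense_iff_inter_open.2 fun N hN hne => ?_
  obtain ⟨p, ⟨h1, h2⟩, h3⟩ := dense_iff_inter_open.1 h (N ×ˢ N) (hN.prod hN) (hne.prod hne)
  by_cases hx : x ∈ range p.1
  · exact ⟨p.2, h2, disjoint_singleton_right.2 fun hy => disjoint_left.1 h3 hx hy⟩
  · exact ⟨p.1, h1, disjoint_singleton_right.2 hx⟩

end ZPTx

theorem p_ZPT :
    S_ZPT := by
  intro M _ h
  refine ⟨ZPTx.zs h, fun O hO ⟨x, hx⟩ hf => ?_⟩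
  have h1 : IsOpen ({x} : Set M) := by
    have h2 : IsClosed (O \ {x}) := (hf.subset sdiff_subset).isClosed
    have h3 : ({x} : Set M) = O ∩ (O \ {x})ᶜ := by
      ext y
      constructor
      · rintro rfl
        exact ⟨hx, fun a => a.2 rfl⟩
      · rintro ⟨a, b⟩
        by_contra c
        exact b ⟨a, c⟩
    rw [h3]
    exact hO.inter h2.isOpen_compl
  obtain ⟨a, h4, h5⟩ := dense_iff_inter_open.1 (ZPTx.zs h x) _ (isOpen_into (T := Sq) h1)
    ⟨ContinuousMap.const _ x, fun _ => rfl⟩
  exact disjoint_left.1 h5 (mem_range_self (0, 0)) (h4 _)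

end Pool.Agent.P.MP_3ae97d_gt.HM

end partZPT

section partZUN

/-! Step ZUN. -/

set_option autoImplicit false
set_option linter.unusedSectionVars false

namespace Pool.Agent.P.MP_3ae97d_gt.HM

open Set Filter Topology Metric Function unitInterval

theorem p_ZUN :
    S_ZUN := by
  intro M _ 𝒮 hM hc h
  have := hM.baire Sq
  refine (dense_biInter_of_isOpen (f := fun S => {a : C(Sq, M) | Disjoint (range a) S})
    (fun S hS => isOpen_miss (h S hS).1) hc fun S hS => (h S hS).2).mono fun a ha => ?_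
  exact disjoint_sUnion_right.2 fun S hS => mem_iInter₂.1 ha S hS

end Pool.Agent.P.MP_3ae97d_gt.HM

end partZUN

section partZI

/-! Step ZI. -/

set_option autoImplicit false
set_option linter.unusedSectionVars false

namespace Pool.Agent.P.MP_3ae97d_gt.HM

open Set Filter Topology Metric Function unitInterval

namespace ZIx

/-- The first projection of the square. -/
def pr : C(Sq, I) := ⟨Prod.fst, continuous_fst⟩

/-- The bottom side of the square. -/
def inc : C(I, Sq) := ⟨fun t => (t, 0), by fun_prop⟩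

variable {M : Type} [TopologicalSpace M]

/-- Restriction to the bottom side. -/
def res (a : C(Sq, M)) : C(I, M) := a.comp inc

theorem res_cont : Continuous (res (M := M)) := ContinuousMap.continuous_precomp inc

theorem res_surj : Surjective (res (M := M)) := fun b => ⟨b.comp pr, by ext t; rfl⟩

theorem range_res (a : C(Sq, M)) : range (res a) ⊆ range a := by
  rintro _ ⟨t, rfl⟩
  exact ⟨inc t, rfl⟩

end ZIx

open ZIx in
theorem p_ZI :
    S_ZI := by
  intro M _
  refine ⟨fun S hS => ?_, fun hD φ => ⟨?_, ?_⟩, fun hD 𝒩 hN hne => ⟨?_, ?_⟩⟩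
  · refine Dense.mono ?_ (res_surj.denseRange.dense_image res_cont hS)
    rintro _ ⟨a, ha, rfl⟩
    exact Disjoint.mono_left (range_res a) ha
  · have hc : Continuous fun b : C(I, M) × C(I, M) =>
        (b.1, (φ : C(M, M)).comp b.2) :=
      continuous_fst.prodMk ((ContinuousMap.continuous_postcomp _).comp continuous_snd)
    convert (isOpen_disj (M := M) (T := I) (T' := I)).preimage hc using 1
    ext b
    simp only [mem_ofPred_eq, mem_preimage, disjoint_range_iff]
    rfl
  · have hc : Continuous fun a : C(Sq, M) × C(Sq, M) =>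
        (res a.1, (φ.symm : C(M, M)).comp (res a.2)) :=
      (res_cont.comp continuous_fst).prodMk
        ((ContinuousMap.continuous_postcomp _).comp (res_cont.comp continuous_snd))
    have hs : Surjective fun a : C(Sq, M) × C(Sq, M) =>
        (res a.1, (φ.symm : C(M, M)).comp (res a.2)) := by
      rintro ⟨b₁, b₂⟩
      obtain ⟨a₁, rfl⟩ := res_surj b₁
      obtain ⟨a₂, h₂⟩ := res_surj ((φ : C(M, M)).comp b₂)
      refine ⟨(a₁, a₂), Prod.ext rfl ?_⟩
      ext t
      simp [h₂]
    refine Dense.mono ?_ (hs.denseRange.dense_image hc hD)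
    rintro _ ⟨a, ha, rfl⟩ s t
    have := disjoint_range_iff.1 ha (inc s) (inc t)
    simpa [res] using this
  · refine isOpen_iff_forall_mem_open.2 ?_
    rintro b ⟨a, ha, hab⟩
    refine ⟨{b | Disjoint (range b) (range a)}, fun b' hb' => ⟨a, ha, hb'.symm⟩,
      isOpen_miss (isCompact_range a.continuous).isClosed, hab.symm⟩
  · refine dense_iff_inter_open.2 fun B hB hBne => ?_
    obtain ⟨b, hb⟩ := hBne
    obtain ⟨a₂, rfl⟩ := res_surj b
    obtain ⟨a₁, ha₁⟩ := hne
    obtain ⟨p, hp, hp'⟩ := hD.inter_open_nonempty (𝒩 ×ˢ (res ⁻¹' B))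
      (hN.prod (hB.preimage res_cont)) ⟨(a₁, a₂), ha₁, hb⟩
    exact ⟨res p.2, hp.2, p.1, hp.1, Disjoint.mono_right (range_res _) hp'⟩

end Pool.Agent.P.MP_3ae97d_gt.HM

end partZI

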