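import Pool.Agent.P.MP_3ae97d_gt.HM.Defs

/-! Basic notions and small lemmas for the homogeneity criterion. -/

set_option autoImplicit false

namespace Pool.Agent.P.MP_3ae97d_gt.HM

open Set Filter Topology Metric Function unitInterval

/-- The square. -/
abbrev Sq : Type := I × I

section enr
variable {M : Type} [TopologicalSpace M]

theorem ENR.emb (h : ENR M) : ∃ (m : ℕ) (N : Set (EuclideanSpace ℝ (Fin m))) (i : C(M, N))
    (r : C(N, M)), IsOpen N ∧ (∀ x, r (i x) = x) ∧ IsClosedEmbedding i := by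
  obtain ⟨m, N, i, r, hN, hr⟩ := h
  exact ⟨m, N, i, r, hN, hr, LeftInverse.isClosedEmbedding hr r.continuous i.continuous⟩

theorem ENR.metrizable (h : ENR M) : TopologicalSpace.MetrizableSpace M := by
  obtain ⟨m, N, i, r, -, -, he⟩ := h.emb
  exact he.isEmbedding.metrizableSpace

theorem ENR.second (h : ENR M) : SecondCountableTopology M := by
  obtain ⟨m, N, i, r, -, -, he⟩ := h.emb
  exact he.isEmbedding.secondCountableTopology

theorem ENR.locCompact (h : ENR M) : LocallyCompactSpace M := by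
  obtain ⟨m, N, i, r, hN, -, he⟩ := h.emb
  have := hN.locallyCompactSpace
  exact he.locallyCompactSpace

theorem ENR.polish (h : ENR M) : PolishSpace M := by
  obtain ⟨m, N, i, r, hN, -, he⟩ := h.emb
  have := hN.polishSpace
  exact he.polishSpace

theorem ENR.lpc (h : ENR M) : LocallyPathConnectedSpace M := by
  obtain ⟨m, N, i, r, hN, hr⟩ := h
  have := hN.locallyPathConnectedSpace
  exact (IsQuotientMap.of_inverse i.continuous r.continuous hr).locallyPathConnectedSpace

theorem ENR.cm (h : ENR M) (T : Type) [TopologicalSpace T] [CompactSpace T] :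
    TopologicalSpace.IsCompletelyMetrizableSpace C(T, M) := by
  have := h.polish
  let := TopologicalSpace.upgradeIsCompletelyMetrizable M
  infer_instance

theorem ENR.baire (h : ENR M) (T : Type) [TopologicalSpace T] [CompactSpace T] :
    BaireSpace C(T, M) := by
  have := h.cm T
  infer_instance

theorem ENR.baire_closed (h : ENR M) {T : Type} [TopologicalSpace T] [CompactSpace T]
    {s : Set C(T, M)} (hs : IsClosed s) : BaireSpace s := by
  have := h.cm T
  have := hs.isCompletelyMetrizableSpace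
  infer_instance

theorem ENR.joined (h : ENR M) {O : Set M} (hO : IsOpen O) (hc : IsPreconnected O) {a b : M}
    (ha : a ∈ O) (hb : b ∈ O) : JoinedIn O a b := by
  have := h.lpc
  exact (hO.isConnected_iff_isPathConnected.1 ⟨⟨a, ha⟩, hc⟩).joinedIn a ha b hb

/-- The retraction data as plain functions. -/
theorem ENR.fn (h : ENR M) (x₀ : M) : ∃ (m : ℕ) (N : Set (EuclideanSpace ℝ (Fin m)))
    (i : M → EuclideanSpace ℝ (Fin m)) (r : EuclideanSpace ℝ (Fin m) → M),
    IsOpen N ∧ IsEmbedding i ∧ ContinuousOn r N ∧ (∀ x, i x ∈ N) ∧ ∀ x, r (i x) = x := by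
  classical
  obtain ⟨m, N, i, r, hN, hr, he⟩ := h.emb
  refine ⟨m, N, fun x => i x, fun v => if h : v ∈ N then r ⟨v, h⟩ else x₀, hN,
    IsEmbedding.subtypeVal.comp he.isEmbedding, ?_, fun x => (i x).2, fun x => ?_⟩
  · rw [continuousOn_iff_continuous_domRestrict]
    exact r.continuous.congr fun v => by simp
  · simp [hr]

/-- A retract of an open subset of a finite dimensional normed space. -/
theorem ENR.of {E : Type} [NormedAddCommGroup E] [NormedSpace ℝ E] [FiniteDimensional ℝ E]
    {N : Set E} (hN : IsOpen N) (i : M → E) (r : N → M) (hi : Continuous i) (hr : Continuous r)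
    (hm : ∀ x, i x ∈ N) (h : ∀ x, r ⟨i x, hm x⟩ = x) : ENR M :=
  ⟨_, toEuclidean.symm ⁻¹' N, ⟨fun x => ⟨toEuclidean (i x), by simpa using hm x⟩, by fun_prop⟩,
    ⟨fun v => r ⟨toEuclidean.symm v.1, v.2⟩, by fun_prop⟩,
    hN.preimage toEuclidean.symm.continuous, fun x => by simpa using h x⟩

end enr

section zs
variable {M : Type} [TopologicalSpace M]

/-- The three hypotheses of the theorem. -/
def Good (M : Type) [TopologicalSpace M] : Prop := ENR M ∧ DDP M ∧ ArcApprox M

/-- Maps of the square can be pushed off the set. -/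
def Zs (S : Set M) : Prop := Dense {a : C(Sq, M) | Disjoint (range a) S}

theorem Zs.mono {S S' : Set M} (h : Zs S) (hs : S' ⊆ S) : Zs S' :=
  Dense.mono (fun _ ha => Disjoint.mono_right hs ha) h

theorem isOpen_miss {T : Type} [TopologicalSpace T] [CompactSpace T] {S : Set M}
    (hS : IsClosed S) : IsOpen {a : C(T, M) | Disjoint (range a) S} := by
  convert ContinuousMap.isOpen_setOfPred_mapsTo (X := T) isCompact_univ hS.isOpen_compl using 2 with a
  simp [MapsTo, disjoint_left]

theorem isOpen_into {T : Type} [TopologicalSpace T] [CompactSpace T] {W : Set M}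
    (hW : IsOpen W) : IsOpen {a : C(T, M) | ∀ t, a t ∈ W} := by
  convert ContinuousMap.isOpen_setOfPred_mapsTo (X := T) isCompact_univ hW using 2 with a
  simp [MapsTo]

theorem isOpen_disj [T2Space M] {T T' : Type} [TopologicalSpace T] [CompactSpace T]
    [TopologicalSpace T'] [CompactSpace T'] :
    IsOpen {p : C(T, M) × C(T', M) | Disjoint (range p.1) (range p.2)} := by
  refine isOpen_prod_iff.2 fun a b h => ?_
  obtain ⟨U, V, hU, hV, h1, h2, h3⟩ := SeparatedNhds.of_isCompact_isCompact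
    (isCompact_range a.continuous) (isCompact_range b.continuous) h
  exact ⟨_, _, isOpen_into hU, isOpen_into hV, fun t => h1 (mem_range_self t),
    fun t => h2 (mem_range_self t), fun p hp =>
      h3.mono (range_subset_iff.2 hp.1) (range_subset_iff.2 hp.2)⟩

/-- Maps from closed subsets of the square into `V` extend to maps of the square into `W`. -/
def Ext (V W : Set M) : Prop := ∀ (C : Set Sq) (a : Sq → M), IsClosed C → ContinuousOn a C →
  MapsTo a C V → ∃ b : C(Sq, M), EqOn b a C ∧ ∀ t, b t ∈ W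

theorem Ext.mono {V W V' W' : Set M} (h : Ext V W) (hV : V' ⊆ V) (hW : W ⊆ W') : Ext V' W' :=
  fun C a h1 h2 h3 => (h C a h1 h2 (h3.mono_right hV)).imp fun _ hb => ⟨hb.1, fun t => hW (hb.2 t)⟩

/-- The extension property over small open sets of the target. -/
def UV {Y : Type} [TopologicalSpace Y] (f : M → Y) : Prop :=
  ∀ y W, IsOpen W → y ∈ W → ∃ V, IsOpen V ∧ y ∈ V ∧ Ext (f ⁻¹' V) (f ⁻¹' W)

/-- An approximate lift over `T`. -/
def LF {Y : Type} [MetricSpace Y] (f : M → Y) (α : Sq → Y) (T : Set Sq) (η : ℝ) : Prop :=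
  ∃ a : Sq → M, ContinuousOn a T ∧ ∀ t ∈ T, dist (f (a t)) (α t) < η

/-- The homeomorphism fixes every point outside `O`. -/
def Sup (O : Set M) (h : M ≃ₜ M) : Prop := ∀ z, z ∉ O → h z = z

theorem Sup.refl (O : Set M) : Sup O (Homeomorph.refl M) := fun _ _ => rfl

theorem Sup.mono {O O' : Set M} {h : M ≃ₜ M} (hs : Sup O h) (hO : O ⊆ O') : Sup O' h :=
  fun z hz => hs z fun a => hz (hO a)

theorem Sup.symm {O : Set M} {h : M ≃ₜ M} (hs : Sup O h) : Sup O h.symm :=
  fun z hz => h.symm_apply_eq.2 (hs z hz).symm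

theorem Sup.trans {O : Set M} {g h : M ≃ₜ M} (hg : Sup O g) (hh : Sup O h) : Sup O (g.trans h) :=
  fun z hz => by rw [Homeomorph.trans_apply, hg z hz, hh z hz]

theorem Sup.mem {O : Set M} {h : M ≃ₜ M} (hs : Sup O h) {x : M} : h x ∈ O ↔ x ∈ O :=
  ⟨fun a => by_contra fun b => b (hs x b ▸ a),
    fun a => by_contra fun b => b ((h.injective (hs _ b)).symm ▸ a)⟩

/-- `E` is a subset of `O`, closed in `O` and invariant. -/
structure CI (O E : Set M) : Prop where
  sub : E ⊆ O
  cl : ∀ x ∈ O, x ∈ closure E → x ∈ E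
  inv : ∀ h, Sup O h → ∀ x ∈ E, h x ∈ E

/-- The sets `A i` are collapsed by a pointwise limit of homeomorphisms supported in `U`. -/
def Col {ι : Type} (U : Set M) (A : ι → Set M) : Prop :=
  ∃ (F : M → M) (g : ℕ → M ≃ₜ M), ContinuousOn F U ∧ MapsTo F U U ∧
    (∀ x ∈ U, ∀ y ∈ U, F x = F y ↔ x = y ∨ ∃ i, x ∈ A i ∧ y ∈ A i) ∧ (∀ n, Sup U (g n)) ∧
    ∀ x ∈ U, Tendsto (fun n => g n x) atTop (𝓝 (F x))

/-- All orbits are dense in every connected open set. -/
def DO (M : Type) [TopologicalSpace M] : Prop := ∀ (O V : Set M) (x : M), IsOpen O →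
  IsPreconnected O → x ∈ O → IsOpen V → (V ∩ O).Nonempty → ∃ h, Sup O h ∧ h x ∈ V

/-- The double cover attached to a complex function. -/
abbrev Cov (V : Set M) (φ : M → ℂ) : Type := {u : M × ℂ // u.1 ∈ V ∧ u.2 ≠ 0 ∧ u.2 ^ 2 = φ u.1}

end zs

/-- A null family of sets. -/
def Null {M ι : Type} [MetricSpace M] (A : ι → Set M) : Prop :=
  ∀ δ > 0, {i | ∃ x ∈ A i, ∃ y ∈ A i, δ ≤ dist x y}.Finite

theorem Null.mono {M ι : Type} [MetricSpace M] {A B : ι → Set M} (h : Null A)
    (hs : ∀ i, B i ⊆ A i) : Null B :=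
  fun δ hδ => (h δ hδ).subset fun i ⟨x, hx, y, hy, e⟩ => ⟨x, hs i hx, y, hs i hy, e⟩

/-- An interior parameter. -/
def In (t : I) : Prop := t ≠ 0 ∧ t ≠ 1

/-- Two disjoint closed intervals in the interior. -/
def Iv (j : C(I, I) × C(I, I)) : Prop := Injective j.1 ∧ Injective j.2 ∧
  (∀ s t, j.1 s ≠ j.2 t) ∧ ∀ s, In (j.1 s) ∧ In (j.2 s)

end Pool.Agent.P.MP_3ae97d_gt.HM
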