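import Mathlib

/-! Definitions for the homogeneity criterion. -/

set_option autoImplicit false

namespace Pool.Agent.P.MP_3ae97d_gt.HM

open Set unitInterval

/-- Euclidean neighbourhood retract: a retract of an open subset of a Euclidean space. -/
def ENR (X : Type) [TopologicalSpace X] : Prop :=
  ∃ (m : ℕ) (N : Set (EuclideanSpace ℝ (Fin m))) (i : C(X, N)) (r : C(N, X)),
    IsOpen N ∧ ∀ x, r (i x) = x

/-- The disjoint disk property: pairs of maps of the square with disjoint images are dense. -/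
def DDP (X : Type) [TopologicalSpace X] : Prop :=
  Dense {p : C(I × I, X) × C(I × I, X) | Disjoint (range p.1) (range p.2)}

/-- Finite covering dimension. -/
def FinDim (Y : Type) [TopologicalSpace Y] : Prop :=
  ∃ n : ℕ, ∀ 𝒰 : Set (Set Y), (∀ U ∈ 𝒰, IsOpen U) → ⋃₀ 𝒰 = univ →
    ∃ 𝒱 : Set (Set Y), (∀ V ∈ 𝒱, IsOpen V ∧ ∃ U ∈ 𝒰, V ⊆ U) ∧ ⋃₀ 𝒱 = univ ∧
      ∀ y, {V ∈ 𝒱 | y ∈ V}.encard ≤ n

/-- A proper map all of whose point preimages are points or arcs. -/
def ArcMap {X Y : Type} [TopologicalSpace X] [TopologicalSpace Y] (f : X → Y) : Prop :=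
  IsProperMap f ∧ ∀ y, (∃ x, f ⁻¹' {y} = {x}) ∨
    ∃ c : C(I, X), Function.Injective c ∧ f ⁻¹' {y} = range c

/-- Approximable by homeomorphisms. -/
def Approx {X Y : Type} [TopologicalSpace X] [TopologicalSpace Y] (f : X → Y) : Prop :=
  ∀ 𝒰 : Set (Set Y), (∀ U ∈ 𝒰, IsOpen U) → ⋃₀ 𝒰 = univ →
    ∃ h : X ≃ₜ Y, ∀ x, ∃ U ∈ 𝒰, h x ∈ U ∧ f x ∈ U

/-- Approximation of arc collapses for all spaces that are locally homeomorphic to `X`. -/
def ArcApprox (X : Type) [TopologicalSpace X] : Prop :=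
  ∀ (X' Y : Type) [TopologicalSpace X'] [TopologicalSpace Y] [TopologicalSpace.MetrizableSpace Y]
    [SecondCountableTopology Y] [LocallyCompactSpace Y] (p : X' → X) (f : X' → Y),
    ENR X' → DDP X' → IsLocalHomeomorph p → FinDim Y → DDP Y → ArcMap f → Approx f

end Pool.Agent.P.MP_3ae97d_gt.HM
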