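import Pool.Agent.P.MP_3ae97d_gt.HM.Base

/-! Statements of the steps. -/

set_option autoImplicit false

namespace Pool.Agent.P.MP_3ae97d_gt.HM

open Set Filter Topology Metric Function unitInterval

/-! ### Maps into neighbourhood retracts -/

-- deps:
def S_SEP : Prop := ∀ (M T T₀ : Type) [MetricSpace M] [TopologicalSpace T] [CompactSpace T]
  [T2Space T] [TopologicalSpace T₀] [CompactSpace T₀] (j : C(T₀, T)), ENR M → Injective j →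
  IsOpenMap fun a : C(T, M) => a.comp j

-- deps:
def S_LL : Prop := ∀ (M' M T : Type) [MetricSpace M'] [MetricSpace M] [TopologicalSpace T]
  [CompactSpace T] (p : C(M', M)), IsLocalHomeomorph p → IsOpenMap fun a : C(T, M') => p.comp a

-- deps: LL
def S_GOOD : Prop := ∀ (M' M : Type) [MetricSpace M'] [MetricSpace M] (p : C(M', M)),
  IsLocalHomeomorph p → (ENR M' → Good M → Good M') ∧ ∀ S : Set M, Zs S → Zs (p ⁻¹' S)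

-- deps:
def S_OPEN : Prop := ∀ (M : Type) [TopologicalSpace M] (U : Set M), ENR M → IsOpen U → ENR U

-- deps:
def S_EXT : Prop := ∀ (M : Type) [MetricSpace M] (c : C(I, M)) (W : Set M), ENR M →
  (Injective c ∨ ∀ t, c t = c 0) → IsOpen W → range c ⊆ W →
  ∃ V, IsOpen V ∧ range c ⊆ V ∧ Ext V W

-- deps:
def S_NBH : Prop := ∀ (M : Type) [MetricSpace M] [LocallyCompactSpace M]
  [LocallyPathConnectedSpace M] (O K : Set M), IsOpen O → IsCompact K → IsPreconnected K → K ⊆ O →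
  ∃ W, IsOpen W ∧ IsPreconnected W ∧ K ⊆ W ∧ IsCompact (closure W) ∧ closure W ⊆ O

/-! ### General position -/

-- deps:
def S_ZPT : Prop := ∀ (M : Type) [MetricSpace M], DDP M → (∀ x : M, Zs {x}) ∧
  ∀ O : Set M, IsOpen O → O.Nonempty → O.Infinite

-- deps:
def S_ZUN : Prop := ∀ (M : Type) [MetricSpace M] (𝒮 : Set (Set M)), ENR M → 𝒮.Countable →
  (∀ S ∈ 𝒮, IsClosed S ∧ Zs S) → Zs (⋃₀ 𝒮)

-- deps:
def S_ZI : Prop := ∀ (M : Type) [MetricSpace M],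
  (∀ S : Set M, Zs S → Dense {b : C(I, M) | Disjoint (range b) S}) ∧
  (DDP M → ∀ φ : M ≃ₜ M, IsOpen {b : C(I, M) × C(I, M) | ∀ s t, b.1 s ≠ φ (b.2 t)} ∧
    Dense {b : C(I, M) × C(I, M) | ∀ s t, b.1 s ≠ φ (b.2 t)}) ∧
  (DDP M → ∀ 𝒩 : Set C(Sq, M), IsOpen 𝒩 → 𝒩.Nonempty →
    IsOpen {b : C(I, M) | ∃ a ∈ 𝒩, Disjoint (range a) (range b)} ∧
    Dense {b : C(I, M) | ∃ a ∈ 𝒩, Disjoint (range a) (range b)})

-- deps:
def S_INT : Prop := ∃ 𝒥 : Set (C(I, I) × C(I, I)), 𝒥.Countable ∧ (∀ j ∈ 𝒥, Iv j) ∧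
  ∀ s t, In s → In t → s ≠ t → ∃ j ∈ 𝒥, s ∈ range j.1 ∧ t ∈ range j.2

-- deps: SEP
def S_GEN1 : Prop := ∀ (M : Type) [MetricSpace M] (𝒪 : Set C(I, M)) (γ : C(I, M))
  (j : C(I, I) × C(I, I)) (G : Set (C(I, M) × C(I, M))), ENR M → IsOpen 𝒪 → γ ∈ 𝒪 → Iv j →
  Dense G → ∃ c ∈ 𝒪, c 0 = γ 0 ∧ c 1 = γ 1 ∧ (c.comp j.1, c.comp j.2) ∈ G

-- deps: GEN1
def S_GEN0 : Prop := ∀ (M : Type) [MetricSpace M] (𝒪 : Set C(I, M)) (γ : C(I, M))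
  (𝒥 : Set (C(I, I) × C(I, I))) (𝒢 : Set (Set (C(I, M) × C(I, M)))), ENR M → IsOpen 𝒪 → γ ∈ 𝒪 →
  𝒥.Countable → (∀ j ∈ 𝒥, Iv j) → 𝒢.Countable → (∀ G ∈ 𝒢, IsOpen G ∧ Dense G) →
  ∃ c ∈ 𝒪, c 0 = γ 0 ∧ c 1 = γ 1 ∧ ∀ j ∈ 𝒥, ∀ G ∈ 𝒢, (c.comp j.1, c.comp j.2) ∈ G

-- deps: INT GEN0 ZI ZPT ZUN
def S_GEN : Prop := ∀ (M : Type) [MetricSpace M] (𝒪 : Set C(I, M)) (γ : C(I, M))
  (𝒮 : Set (Set M)) (Φ : Set (M ≃ₜ M)), ENR M → DDP M → IsOpen 𝒪 → γ ∈ 𝒪 → 𝒮.Countable →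
  (∀ S ∈ 𝒮, IsClosed S ∧ Zs S) → Φ.Countable →
  ∃ c ∈ 𝒪, c 0 = γ 0 ∧ c 1 = γ 1 ∧ (∀ S ∈ 𝒮, ∀ t, In t → c t ∉ S) ∧
    (∀ φ ∈ Φ, ∀ s t, In s → In t → s ≠ t → c s ≠ φ (c t)) ∧ Zs (range c)

-- deps: GEN ZPT
def S_ARC : Prop := ∀ (M : Type) [MetricSpace M] (W B Q : Set M) (𝒮 : Set (Set M)) (a b : M),
  ENR M → DDP M → IsOpen W → IsPreconnected W → IsOpen B → (B ∩ W).Nonempty → Q.Countable →
  𝒮.Countable → (∀ S ∈ 𝒮, IsClosed S ∧ Zs S) → a ∈ W → b ∈ W → a ≠ b →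
  ∃ c : C(I, M), Injective c ∧ c 0 = a ∧ c 1 = b ∧ range c ⊆ W ∧ (∃ t, c t ∈ B) ∧
    (∀ t, In t → c t ∉ Q ∧ ∀ S ∈ 𝒮, c t ∉ S) ∧ Zs (range c)

/-! ### The quotient by a null family of arcs -/

-- deps:
def S_BES : Prop := ∀ (E : Type) [NormedAddCommGroup E] [NormedSpace ℝ E] [FiniteDimensional ℝ E],
  ∃ N : ℕ, ∀ (ι : Type) (x : ι → E) (r : ι → ℝ), (∀ i, 0 < r i ∧ r i ≤ 1) →
    ∃ s : Fin N → Set ι, (∀ l, (s l).PairwiseDisjoint fun i => closedBall (x i) (r i)) ∧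
      ∀ i, ∃ l, ∃ k ∈ s l, x i ∈ ball (x k) (r k)

-- deps: BES
def S_COLD : Prop := ∃ N : ℕ, ∀ ρ : ℝ, 0 < ρ → ρ ≤ 1 → ∃ s : Fin N → Finset Sq,
  (∀ l, (s l : Set Sq).PairwiseDisjoint fun x => closedBall x ρ) ∧
    ∀ t, ∃ l, ∃ x ∈ s l, t ∈ closedBall x ρ

-- deps:
def S_LIFT1 : Prop := ∀ (U Y : Type) [TopologicalSpace U] [MetricSpace Y] (f : C(U, Y))
  (α : C(Sq, Y)), UV f → ∀ ε > 0, ∃ δ > 0, ∃ ρ₀ > 0, ∀ (T : Set Sq) (s : Finset Sq) (ρ : ℝ),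
    ρ ≤ ρ₀ → IsClosed T → ((s : Set Sq).PairwiseDisjoint fun x => closedBall x ρ) →
    LF f α T δ → LF f α (T ∪ ⋃ x ∈ s, closedBall x ρ) ε

-- deps: COLD LIFT1
def S_LIFT : Prop := ∀ (U Y : Type) [TopologicalSpace U] [MetricSpace Y] (f : C(U, Y)),
  Surjective f → UV f → DenseRange fun a : C(Sq, U) => f.comp a

-- deps:
def S_QUO : Prop := ∀ (U ι : Type) [MetricSpace U] (A : ι → Set U), (∀ i, IsCompact (A i)) →
  Pairwise (Disjoint on A) → Null A → ∃ (Y : Type) (_ : TopologicalSpace Y) (f : U → Y),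
    IsProperMap f ∧ Surjective f ∧ ∀ x y, f x = f y ↔ x = y ∨ ∃ i, x ∈ A i ∧ y ∈ A i

-- deps:
def S_PERF : Prop := ∀ (U Y : Type) [MetricSpace U] [SecondCountableTopology U]
  [LocallyCompactSpace U] [TopologicalSpace Y] (f : U → Y), IsProperMap f → Surjective f →
  TopologicalSpace.MetrizableSpace Y ∧ SecondCountableTopology Y ∧ LocallyCompactSpace Y

-- deps:
def S_FD0 : Prop := ∀ (Y : Type) [MetricSpace Y] (P : Set Y) (𝒰 : Set (Set Y)), P.Countable →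
  (∀ U ∈ 𝒰, IsOpen U) → ⋃₀ 𝒰 = univ → ∃ 𝒱 : Set (Set Y), (∀ V ∈ 𝒱, IsOpen V ∧ ∃ U ∈ 𝒰, V ⊆ U) ∧
    P ⊆ ⋃₀ 𝒱 ∧ 𝒱.PairwiseDisjoint id

-- deps: BES FD0
def S_FD : Prop := ∀ (U Y : Type) [MetricSpace U] [MetricSpace Y] (f : U → Y) (P : Set Y), ENR U →
  Continuous f → IsClosedMap f → Surjective f → P.Countable →
  (∀ y, y ∉ P → ∃ x, f ⁻¹' {y} = {x}) → FinDim Y

-- deps:
def S_DDPY : Prop := ∀ (U Y : Type) [MetricSpace U] [TopologicalSpace Y] (f : C(U, Y)) (Z : Set U),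
  DDP U → Zs Z → (DenseRange fun a : C(Sq, U) => f.comp a) →
  (∀ x y, f x = f y → x = y ∨ x ∈ Z) → DDP Y

-- deps: QUO PERF FD DDPY LIFT EXT ZUN
def S_APP : Prop := ∀ (U ι : Type) [MetricSpace U] [Countable ι] (c : ι → C(I, U)), Good U →
  (∀ i, Injective (c i) ∧ Zs (range (c i))) → Pairwise (Disjoint on fun i => range (c i)) →
  (Null fun i => range (c i)) → ∃ (Y : Type) (_ : MetricSpace Y) (f : U → Y), Continuous f ∧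
    IsClosedMap f ∧ Surjective f ∧ Approx f ∧
    ∀ x y, f x = f y ↔ x = y ∨ ∃ i, x ∈ range (c i) ∧ y ∈ range (c i)

/-! ### Collapsing by limits of homeomorphisms -/

-- deps:
def S_EXI : Prop := ∀ (M : Type) [TopologicalSpace M] (U : Set M) (k : U ≃ₜ U), IsOpen U →
  (∀ p, p ∉ U → Tendsto (fun x : U => (k x : M)) (comap (↑) (𝓝 p)) (𝓝 p)) →
  (∀ p, p ∉ U → Tendsto (fun x : U => (k.symm x : M)) (comap (↑) (𝓝 p)) (𝓝 p)) →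
  ∃ g : M ≃ₜ M, Sup U g ∧ ∀ x : U, g x = k x

-- deps:
def S_TAP0 : Prop := ∀ (M Y : Type) [MetricSpace M] [TopologicalSpace Y] (U S : Set M) (f : U → Y),
  IsOpen U → IsClosed S → S ⊆ U → IsClosedMap f → Surjective f →
  (∀ x y, f x = f y → x = y ∨ ((x : M) ∈ S ∧ (y : M) ∈ S)) →
  ∃ 𝒰 : Set (Set Y), (∀ V ∈ 𝒰, IsOpen V) ∧ ⋃₀ 𝒰 = univ ∧ ∀ p, p ∉ U → ∃ κ > 0, ∀ V ∈ 𝒰,
    ∀ u v : U, f u ∈ V → f v ∈ V → dist (u : M) p < κ → dist (v : M) p ≤ 2 * dist (u : M) p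

-- deps: EXI TAP0
def S_TAP : Prop := ∀ (M Y : Type) [MetricSpace M] [MetricSpace Y] (U S : Set M) (f : U → Y),
  IsOpen U → IsClosed S → S ⊆ U → Continuous f → IsClosedMap f → Surjective f → Approx f →
  (∀ x y, f x = f y → x = y ∨ ((x : M) ∈ S ∧ (y : M) ∈ S)) →
  ∃ (F : M → M) (g : ℕ → M ≃ₜ M), ContinuousOn F U ∧ MapsTo F U U ∧
    (∀ x y : U, F x = F y ↔ f x = f y) ∧ (∀ n, Sup U (g n)) ∧
    ∀ x ∈ U, Tendsto (fun n => g n x) atTop (𝓝 (F x))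

-- deps: OPEN GOOD APP TAP
def S_COL : Prop := ∀ (M ι : Type) [MetricSpace M] [Countable ι] (U S : Set M) (c : ι → C(I, M)),
  Good M → IsOpen U → IsClosed S → S ⊆ U →
  (∀ i, Injective (c i) ∧ Zs (range (c i)) ∧ range (c i) ⊆ S) →
  Pairwise (Disjoint on fun i => range (c i)) → (Null fun i => range (c i)) →
  Col U fun i => range (c i)

-- deps: COL
def S_MERGE : Prop := ∀ (M : Type) [MetricSpace M] (U : Set M) (c : C(I, M)), Good M → IsOpen U →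
  Injective c → Zs (range c) → range c ⊆ U → ∃ (z : M) (g : ℕ → M ≃ₜ M), (∀ n, Sup U (g n)) ∧
    Tendsto (fun n => g n (c 0)) atTop (𝓝 z) ∧ Tendsto (fun n => g n (c 1)) atTop (𝓝 z)

/-! ### Invariant sets -/

-- deps: ARC MERGE
def S_D1 : Prop := ∀ (M : Type) [MetricSpace M] (O E K : Set M), Good M → IsOpen O →
  IsPreconnected O → CI O E → (∃ m ∈ O, m ∉ E) → K ⊆ E → IsPreconnected K → K.Subsingleton

-- deps:
def S_REC : Prop := ∀ (ι α : Type) [Countable ι] (P : ι → α → Prop) (r : α → α → Prop),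
  (∀ x y, r x y → r y x) →
  (∀ (i : ι) (s : Set α), s.Finite → (∀ x ∈ s, ∃ j, P j x) → ∃ y, P i y ∧ ∀ x ∈ s, r x y) →
  ∃ f : ι → α, (∀ i, P i (f i)) ∧ Pairwise (r on f)

-- deps:
def S_D2P : Prop := ∀ (M : Type) [MetricSpace M] [LocallyPathConnectedSpace M] (W K : Set M),
  IsOpen W → IsPreconnected W → IsCompact K → K ⊆ W →
  ∃ (ι : Type) (_ : Countable ι) (C V : ι → Set M), (∀ i, IsClosed (C i) ∧ C i ⊆ K ∧
    IsClosed (K \ C i) ∧ IsOpen (V i) ∧ IsPreconnected (V i) ∧ V i ⊆ W ∧ (V i ∩ C i).Nonempty ∧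
      (V i ∩ (K \ C i)).Nonempty) ∧ Null V ∧
    ∀ C', IsClosed C' → C' ⊆ K → IsClosed (K \ C') → C'.Nonempty → (K \ C').Nonempty →
      ∃ i, C i = C'

-- deps: ARC REC
def S_D2R : Prop := ∀ (M ι : Type) [MetricSpace M] [Countable ι] (Q Q₀ : Set M)
  (V P₀ P₁ : ι → Set M), ENR M → DDP M → Q.Countable → Q₀.Finite →
  (∀ i, IsOpen (V i) ∧ IsPreconnected (V i) ∧ P₀ i ⊆ Q ∩ V i ∧ P₁ i ⊆ Q ∩ V i ∧ (P₀ i).Infinite ∧
    (P₁ i).Infinite ∧ Disjoint (P₀ i) (P₁ i)) →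
  ∃ c : ι → C(I, M), (∀ i, Injective (c i) ∧ Zs (range (c i)) ∧ range (c i) ⊆ V i ∧
    c i 0 ∈ P₀ i \ Q₀ ∧ c i 1 ∈ P₁ i \ Q₀ ∧ ∀ t, In t → c i t ∉ Q) ∧
    Pairwise (Disjoint on fun i => range (c i))

-- deps: D2P D2R
def S_D2A : Prop := ∀ (M : Type) [MetricSpace M] (W K : Set M), ENR M → DDP M → IsOpen W →
  IsPreconnected W → IsCompact K → K ⊆ W → Preperfect K → K.Nonempty →
  ∃ (ι : Type) (_ : Countable ι) (c : ι → C(I, M)) (a b : M),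
    (∀ i, Injective (c i) ∧ Zs (range (c i)) ∧ range (c i) ⊆ W) ∧
    Pairwise (Disjoint on fun i => range (c i)) ∧ (Null fun i => range (c i)) ∧
    a ∈ K ∧ b ∈ K ∧ a ≠ b ∧ (∀ i, a ∉ range (c i)) ∧
    ∀ C', IsClosed C' → C' ⊆ K → IsClosed (K \ C') → C'.Nonempty → (K \ C').Nonempty →
      ∃ i, c i 0 ∈ C' ∧ c i 1 ∈ K \ C'

-- deps: NBH D2A COL D1
def S_D2 : Prop := ∀ (M : Type) [MetricSpace M] (O E D : Set M), Good M → IsOpen O →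
  IsPreconnected O → CI O E → (∃ m ∈ O, m ∉ E) → D ⊆ E → Preperfect D → D = ∅

-- deps: NBH ARC MERGE D2
def S_DI : Prop := ∀ (M : Type) [MetricSpace M] (O E : Set M), Good M → IsOpen O →
  IsPreconnected O → CI O E → (∃ m ∈ O, m ∉ E) → E.Subsingleton

-- deps: DI ZPT
def S_ORB : Prop := ∀ (M : Type) [MetricSpace M] (O : Set M), Good M → IsOpen O →
  IsPreconnected O → (∀ x ∈ O, (∀ h, Sup O h → h x = x) ∨
    ∀ V, IsOpen V → (V ∩ O).Nonempty → ∃ h, Sup O h ∧ h x ∈ V) ∧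
  ∀ x ∈ O, ∀ y ∈ O, (∀ h, Sup O h → h x = x) → (∀ h, Sup O h → h y = y) → x = y

/-! ### The double cover -/

-- deps: ARC ZPT
def S_COV1 : Prop := ∀ (X : Type) [MetricSpace X] (V : Set X) (e : X), ENR X → DDP X → IsOpen V →
  IsPreconnected V → e ∈ V → ∃ (φ : C(X, ℂ)) (c₁ c₂ : C(I, X)), c₁ 0 = e ∧ c₂ 0 = e ∧
    c₁ 1 = c₂ 1 ∧ ∀ s : I, c₁ s ∈ V ∧ c₂ s ∈ V ∧
      φ (c₁ s) = (1 - (s : ℝ) + (s : ℝ) * Complex.I) ^ 2 ∧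
      φ (c₂ s) = (-(1 - (s : ℝ)) + (s : ℝ) * Complex.I) ^ 2

-- deps:
def S_COV2 : Prop := ∀ (X : Type) [MetricSpace X] (V : Set X) (φ : C(X, ℂ)), ENR X → IsOpen V →
  ENR (Cov V φ)

-- deps:
def S_COV3 : Prop := ∀ (X : Type) [MetricSpace X] (V : Set X) (φ : C(X, ℂ)), IsOpen V →
  IsLocalHomeomorph fun u : Cov V φ => u.1.1

-- deps: COV1 COV2 COV3
def S_COV : Prop := ∀ (X : Type) [MetricSpace X] (V : Set X) (e : X), ENR X → DDP X → IsOpen V →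
  IsPreconnected V → e ∈ V → ∃ (M : Type) (_ : MetricSpace M) (p : C(M, X)) (τ : M ≃ₜ M) (u : M),
    ENR M ∧ IsLocalHomeomorph p ∧ (∀ v, p v ∈ V) ∧ p u = e ∧ (∀ v, τ (τ v) = v ∧ τ v ≠ v) ∧
    (∀ v w, p v = p w → w = v ∨ w = τ v) ∧ Joined u (τ u)

-- deps: EXI
def S_TR : Prop := ∀ (M X : Type) [MetricSpace M] [MetricSpace X] (p : C(M, X)) (V : Set M)
  (g : M ≃ₜ M), IsLocalHomeomorph p → IsOpen V → IsCompact (closure V) → InjOn p (closure V) →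
  Sup V g → ∃ g' : X ≃ₜ X, Sup (p '' V) g' ∧ ∀ x ∈ V, g' (p x) = p (g x)

-- deps: GEN ZPT NBH
def S_THIN : Prop := ∀ (M : Type) [MetricSpace M] (O : Set M) (a b : M) (ψ : Bool → M ≃ₜ M),
  ENR M → DDP M → IsOpen O → IsPreconnected O → a ∈ O → b ∈ O →
  (∀ k, (∀ v, ψ k (ψ k v) = v ∧ ψ k v ≠ v) ∧ a ≠ ψ k b) →
  ∃ V, IsOpen V ∧ IsPreconnected V ∧ a ∈ V ∧ b ∈ V ∧ IsCompact (closure V) ∧
    ∀ k, ∀ v ∈ closure V, ψ k v ∉ closure V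

-- deps: ORB ZPT
def S_MOVE : Prop := ∀ (M : Type) [MetricSpace M] (τ : M ≃ₜ M) (u : M), Good M →
  (∀ v, τ (τ v) = v ∧ τ v ≠ v) → Joined u (τ u) →
  ∃ h : M ≃ₜ M, Joined u (h u) ∧ h u ≠ u ∧ h u ≠ τ u ∧ h (τ u) ≠ u

-- deps: COV GOOD MOVE THIN TR ORB
def S_NOFIX : Prop := ∀ (X : Type) [MetricSpace X] (V : Set X) (e : X), Good X → IsOpen V →
  IsPreconnected V → e ∈ V → ¬∀ h, Sup V h → h e = e

/-! ### Back and forth -/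

-- deps:
def S_LIM0 : Prop := ∀ (M : Type) [MetricSpace M] (x z : M) (V' V : ℕ → Set M) (G : ℕ → M → M)
  (ε : ℕ → ℝ), (∀ k, Continuous (G k)) → Antitone V' → Tendsto ε atTop (𝓝 0) →
  (∀ k, x ∈ V' k ∧ V' k ⊆ ball x (ε k) ∧ V k ⊆ ball z (ε k)) →
  (∀ k l, k ≤ l → MapsTo (G l) (V' k) (V k)) → (∀ k p, p ∉ V' k → G (k + 1) p = G k p) →
  ∃ G' : M → M, Continuous G' ∧ G' x = z ∧ ∀ k p, p ∉ V' k → G' p = G k p

-- deps: LIM0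
def S_LIM : Prop := ∀ (M : Type) [MetricSpace M] (x z : M) (V : ℕ → Set M) (G g : ℕ → M ≃ₜ M)
  (ε : ℕ → ℝ), Antitone V → Tendsto ε atTop (𝓝 0) →
  (∀ k, G k x ∈ V k ∧ z ∈ V k ∧ V k ⊆ ball z (ε k) ∧ (∀ p, G k p ∈ V k → dist p x < ε k) ∧
    Sup (V k) (g k) ∧ G (k + 1) = (G k).trans (g k)) →
  ∃ G' : M ≃ₜ M, G' x = z ∧ ∀ p, G 0 p ∉ V 0 → G' p = G 0 p

-- deps: NBH
def S_BF1 : Prop := ∀ (M : Type) [MetricSpace M] [LocallyCompactSpace M]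
  [LocallyPathConnectedSpace M] (V : Set M) (G H : M ≃ₜ M) (x y : M) (ε : ℝ), DO M → IsOpen V →
  IsPreconnected V → G x ∈ V → H y ∈ V → 0 < ε → ∃ (V' : Set M) (g h : M ≃ₜ M), IsOpen V' ∧
    IsPreconnected V' ∧ IsCompact (closure V') ∧ closure V' ⊆ V ∧ Sup V g ∧ Sup V h ∧
    g (G x) ∈ V' ∧ h (H y) ∈ V' ∧ (∀ u ∈ V', ∀ v ∈ V', dist u v < ε) ∧
    (∀ p, g (G p) ∈ V' → dist p x < ε) ∧ ∀ p, h (H p) ∈ V' → dist p y < ε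

-- deps: BF1 LIM
def S_BF : Prop := ∀ (M : Type) [MetricSpace M] [LocallyCompactSpace M]
  [LocallyPathConnectedSpace M] (O : Set M) (x y : M), DO M → IsOpen O → IsPreconnected O →
  x ∈ O → y ∈ O → ∃ h, Sup O h ∧ h x = y

-- deps: ORB NOFIX BF
def S_MAIN : Prop := ∀ (X : Type) [TopologicalSpace X] (O : Set X) (x y : X), Good X → IsOpen O →
  IsPreconnected O → x ∈ O → y ∈ O → ∃ h, Sup O h ∧ h x = y

end Pool.Agent.P.MP_3ae97d_gt.HM
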